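import Pool.Agent.AASL.Defs

/-!
# Quadratic polynomials with a small value at a point which is not real
-/

set_option autoImplicit false

open NumberField Module Polynomial

namespace Pool.Agent.AASL

private theorem auto_norm {k : Type} [Field k] [NumberField k] (y : 𝓞 k) :
    ∏ ρ : k →+* ℂ, ‖ρ (y : k)‖ = ‖((Algebra.norm ℤ y : ℤ) : ℂ)‖ := by
  have h1 := Algebra.norm_eq_prod_embeddings ℚ ℂ (y : k)
  have h2 : ∏ σ : k →ₐ[ℚ] ℂ, σ (y : k) = ∏ ρ : k →+* ℂ, ρ (y : k) :=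
    (Fintype.prod_equiv (RingHom.equivRatAlgHom k ℂ) _ _ fun ρ => rfl).symm
  rw [h2, ← Algebra.coe_norm_int] at h1
  rw [← norm_prod, ← h1]
  congr 1

private theorem auto_low {k : Type} [Field k] [NumberField k] (τ : k →+* ℂ) {y : 𝓞 k}
    (hy : y ≠ 0) {R : ℝ} (hR : ∀ ρ : k →+* ℂ, ‖ρ (y : k)‖ ≤ R) :
    1 ≤ ‖τ (y : k)‖ * R ^ (finrank ℚ k - 1) := by
  classical
  have h1 : (1 : ℝ) ≤ ∏ ρ : k →+* ℂ, ‖ρ (y : k)‖ := by
    rw [auto_norm, Complex.norm_intCast]
    have h2 : Algebra.norm ℤ y ≠ 0 := Algebra.norm_ne_zero_iff.2 hy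
    exact_mod_cast Int.one_le_abs h2
  rw [← Finset.mul_prod_erase Finset.univ _ (Finset.mem_univ τ)] at h1
  have h3 : ∏ ρ ∈ Finset.univ.erase τ, ‖ρ (y : k)‖ ≤ R ^ (finrank ℚ k - 1) := by
    have h4 : ∏ ρ ∈ Finset.univ.erase τ, ‖ρ (y : k)‖ ≤ ∏ _ρ ∈ Finset.univ.erase τ, R :=
      Finset.prod_le_prod (fun _ _ => norm_nonneg _) fun ρ _ => hR ρ
    rwa [Finset.prod_const, Finset.card_erase_of_mem (Finset.mem_univ τ), Finset.card_univ,
      NumberField.Embeddings.card] at h4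
  exact h1.trans (mul_le_mul_of_nonneg_left h3 (norm_nonneg _))

private theorem auto_im {k : Type} [Field k] {τ : k →+* ℂ} (hτ : IsRl τ) (x : k) :
    (τ x).im = 0 := Complex.conj_eq_iff_im.1 (hτ x)

/-- Let `d = [k : ℚ]`. A nonzero `a ∈ 𝓞 k` with all conjugates of size at most `R` satisfies
`‖τ a‖ ≥ R ^ (-(d - 1))` (norm; `1 ≤ R`). Let `F = a X ^ 2 + b' X + c` be the polynomial, nonzero.
If `a = 0` then `‖F(α)‖ ≥ ‖τ b'‖ |Im α|`, or `b' = 0` and `‖F(α)‖ = ‖τ c‖`. If `a ≠ 0` and `F` is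
reducible then it has two zeros `x₀, x₁` in `k`, `τ x₀, τ x₁` are real and
`‖F(α)‖ = ‖τ a‖ ‖α - τ x₀‖ ‖α - τ x₁‖ ≥ ‖τ a‖ |Im α| ^ 2`. In all cases
`‖F(α)‖ ≥ const * R ^ (1 - d)`, which is greater than `R ^ (1 - b)` for large `R`. -/
theorem auto_irr {k : Type} [Field k] [NumberField k] (τ : k →+* ℂ) (hτ : IsRl τ) (α : ℂ)
    (hα : starRingEnd ℂ α ≠ α) (b : ℝ) (hb : (finrank ℚ k : ℝ) < b) :
    ∃ R₀ : ℝ, 1 ≤ R₀ ∧ ∀ R : ℝ, R₀ ≤ R → ∀ y ∈ cell τ α 2 R (R ^ (1 - b)), y ≠ 0 →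
      Irreducible ((AAL.form X y).map (algebraMap (𝓞 k) k)) ∧ y (Fin.last 2) ≠ 0 := by
  classical
  have hI : 0 < |α.im| := abs_pos.2 fun h => hα (Complex.conj_eq_iff_im.2 h)
  set I := |α.im| with hIdef
  set m : ℝ := min 1 (min I (I ^ 2)) with hm
  have hm0 : 0 < m := lt_min one_pos (lt_min hI (by positivity))
  have hd : 0 < finrank ℚ k := finrank_pos
  obtain ⟨R₁, hR₁⟩ := ((tendsto_rpow_neg_atTop (sub_pos.2 hb)).eventually
    (gt_mem_nhds hm0)).exists_forall_of_atTop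
  refine ⟨max 1 R₁, le_max_left _ _, fun R hR y hy hy0 => ?_⟩
  have hR1 : 1 ≤ R := (le_max_left _ _).trans hR
  have hR0 : 0 < R := one_pos.trans_le hR1
  have hlt := hR₁ R ((le_max_right _ _).trans hR)
  obtain ⟨hy1, hy2⟩ := hy
  have hev : ev τ α y = τ (y 0 : k) + τ (y 1 : k) * α + τ (y 2 : k) * α ^ 2 := by
    unfold ev
    rw [Fin.sum_univ_three]
    simp
  -- the contradiction
  have key : ¬ m ≤ ‖ev τ α y‖ * R ^ (finrank ℚ k - 1) := by
    intro h
    have h1 : ‖ev τ α y‖ * R ^ (finrank ℚ k - 1) ≤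
        R ^ (1 - b) * R ^ (finrank ℚ k - 1) :=
      mul_le_mul_of_nonneg_right hy2 (by positivity)
    have h2 : R ^ (1 - b) * R ^ (finrank ℚ k - 1) = R ^ (-(b - finrank ℚ k)) := by
      rw [← Real.rpow_natCast R, ← Real.rpow_add hR0, Nat.cast_sub hd]
      congr 1
      push_cast
      ring
    rw [h2] at h1
    linarith
  have him : ∀ x : k, I ≤ ‖α - τ x‖ := by
    intro x
    have h1 := Complex.abs_im_le_norm (α - τ x)
    rwa [Complex.sub_im, auto_im hτ, sub_zero] at h1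
  have hlow : ∀ i, y i ≠ 0 → 1 ≤ ‖τ (y i : k)‖ * R ^ (finrank ℚ k - 1) :=
    fun i hi => auto_low τ hi fun ρ => hy1 i ρ
  have ha : y 2 ≠ 0 := by
    intro ha
    by_cases hb1 : y 1 = 0
    · have hc : y 0 ≠ 0 := by
        intro hc
        apply hy0
        funext i
        fin_cases i
        · exact hc
        · exact hb1
        · exact ha
      apply key
      rw [hev, ha, hb1]
      simp only [map_zero, zero_mul, add_zero]
      exact (min_le_left _ _).trans (hlow 0 hc)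
    · apply key
      have h1 : ‖τ (y 1 : k)‖ * I ≤ ‖ev τ α y‖ := by
        have h2 := Complex.abs_im_le_norm (ev τ α y)
        rw [hev, ha] at h2
        have h3 : (τ (y 0 : k) + τ (y 1 : k) * α + τ ((0 : 𝓞 k) : k) * α ^ 2).im =
            (τ (y 1 : k)).re * α.im := by
          simp [Complex.mul_im, auto_im hτ]
        rw [h3, abs_mul] at h2
        have h4 : ‖τ (y 1 : k)‖ = |(τ (y 1 : k)).re| := by
          conv_lhs => rw [← Complex.re_add_im (τ (y 1 : k)), auto_im hτ]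
          simp
        rw [h4, hev, ha]
        exact h2
      calc m ≤ I := (min_le_right _ _).trans (min_le_left _ _)
        _ = 1 * I := (one_mul _).symm
        _ ≤ (‖τ (y 1 : k)‖ * R ^ (finrank ℚ k - 1)) * I :=
            mul_le_mul_of_nonneg_right (hlow 1 hb1) hI.le
        _ = (‖τ (y 1 : k)‖ * I) * R ^ (finrank ℚ k - 1) := by ring
        _ ≤ _ := mul_le_mul_of_nonneg_right h1 (by positivity)
  refine ⟨?_, ha⟩
  have hak : ((y 2 : 𝓞 k) : k) ≠ 0 := by
    intro h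
    exact ha (RingOfIntegers.coe_eq_zero_iff.1 h)
  have hF : (AAL.form X y).map (algebraMap (𝓞 k) k) =
      C (y 2 : k) * X ^ 2 + C (y 1 : k) * X + C (y 0 : k) := by
    unfold AAL.form
    rw [Fin.sum_univ_three]
    simp [natDegree_X, Polynomial.map_add, Polynomial.map_mul]
    ring
  have hdeg : ((AAL.form X y).map (algebraMap (𝓞 k) k)).natDegree = 2 := by
    rw [hF]
    exact natDegree_quadratic hak
  rw [irreducible_iff_roots_eq_zero_of_degree_le_three hdeg.ge (by omega)]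
  by_contra hroot
  obtain ⟨x₀, hx₀⟩ := Multiset.exists_mem_of_ne_zero hroot
  have h0 := (mem_roots'.1 hx₀).2
  rw [IsRoot.def, hF] at h0
  simp only [eval_add, eval_mul, eval_C, eval_pow, eval_X] at h0
  set x₁ : k := -(y 1 : k) / (y 2 : k) - x₀ with hx₁
  apply key
  have h1 : ev τ α y = τ (y 2 : k) * ((α - τ x₀) * (α - τ x₁)) := by
    have h2 : (y 1 : k) = -(y 2 : k) * (x₀ + x₁) := by
      rw [hx₁]
      field_simp
      ring
    have h3 : (y 0 : k) = (y 2 : k) * (x₀ * x₁) := by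
      rw [h2] at h0
      linear_combination h0
    rw [hev, h2, h3]
    simp only [map_mul, map_neg, map_add]
    ring
  calc m ≤ I ^ 2 := (min_le_right _ _).trans (min_le_right _ _)
    _ = 1 * (I * I) := by ring
    _ ≤ (‖τ (y 2 : k)‖ * R ^ (finrank ℚ k - 1)) * (‖α - τ x₀‖ * ‖α - τ x₁‖) :=
        mul_le_mul (hlow 2 ha) (mul_le_mul (him _) (him _) hI.le (norm_nonneg _))
          (by positivity) (by positivity)
    _ = ‖ev τ α y‖ * R ^ (finrank ℚ k - 1) := by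
        rw [h1, norm_mul, norm_mul]
        ring

end Pool.Agent.AASL
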