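import Pool.Agent.AASL.Basis
import Pool.Agent.SST.SchlickK

/-!
# Counting in the cell: lower bounds
-/

set_option autoImplicit false

open NumberField Module

namespace Pool.Agent.AASL

variable {k : Type} [Field k] [NumberField k]

/-- (the conjugates of the coefficients are bounded) -/
theorem cell_finite (τ : k →+* ℂ) (α : ℂ) (n : ℕ) (R S : ℝ) : (cell τ α n R S).Finite := by
  have h1 : {x : k | IsIntegral ℤ x ∧ ∀ ρ : k →+* ℂ, ‖ρ x‖ ≤ R}.Finite :=
    NumberField.Embeddings.finite_of_norm_le k ℂ R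
  have h2 : {x : 𝓞 k | ∀ ρ : k →+* ℂ, ‖ρ (x : k)‖ ≤ R}.Finite := by
    refine (h1.preimage (f := fun x : 𝓞 k => (x : k))
      (RingOfIntegers.coe_injective.injOn)).subset ?_
    intro x hx
    exact ⟨x.isIntegral_coe, hx⟩
  refine (Set.Finite.pi' (t := fun _ : Fin (n + 1) =>
    {x : 𝓞 k | ∀ ρ : k →+* ℂ, ‖ρ (x : k)‖ ≤ R}) fun _ => h2).subset ?_
  intro y hy i
  exact hy.1 i

private theorem cc_coe_add (ρ : k →+* ℂ) (a b : 𝓞 k) :
    ρ ((a + b : 𝓞 k) : k) = ρ (a : k) + ρ (b : k) := by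
  have h : ((a + b : 𝓞 k) : k) = (a : k) + (b : k) := map_add (algebraMap (𝓞 k) k) a b
  rw [h, map_add]

omit [NumberField k] in
private theorem cc_coe_smul (ρ : k →+* ℂ) (m : ℤ) (a : 𝓞 k) :
    ρ ((m • a : 𝓞 k) : k) = (m : ℂ) * ρ (a : k) := by
  have h : ((m • a : 𝓞 k) : k) = (m : k) * (a : k) := by
    rw [zsmul_eq_mul]
    exact (map_mul (algebraMap (𝓞 k) k) _ _).trans (by rw [map_intCast])
  rw [h, map_mul, map_intCast]

private theorem cc_ev_add (τ : k →+* ℂ) (α : ℂ) {n : ℕ} (y y' : Fin (n + 1) → 𝓞 k) :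
    ev τ α (y + y') = ev τ α y + ev τ α y' := by
  unfold ev
  rw [← Finset.sum_add_distrib]
  refine Finset.sum_congr rfl fun i _ => ?_
  rw [Pi.add_apply, cc_coe_add, add_mul]

omit [NumberField k] in
private theorem cc_ev_smul (τ : k →+* ℂ) (α : ℂ) {n : ℕ} (m : ℤ) (y : Fin (n + 1) → 𝓞 k) :
    ev τ α (m • y) = (m : ℂ) * ev τ α y := by
  unfold ev
  rw [Finset.mul_sum]
  refine Finset.sum_congr rfl fun i _ => ?_
  rw [Pi.smul_apply, cc_coe_smul, mul_assoc]

private theorem cc_add {τ : k →+* ℂ} {α : ℂ} {n : ℕ} {R S R' S' : ℝ}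
    {y y' : Fin (n + 1) → 𝓞 k} (hy : y ∈ cell τ α n R S) (hy' : y' ∈ cell τ α n R' S') :
    y + y' ∈ cell τ α n (R + R') (S + S') := by
  refine ⟨fun i ρ => ?_, ?_⟩
  · rw [Pi.add_apply, cc_coe_add]
    exact (norm_add_le _ _).trans (add_le_add (hy.1 i ρ) (hy'.1 i ρ))
  · rw [cc_ev_add]
    exact (norm_add_le _ _).trans (add_le_add hy.2 hy'.2)

omit [NumberField k] in
private theorem cc_smul {τ : k →+* ℂ} {α : ℂ} {n : ℕ} {R S : ℝ}
    {y : Fin (n + 1) → 𝓞 k} (hy : y ∈ cell τ α n R S) (m : ℤ) :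
    m • y ∈ cell τ α n (|(m : ℝ)| * R) (|(m : ℝ)| * S) := by
  have hm : ‖(m : ℂ)‖ = |(m : ℝ)| := by
    rw [← Complex.ofReal_intCast, Complex.norm_real, Real.norm_eq_abs]
  refine ⟨fun i ρ => ?_, ?_⟩
  · rw [Pi.smul_apply, cc_coe_smul, norm_mul, hm]
    exact mul_le_mul_of_nonneg_left (hy.1 i ρ) (abs_nonneg _)
  · rw [cc_ev_smul, norm_mul, hm]
    exact mul_le_mul_of_nonneg_left hy.2 (abs_nonneg _)

omit [NumberField k] in
private theorem cc_of_smul {τ : k →+* ℂ} {α : ℂ} {n : ℕ} {R S : ℝ} {D : ℕ} (hD : 1 ≤ D)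
    {y : Fin (n + 1) → 𝓞 k} (hy : (D : ℤ) • y ∈ cell τ α n (D * R) (D * S)) :
    y ∈ cell τ α n R S := by
  have hD0 : (0 : ℝ) < D := by exact_mod_cast hD
  have hm : ‖((D : ℤ) : ℂ)‖ = (D : ℝ) := by simp
  refine ⟨fun i ρ => ?_, ?_⟩
  · have h := hy.1 i ρ
    rw [Pi.smul_apply, cc_coe_smul, norm_mul, hm] at h
    exact le_of_mul_le_mul_left h hD0
  · have h := hy.2
    rw [cc_ev_smul, norm_mul, hm] at h
    exact le_of_mul_le_mul_left h hD0

omit [NumberField k] in
private theorem cc_mono {τ : k →+* ℂ} {α : ℂ} {n : ℕ} {R S R' S' : ℝ} (hR : R ≤ R') (hS : S ≤ S')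
    {y : Fin (n + 1) → 𝓞 k} (hy : y ∈ cell τ α n R S) : y ∈ cell τ α n R' S' :=
  ⟨fun i ρ => (hy.1 i ρ).trans hR, hy.2.trans hS⟩

omit [NumberField k] in
private theorem cc_zero {τ : k →+* ℂ} {α : ℂ} {n : ℕ} :
    (0 : Fin (n + 1) → 𝓞 k) ∈ cell τ α n 0 0 := by
  refine ⟨fun i ρ => ?_, ?_⟩
  · simp
  · simp [ev]

/-- Combinations with bounded coefficients. -/
private theorem cc_comb {τ : k →+* ℂ} {α : ℂ} {n N : ℕ} {R S b : ℝ} (hR : 0 ≤ R) (hS : 0 ≤ S)
    {y : Fin N → Fin (n + 1) → 𝓞 k} {x : Fin N → ℝ}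
    (hy : ∀ i, y i ∈ cell τ α n (x i * R) (x i * S)) {t : Fin N → ℤ}
    (ht : ∀ i, |(t i : ℝ)| * x i ≤ b) :
    ∑ i, t i • y i ∈ cell τ α n (N * b * R) (N * b * S) := by
  have h : ∀ s : Finset (Fin N),
      ∑ i ∈ s, t i • y i ∈ cell τ α n (s.card * b * R) (s.card * b * S) := by
    intro s
    classical
    induction s using Finset.induction_on with
    | empty => simpa using cc_zero
    | insert i s hi ih =>
      rw [Finset.sum_insert hi, Finset.card_insert_of_notMem hi]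
      refine cc_mono ?_ ?_ (cc_add (cc_smul (hy i) (t i)) ih)
      · have := mul_le_mul_of_nonneg_right (ht i) hR
        push_cast
        nlinarith
      · have := mul_le_mul_of_nonneg_right (ht i) hS
        push_cast
        nlinarith
  have := h Finset.univ
  rwa [Finset.card_univ, Fintype.card_fin] at this

/-- Counting by an injective family. -/
private theorem cc_count {ι β : Type} [Fintype ι] {A : Set β} (hA : A.Finite) {x : ι → ℝ}
    (hx : ∀ i, 0 ≤ x i) (f : (ι → ℤ) → β) (hf : Function.Injective f)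
    (hm : ∀ t : ι → ℤ, (∀ i, |(t i : ℝ)| ≤ x i) → f t ∈ A) :
    ∏ i, max 1 (x i) ≤ (A.ncard : ℝ) := by
  classical
  let F : Finset (ι → ℤ) := Fintype.piFinset fun i => Finset.Icc (-⌊x i⌋) ⌊x i⌋
  have hcard : ∏ i, max 1 (x i) ≤ (F.card : ℝ) := by
    rw [Fintype.card_piFinset, Nat.cast_prod]
    refine Finset.prod_le_prod (fun i _ => le_trans zero_le_one (le_max_left _ _)) fun i _ => ?_
    rw [Int.card_Icc]
    have h0 : 0 ≤ ⌊x i⌋ := Int.floor_nonneg.2 (hx i)
    have h1 : ((⌊x i⌋ + 1 - -⌊x i⌋).toNat : ℝ) = 2 * (⌊x i⌋ : ℝ) + 1 := by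
      have h2 : ((⌊x i⌋ + 1 - -⌊x i⌋).toNat : ℤ) = 2 * ⌊x i⌋ + 1 := by
        rw [Int.toNat_of_nonneg (by linarith)]
        ring
      exact_mod_cast h2
    rw [h1]
    have h0' : (0 : ℝ) ≤ ⌊x i⌋ := by exact_mod_cast h0
    have h3 := Int.lt_floor_add_one (x i)
    exact max_le (by linarith) (by linarith)
  refine hcard.trans ?_
  have hle : F.card ≤ A.ncard := by
    rw [← Set.ncard_coe_finset]
    refine Set.ncard_le_ncard_of_injOn f ?_ hf.injOn hA
    intro t ht
    apply hm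
    intro i
    have h1 := Fintype.mem_piFinset.1 (Finset.mem_coe.1 ht) i
    rw [Finset.mem_Icc] at h1
    have h2 : |t i| ≤ ⌊x i⌋ := abs_le.2 ⟨h1.1, h1.2⟩
    have h3 : |((t i : ℤ) : ℝ)| ≤ (⌊x i⌋ : ℝ) := by exact_mod_cast h2
    exact h3.trans (Int.floor_le _)
  exact_mod_cast hle

/-- Combinations of an independent family are different. -/
private theorem cc_inj {M : Type} [AddCommGroup M] {ι : Type} [Fintype ι] {y : ι → M}
    (hy : LinearIndependent ℤ y) : Function.Injective fun t : ι → ℤ => ∑ i, t i • y i :=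
  by
  intro t t' h
  have h1 : ∑ i, (t i - t' i) • y i = 0 := by
    rw [← sub_eq_zero.2 h, ← Finset.sum_sub_distrib]
    exact Finset.sum_congr rfl fun i _ => sub_smul _ _ _
  funext i
  exact sub_eq_zero.1 (Fintype.linearIndependent_iff.1 hy _ h1 i)

/-- `∏ max 1 (1 / (N C lam_i)) ≤ #cell` -/
private theorem cc_basic {τ : k →+* ℂ} {α : ℂ} {n N : ℕ} (hN : 1 ≤ N) {R S C : ℝ} (hR : 0 ≤ R)
    (hS : 0 ≤ S) (hC : 1 ≤ C) {y : Fin N → Fin (n + 1) → 𝓞 k} {lam : Fin N → ℝ}
    (hlam : ∀ i, 0 < lam i) (hy : ∀ i, y i ∈ cell τ α n (C * lam i * R) (C * lam i * S))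
    (hli : LinearIndependent ℤ y) :
    ∏ i, max 1 (1 / (N * C * lam i)) ≤ ((cell τ α n R S).ncard : ℝ) := by
  have hN0 : (0 : ℝ) < N := by exact_mod_cast hN
  have hC0 : 0 < C := lt_of_lt_of_le one_pos hC
  refine cc_count (cell_finite τ α n R S) (fun i => ?_) _ (cc_inj hli) ?_
  · have := hlam i
    positivity
  · intro t ht
    have h := cc_comb (b := 1 / N) hR hS (x := fun i => C * lam i) hy (t := t) (fun i => by
      have h1 := ht i
      have h2 := hlam i
      calc |(t i : ℝ)| * (C * lam i) ≤ 1 / (N * C * lam i) * (C * lam i) :=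
            mul_le_mul_of_nonneg_right h1 (by positivity)
        _ = 1 / N := by field_simp)
    have h3 : (N : ℝ) * (1 / N) = 1 := by field_simp
    rwa [h3, one_mul, one_mul] at h

private theorem cc_dim (n : ℕ) : 1 ≤ (n + 1) * finrank ℚ k :=
  Nat.mul_pos (Nat.succ_pos n) finrank_pos

/-- The product of the `1 / (N C lam_i)`. -/
private theorem cc_prod {N : ℕ} (hN : 1 ≤ N) {C V : ℝ} (hC : 1 ≤ C) (hV : 0 < V)
    {lam : Fin N → ℝ} (hlam : ∀ i, 0 < lam i) (hprod : ∏ i, lam i ≤ C / V) :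
    V / ((N * C) ^ N * C) ≤ ∏ i, 1 / (N * C * lam i) := by
  have hN0 : (0 : ℝ) < N := by exact_mod_cast hN
  have hC0 : 0 < C := lt_of_lt_of_le one_pos hC
  have hP : 0 < ∏ i, lam i := Finset.prod_pos fun i _ => hlam i
  have h1 : ∏ i, 1 / (N * C * lam i) = 1 / ((N * C) ^ N * ∏ i, lam i) := by
    rw [Finset.prod_div_distrib, Finset.prod_const_one, Finset.prod_mul_distrib,
      Finset.prod_const, Finset.card_univ, Fintype.card_fin]
  rw [h1, div_le_div_iff₀ (by positivity) (by positivity), one_mul]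
  have h2 : V * ∏ i, lam i ≤ C := by
    rw [le_div_iff₀ hV] at hprod
    linarith
  calc V * ((N * C) ^ N * ∏ i, lam i) = (N * C) ^ N * (V * ∏ i, lam i) := by ring
    _ ≤ (N * C) ^ N * C := mul_le_mul_of_nonneg_left h2 (by positivity)

/-- The combinations `∑ t_i y_i` with `|t_i| ≤ 1 / (N C lam_i)` (`N = (n + 1) d`) are in the cell
and different; their number is at least `∏ 1 / (N C lam_i)` (the number of the integers `t` with
`|t| ≤ x` is at least `x`). -/
theorem card_cell_ge (τ : k →+* ℂ) (α : ℂ) (n : ℕ) (hn : 1 ≤ n) : ∃ c : ℝ, 0 < c ∧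
    ∀ R S : ℝ, 0 < S → S ≤ R →
      c * (R ^ ((n + 1) * finrank ℚ k - rk τ α) * S ^ rk τ α) ≤ ((cell τ α n R S).ncard : ℝ) := by
  obtain ⟨C, I, hC, -, H⟩ := exists_basis τ α n hn
  set N := (n + 1) * finrank ℚ k with hNdef
  have hN : 1 ≤ N := cc_dim n
  have hN0 : (0 : ℝ) < N := by exact_mod_cast hN
  have hC0 : 0 < C := lt_of_lt_of_le one_pos hC
  refine ⟨1 / ((N * C) ^ N * C), by positivity, ?_⟩
  intro R S hS hSR
  have hR : 0 < R := lt_of_lt_of_le hS hSR
  obtain ⟨y, lam, D, -, hlam, hy, hli, -, -, -, hprod⟩ := H R S hS hSR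
  have h1 := cc_basic hN hR.le hS.le hC hlam hy hli
  have h2 := cc_prod hN hC (V := R ^ (N - rk τ α) * S ^ rk τ α) (by positivity) hlam hprod
  have h3 : ∏ i, 1 / (N * C * lam i) ≤ ∏ i, max 1 (1 / (N * C * lam i)) :=
    Finset.prod_le_prod (fun i _ => by have := hlam i; positivity) fun i _ => le_max_right _ _
  calc _ = R ^ (N - rk τ α) * S ^ rk τ α / ((N * C) ^ N * C) := by ring
    _ ≤ _ := h2.trans (h3.trans h1)

/-- Let `y, lam, D` be as in `exists_basis` for `R, S`, and `N = (n + 1) d`. (1) The combinations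
`∑ t_i y_i` with `t = 0` for the last index and `|t_i| ≤ 1 / (N C lam_i)` for the others are in the
cell, so `∏ i < N - 1, 1 / (N C lam_i) ≤ #cell ≤ T R ^ (N - rk) S ^ rk`, and this product is at
least `c lam_N / ∏ lam_i ≥ c' lam_N R ^ (N - rk) S ^ rk`: `lam_N ≤ T / c'`. (2) For given `y₀` write
`D y₀ = ∑ t_i y_i`, choose integers `s_i` with `|t_i + D l s_i| ≤ D l`; then `z₀ = y₀ + l ∑ s_i y_i`
satisfies `D z₀ = ∑ (t_i + D l s_i) y_i`, so `z₀` is in the cell scaled by `N l C lam_N`. (3) Add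
`l ∑ a_i y_i` with `|a_i| ≤ max 1 lam_N / lam_i`: the number of these is at least `∏ 1 / lam_i` and
they are in the cell scaled by `l N C max 1 lam_N`. -/
theorem class_count (τ : k →+* ℂ) (α : ℂ) (n : ℕ) (hn : 1 ≤ n) (l : ℕ) (hl : 0 < l) :
    ∃ c C : ℝ, 0 < c ∧ 1 ≤ C ∧ ∀ (y₀ : Fin (n + 1) → 𝓞 k) (R S T : ℝ), 0 < S → S ≤ R → 1 ≤ T →
      ((cell τ α n R S).ncard : ℝ) ≤
        T * (R ^ ((n + 1) * finrank ℚ k - rk τ α) * S ^ rk τ α) →
      c * (R ^ ((n + 1) * finrank ℚ k - rk τ α) * S ^ rk τ α) ≤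
        ({y ∈ cell τ α n (C * T * R) (C * T * S) |
          ∀ i, ∃ z : 𝓞 k, y i = y₀ i + (l : 𝓞 k) * z}.ncard : ℝ) := by
  obtain ⟨C, I, hC, -, H⟩ := exists_basis τ α n hn
  set N := (n + 1) * finrank ℚ k with hNdef
  have hN : 1 ≤ N := cc_dim n
  have hN1 : (1 : ℝ) ≤ N := by exact_mod_cast hN
  have hN0 : (0 : ℝ) < N := by exact_mod_cast hN
  have hC0 : 0 < C := lt_of_lt_of_le one_pos hC
  have hl1 : (1 : ℝ) ≤ l := by exact_mod_cast hl
  have hl0 : (0 : ℝ) < l := by exact_mod_cast hl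
  have hNC : 1 ≤ N * C := one_le_mul_of_one_le_of_one_le hN1 hC
  have hpow : 1 ≤ (N * C) ^ N := one_le_pow₀ hNC
  refine ⟨1 / C, 2 * (N * l * C) * (C * (N * C) ^ N), by positivity, ?_, ?_⟩
  · have h1 : 1 ≤ N * l * C :=
      one_le_mul_of_one_le_of_one_le (one_le_mul_of_one_le_of_one_le hN1 hl1) hC
    have h2 : 1 ≤ C * (N * C) ^ N := one_le_mul_of_one_le_of_one_le hC hpow
    exact one_le_mul_of_one_le_of_one_le (by linarith) h2
  intro y₀ R S T hS hSR hT hcard
  have hR : 0 < R := lt_of_lt_of_le hS hSR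
  obtain ⟨y, lam, D, -, hlam, hy, hli, hD, -, hcoord, hprod⟩ := H R S hS hSR
  have hV : 0 < R ^ (N - rk τ α) * S ^ rk τ α := by positivity
  have h1 := cc_basic hN hR.le hS.le hC hlam hy hli
  have h2 := cc_prod hN hC hV hlam hprod
  set V := R ^ (N - rk τ α) * S ^ rk τ α with hVdef
  set M : ℝ := T * (C * (N * C) ^ N) with hM
  have hM1 : 1 ≤ M := one_le_mul_of_one_le_of_one_le hT (one_le_mul_of_one_le_of_one_le hC hpow)
  have hM0 : 0 < M := lt_of_lt_of_le one_pos hM1
  have hD0 : (0 : ℝ) < D := by exact_mod_cast hD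
  -- (1)
  have hlamM : ∀ j, lam j ≤ M := by
    intro j
    have hj := hlam j
    have h3 : ∏ i ∈ Finset.univ.erase j, 1 / (N * C * lam i) ≤
        ∏ i, max 1 (1 / (N * C * lam i)) := by
      rw [← Finset.mul_prod_erase Finset.univ _ (Finset.mem_univ j)]
      have h4 : ∏ i ∈ Finset.univ.erase j, 1 / (N * C * lam i) ≤
          ∏ i ∈ Finset.univ.erase j, max 1 (1 / (N * C * lam i)) :=
        Finset.prod_le_prod (fun i _ => by have := hlam i; positivity) fun i _ => le_max_right _ _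
      refine h4.trans ?_
      refine le_mul_of_one_le_left ?_ (le_max_left _ _)
      exact Finset.prod_nonneg fun i _ => le_trans zero_le_one (le_max_left _ _)
    have h5 : ∏ i ∈ Finset.univ.erase j, 1 / (N * C * lam i) ≤ T * V := h3.trans (h1.trans hcard)
    have h6 : V / ((N * C) ^ N * C) ≤ 1 / (N * C * lam j) * (T * V) := by
      refine h2.trans ?_
      rw [← Finset.mul_prod_erase Finset.univ _ (Finset.mem_univ j)]
      exact mul_le_mul_of_nonneg_left h5 (by positivity)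
    have h7 : N * C * lam j ≤ M := by
      rw [div_le_iff₀ (by positivity)] at h6
      have h8 : V * (N * C * lam j) ≤ V * M := by
        calc V * (N * C * lam j) ≤
              (1 / (N * C * lam j) * (T * V) * ((N * C) ^ N * C)) * (N * C * lam j) :=
              mul_le_mul_of_nonneg_right h6 (by positivity)
          _ = V * M := by rw [hM]; field_simp
      exact le_of_mul_le_mul_left h8 hV
    calc lam j = 1 * lam j := (one_mul _).symm
      _ ≤ N * C * lam j := mul_le_mul_of_nonneg_right hNC hj.le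
      _ ≤ M := h7
  -- (2)
  obtain ⟨t, ht, -⟩ := hcoord y₀
  let s : Fin N → ℤ := fun i => -(t i / ((D : ℤ) * l))
  have hDl : (0 : ℤ) < (D : ℤ) * l := by
    have h3 : (0 : ℤ) < D := by exact_mod_cast hD
    have h4 : (0 : ℤ) < l := by exact_mod_cast hl
    positivity
  let z₀ : Fin (n + 1) → 𝓞 k := y₀ + (l : ℤ) • ∑ i, s i • y i
  have hz₀ : z₀ ∈ cell τ α n (N * (l * (C * M)) * R) (N * (l * (C * M)) * S) := by
    apply cc_of_smul hD
    have h3 : (D : ℤ) • z₀ = ∑ i, (t i % ((D : ℤ) * l)) • y i := by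
      change (D : ℤ) • (y₀ + (l : ℤ) • ∑ i, s i • y i) = _
      rw [smul_add, ht, smul_smul, Finset.smul_sum, ← Finset.sum_add_distrib]
      refine Finset.sum_congr rfl fun i _ => ?_
      rw [smul_smul, ← add_smul]
      congr 1
      change t i + (D : ℤ) * l * -(t i / ((D : ℤ) * l)) = _
      rw [Int.emod_def]
      ring
    rw [h3]
    have h4 := cc_comb (b := D * (l * (C * M))) hR.le hS.le (x := fun i => C * lam i) hy
      (t := fun i => t i % ((D : ℤ) * l)) (fun i => by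
        have h5 : |(((t i % ((D : ℤ) * l) : ℤ)) : ℝ)| ≤ D * l := by
          have h6 := Int.emod_nonneg (t i) hDl.ne'
          have h7 := Int.emod_lt_of_pos (t i) hDl
          have h8 : |t i % ((D : ℤ) * l)| ≤ (D : ℤ) * l := by
            rw [abs_of_nonneg h6]
            exact h7.le
          exact_mod_cast h8
        calc |(((t i % ((D : ℤ) * l) : ℤ)) : ℝ)| * (C * lam i) ≤ D * l * (C * M) :=
              mul_le_mul h5 (mul_le_mul_of_nonneg_left (hlamM i) hC0.le)
                (by have := hlam i; positivity) (by positivity)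
          _ = D * (l * (C * M)) := by ring)
    refine cc_mono (le_of_eq ?_) (le_of_eq ?_) h4 <;> ring
  -- (3)
  have h3 := cc_count (ι := Fin N) (A := {y ∈ cell τ α n (2 * (N * l * C) * (C * (N * C) ^ N) * T * R)
      (2 * (N * l * C) * (C * (N * C) ^ N) * T * S) |
        ∀ i, ∃ z : 𝓞 k, y i = y₀ i + (l : 𝓞 k) * z})
    ((cell_finite τ α n _ _).subset fun y hy => hy.1) (x := fun i => M / lam i)
    (fun i => by have := hlam i; positivity)
    (fun a => z₀ + (l : ℤ) • ∑ i, a i • y i) (by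
      intro a a' ha
      have h4 := add_left_cancel ha
      have h5 : (l : ℤ) • (∑ i, a i • y i - ∑ i, a' i • y i) = 0 := by
        rw [smul_sub, sub_eq_zero]
        exact h4
      have hl' : (l : ℤ) ≠ 0 := by exact_mod_cast hl.ne'
      have h6 := (smul_eq_zero.1 h5).resolve_left hl'
      exact cc_inj hli (sub_eq_zero.1 h6)) (by
      intro a ha
      refine ⟨?_, ?_⟩
      · have h4 := cc_comb (b := C * M) hR.le hS.le (x := fun i => C * lam i) hy (t := a)
          (fun i => by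
            have h5 := hlam i
            calc |(a i : ℝ)| * (C * lam i) ≤ M / lam i * (C * lam i) :=
                  mul_le_mul_of_nonneg_right (ha i) (by positivity)
              _ = C * M := by field_simp)
        have h5 := cc_add hz₀ (cc_smul h4 (l : ℤ))
        have h6 : |(((l : ℤ)) : ℝ)| = l := by simp
        rw [h6] at h5
        refine cc_mono (le_of_eq ?_) (le_of_eq ?_) h5 <;> rw [hM] <;> ring
      · intro j
        refine ⟨(∑ i, s i • y i) j + (∑ i, a i • y i) j, ?_⟩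
        change y₀ j + (l : ℤ) • (∑ i, s i • y i) j + (l : ℤ) • (∑ i, a i • y i) j = _
        rw [zsmul_eq_mul, zsmul_eq_mul]
        push_cast
        ring)
  refine le_trans ?_ h3
  have h4 : ∏ i, 1 / lam i ≤ ∏ i, max 1 (M / lam i) := by
    refine Finset.prod_le_prod (fun i _ => by have := hlam i; positivity) fun i _ => ?_
    exact le_trans (div_le_div_of_nonneg_right hM1 (hlam i).le) (le_max_right _ _)
  refine le_trans ?_ h4
  have hP : 0 < ∏ i, lam i := Finset.prod_pos fun i _ => hlam i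
  rw [Finset.prod_div_distrib, Finset.prod_const_one, one_div_mul_eq_div,
    div_le_div_iff₀ hC0 hP, one_mul]
  rw [le_div_iff₀ hV] at hprod
  linarith

end Pool.Agent.AASL
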