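import Pool.Agent.AASL.Upper
import Pool.Agent.AASL.ClassCount
import Pool.Agent.AAL.Irr

/-!
# Many irreducible polynomials in the cell
-/

set_option autoImplicit false

open NumberField Module Polynomial Pool.Agent.SST Pool.Agent.AAS

namespace Pool.Agent.AASL

variable {k : Type} [Field k] [NumberField k] {r : ℕ} {p : Fin r → ℕ} [∀ t, Fact (p t).Prime]

omit [NumberField k] in
private theorem many_rk_le (τ : k →+* ℂ) (α : ℂ) : rk τ α ≤ 2 := by
  unfold rk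
  split_ifs <;> omega

omit [NumberField k] in
private theorem many_rk_pos (τ : k →+* ℂ) (α : ℂ) : 1 ≤ rk τ α := by
  unfold rk
  split_ifs <;> omega

omit [NumberField k] in
private theorem many_rk_eq (τ : k →+* ℂ) (α : ℂ) (h : starRingEnd ℂ α ≠ α) : rk τ α = 2 := by
  unfold rk
  rw [if_neg fun h' => h h'.2]

private theorem many_large (γ x : ℝ) (hγ : 0 < γ) : ∃ R₀ : ℝ, ∀ R : ℝ, R₀ ≤ R → x ≤ R ^ γ := by
  have h := (tendsto_rpow_atTop hγ).eventually_ge_atTop x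
  exact Filter.eventually_atTop.1 h

/-- `AAL.exists_irr k X` gives `l > 0` and `y₀` such that all `y` congruent to `y₀` modulo `l`
are as required. Let `κ = rk τ α`, `N = (n + 1) d`, `γ > 0` small, `R₁ = R ^ (1 - γ)`,
`S₁ = R ^ (1 - b - γ)` and `M₁ = d (1 - γ) (n + 1) - b κ = d (n - 1 - δ) - (n + 1) d γ`, so that
`R₁ ^ (N - κ) * S₁ ^ κ = R ^ M₁`. Then `#cell R₁ S₁ ≤ C' R ^ (M₁ + γ / 2)` by `upper_cell` with
`u = 1 - γ`, `v = 1 - b - γ`, `M = M₁` (`h2`: if `τ` is real and `α` is not then `κ = 2`,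
`b = (1 + δ / 2) d`, and `M₁ - (d u (n + 2) / 2 - b) = d (u n / 2 - 1 - δ / 2) ≥ 0` since `n ≥ 3`,
`δ < 1`, for small `γ`). Apply `class_count` with `T = max 1 (C' R ^ (γ / 2))`: one gets
`c R ^ M₁` elements of the class in `cell (C T R₁) (C T S₁)`, which is contained in
`cell R (R ^ (1 - b))` for large `R`. -/
theorem many_irr (hp : Function.Injective p) (n : ℕ) (hn2 : 2 ≤ n) (g : k[X])
    (hg : Irreducible g) (hn : n < g.natDegree) (τ : k →+* ℂ) (α : ℂ)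
    (hα : (g.map τ).eval α = 0) (hc : IsRl τ → starRingEnd ℂ α ≠ α → 3 ≤ n) (b δ : ℝ)
    (hδ : 0 < δ) (hδ1 : δ < 1) (hb : rk τ α * b = (2 + δ) * finrank ℚ k) (ε : ℝ) (hε : 0 < ε) :
    ∃ R₀ : ℝ, 1 ≤ R₀ ∧ ∀ R : ℝ, R₀ ≤ R → R ^ (finrank ℚ k * ((n : ℝ) - 1 - δ) - ε) ≤
      ({y ∈ cell τ α n R (R ^ (1 - b)) |
        Irreducible ((AAL.form X y).map (algebraMap (𝓞 k) k)) ∧ y (Fin.last n) ≠ 0}.ncard : ℝ) := by
  have hd : 0 < finrank ℚ k := finrank_pos
  have hd1 : (1 : ℝ) ≤ (finrank ℚ k : ℝ) := by exact_mod_cast hd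
  have hκ1 : 1 ≤ rk τ α := many_rk_pos τ α
  have hκ2 : rk τ α ≤ 2 := many_rk_le τ α
  have hκ1' : (1 : ℝ) ≤ (rk τ α : ℝ) := by exact_mod_cast hκ1
  have hN : rk τ α ≤ (n + 1) * finrank ℚ k := by nlinarith
  have hnr : (2 : ℝ) ≤ (n : ℝ) := by exact_mod_cast hn2
  have hb0 : 0 < b := by
    have h1 : 0 < (rk τ α : ℝ) * b := by rw [hb]; positivity
    exact (pos_iff_pos_of_mul_pos h1).1 (by linarith)
  obtain ⟨l, hl, y₀, hy₀⟩ := AAL.exists_irr k X X_ne_zero n (by rw [natDegree_X])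
    (by rw [natDegree_X]; omega)
  obtain ⟨c, C, hc0, hC1, hcc⟩ := class_count τ α n (by omega) l hl
  set d : ℝ := (finrank ℚ k : ℝ) with hdd
  obtain ⟨γ, hγ0, hγ1, hγ2⟩ : ∃ γ : ℝ, 0 < γ ∧ γ ≤ (1 - δ) / 3 ∧ d * ((n : ℝ) + 1) * γ ≤ ε / 2 := by
    have hpos : 0 < d * ((n : ℝ) + 1) := by positivity
    refine ⟨min ((1 - δ) / 3) (ε / 2 / (d * ((n : ℝ) + 1))), lt_min (by linarith) (by positivity),
      min_le_left _ _, ?_⟩
    calc d * ((n : ℝ) + 1) * min ((1 - δ) / 3) (ε / 2 / (d * ((n : ℝ) + 1)))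
        ≤ d * ((n : ℝ) + 1) * (ε / 2 / (d * ((n : ℝ) + 1))) :=
          mul_le_mul_of_nonneg_left (min_le_right _ _) hpos.le
      _ = ε / 2 := mul_div_cancel₀ _ hpos.ne'
  set M : ℝ := d * (1 - γ) * ((n : ℝ) + 1) - b * rk τ α with hM
  have hM' : M = d * ((n : ℝ) - 1 - δ) - d * ((n : ℝ) + 1) * γ := by
    rw [hM, mul_comm b, hb]
    ring
  have hM0 : 0 ≤ M := by
    have h1 : ((n : ℝ) + 1) * γ ≤ (n : ℝ) - 1 - δ := by
      have h2 : ((n : ℝ) + 1) * γ ≤ ((n : ℝ) + 1) * ((1 - δ) / 3) :=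
        mul_le_mul_of_nonneg_left hγ1 (by linarith)
      nlinarith
    have h3 : M = d * (((n : ℝ) - 1 - δ) - ((n : ℝ) + 1) * γ) := by rw [hM']; ring
    rw [h3]
    exact mul_nonneg (by linarith) (by linarith)
  obtain ⟨C', hC', hup⟩ := upper_cell hp n g hg hn τ α hα (1 - γ) (1 - b - γ) M (by linarith)
    (by linarith) hM0 (by rw [hM]; apply le_of_eq; ring) (fun hτ hαα => by
      have h3 : (3 : ℝ) ≤ (n : ℝ) := by exact_mod_cast hc hτ hαα
      have h2 : (rk τ α : ℝ) = 2 := by rw [many_rk_eq τ α hαα]; norm_num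
      have hb2 : b = (1 + δ / 2) * d := by
        rw [h2] at hb
        linarith
      have h4 : M - (d * (1 - γ) * ((n : ℝ) + 2) / 2 - b) =
          d * ((1 - γ) * n / 2 - 1 - δ / 2) := by
        rw [hM, h2, hb2]
        ring
      have h5 : 0 ≤ (1 - γ) * n / 2 - 1 - δ / 2 := by
        have h6 : (1 - γ) * 3 ≤ (1 - γ) * n := mul_le_mul_of_nonneg_left h3 (by linarith)
        linarith
      have h7 : 0 ≤ d * ((1 - γ) * n / 2 - 1 - δ / 2) := mul_nonneg (by linarith) h5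
      have h8 : 1 - γ - (1 - b - γ) = b := by ring
      rw [h8]
      linarith) (γ / 2) 1 (by positivity) one_pos
  obtain ⟨R₁, hR₁⟩ := many_large γ C hγ0
  obtain ⟨R₂, hR₂⟩ := many_large (γ / 2) (C * C') (by positivity)
  obtain ⟨R₃, hR₃⟩ := many_large (ε / 2) (1 / c) (by positivity)
  refine ⟨max 1 (max R₁ (max R₂ R₃)), le_max_left _ _, fun R hR => ?_⟩
  have hR1 : 1 ≤ R := (le_max_left _ _).trans hR
  have hRR := (le_max_right _ _).trans hR
  have e1 := hR₁ R ((le_max_left _ _).trans hRR)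
  have e2 := hR₂ R ((le_max_left _ _).trans ((le_max_right _ _).trans hRR))
  have e3 := hR₃ R ((le_max_right _ _).trans ((le_max_right _ _).trans hRR))
  have hR0 : 0 < R := by linarith
  have hpow : (R ^ (1 - γ)) ^ ((n + 1) * finrank ℚ k - rk τ α) *
      (R ^ (1 - b - γ)) ^ rk τ α = R ^ M := by
    rw [← Real.rpow_natCast, ← Real.rpow_natCast, ← Real.rpow_mul hR0.le, ← Real.rpow_mul hR0.le,
      ← Real.rpow_add hR0, Nat.cast_sub hN]
    congr 1
    push_cast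
    rw [hM]
    ring
  have hup' := hup R hR1
  rw [one_mul, one_mul] at hup'
  set T : ℝ := max 1 (C' * R ^ (γ / 2)) with hT
  have hT1 : 1 ≤ T := le_max_left _ _
  have hcc' := hcc y₀ (R ^ (1 - γ)) (R ^ (1 - b - γ)) T (Real.rpow_pos_of_pos hR0 _)
    (Real.rpow_le_rpow_of_exponent_le hR1 (by linarith)) hT1 (by
      rw [hpow]
      refine hup'.trans ?_
      rw [Real.rpow_add hR0, ← mul_assoc, mul_right_comm]
      exact mul_le_mul_of_nonneg_right (le_max_right _ _) (Real.rpow_nonneg hR0.le _))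
  rw [hpow] at hcc'
  -- the scaled cell
  have hCT : C * T ≤ R ^ γ := by
    rw [hT, mul_max_of_nonneg _ _ (by linarith), mul_one]
    refine max_le e1 ?_
    calc C * (C' * R ^ (γ / 2)) = C * C' * R ^ (γ / 2) := by ring
      _ ≤ R ^ (γ / 2) * R ^ (γ / 2) :=
          mul_le_mul_of_nonneg_right e2 (Real.rpow_nonneg hR0.le _)
      _ = R ^ γ := by rw [← Real.rpow_add hR0]; congr 1; ring
  have hsc1 : C * T * R ^ (1 - γ) ≤ R := by
    calc C * T * R ^ (1 - γ) ≤ R ^ γ * R ^ (1 - γ) :=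
          mul_le_mul_of_nonneg_right hCT (Real.rpow_nonneg hR0.le _)
      _ = R := by rw [← Real.rpow_add hR0, add_sub_cancel, Real.rpow_one]
  have hsc2 : C * T * R ^ (1 - b - γ) ≤ R ^ (1 - b) := by
    calc C * T * R ^ (1 - b - γ) ≤ R ^ γ * R ^ (1 - b - γ) :=
          mul_le_mul_of_nonneg_right hCT (Real.rpow_nonneg hR0.le _)
      _ = R ^ (1 - b) := by rw [← Real.rpow_add hR0]; congr 1; ring
  have hsub : {y ∈ cell τ α n (C * T * R ^ (1 - γ)) (C * T * R ^ (1 - b - γ)) |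
      ∀ i, ∃ z : 𝓞 k, y i = y₀ i + (l : 𝓞 k) * z} ⊆
      {y ∈ cell τ α n R (R ^ (1 - b)) |
        Irreducible ((AAL.form X y).map (algebraMap (𝓞 k) k)) ∧ y (Fin.last n) ≠ 0} := by
    rintro y ⟨⟨h1, h2⟩, h3⟩
    have h4 := hy₀ y h3
    exact ⟨⟨fun i ρ => (h1 i ρ).trans hsc1, h2.trans hsc2⟩, h4.1, h4.2.2⟩
  have hfin : {y ∈ cell τ α n R (R ^ (1 - b)) |
      Irreducible ((AAL.form X y).map (algebraMap (𝓞 k) k)) ∧ y (Fin.last n) ≠ 0}.Finite :=
    (cell_finite τ α n R (R ^ (1 - b))).subset fun y hy => hy.1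
  have hcard := Set.ncard_le_ncard hsub hfin
  have hcard' := hcc'.trans (Nat.cast_le.2 hcard)
  refine le_trans ?_ hcard'
  have h9 : R ^ (d * ((n : ℝ) - 1 - δ) - ε) ≤ R ^ (M - ε / 2) :=
    Real.rpow_le_rpow_of_exponent_le hR1 (by rw [hM']; linarith)
  refine h9.trans ?_
  have h10 : R ^ M = R ^ (M - ε / 2) * R ^ (ε / 2) := by
    rw [← Real.rpow_add hR0]; congr 1; ring
  rw [h10]
  have h11 : 1 ≤ c * R ^ (ε / 2) := by
    have := mul_le_mul_of_nonneg_left e3 hc0.le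
    rwa [mul_one_div_cancel hc0.ne'] at this
  calc R ^ (M - ε / 2) = 1 * R ^ (M - ε / 2) := (one_mul _).symm
    _ ≤ c * R ^ (ε / 2) * R ^ (M - ε / 2) :=
        mul_le_mul_of_nonneg_right h11 (Real.rpow_nonneg hR0.le _)
    _ = c * (R ^ (M - ε / 2) * R ^ (ε / 2)) := by ring

end Pool.Agent.AASL
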