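import Pool.Agent.AASL.Defs
import Pool.Agent.AAL.LocalF
import Pool.Agent.AAL.Arch

/-!
# The archimedean part of the proximity function for a polynomial with a small value
-/

set_option autoImplicit false

open NumberField Module Polynomial IntermediateField Pool.Agent.AAL

namespace Pool.Agent.AASL

private theorem ArchR_sum {A : Type} [Semiring A] {n : ℕ} (F : A[X]) (hF : F.natDegree = n) :
    ∑ i : Fin (n + 1), C (F.coeff i) * X ^ (i : ℕ) = F := by
  rw [Fin.sum_univ_eq_sum_range (fun i => C (F.coeff i) * X ^ i) (n + 1)]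
  conv_rhs => rw [F.as_sum_range_C_mul_X_pow, hF]

private theorem ArchR_lead {k : Type} [Field k] [NumberField k] (F : (𝓞 k)[X])
    (hF0 : F ≠ 0) (ρ : k →+* ℂ) : ρ (F.leadingCoeff : k) ≠ 0 := by
  rw [Ne, map_eq_zero]
  intro h3
  exact hF0 (leadingCoeff_eq_zero.1 (RingOfIntegers.coe_injective (by simpa using h3)))

private theorem ArchR_key {k : Type} [Field k] [NumberField k] (n : ℕ) (F : (𝓞 k)[X])
    (x : AlgebraicClosure k) (hx : finrank k (IntermediateField.adjoin k {x}) = n)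
    (hF : F.natDegree = n) (hF0 : F ≠ 0) (hFx : aeval x (F.map (algebraMap (𝓞 k) k)) = 0) :
    ∃ e : (ρ : k →+* ℂ) →
      (Fin n ≃ {σ : IntermediateField.adjoin k {x} →+* ℂ // σ.comp (algebraMap k _) = ρ}),
      lgM ℂ F x = ∑ ρ : k →+* ℂ, Real.log (‖ρ (F.leadingCoeff : k)‖ *
        ∏ l, max 1 ‖(e ρ l).1 (AdjoinSimple.gen k x)‖) ∧
      ∀ ρ : k →+* ℂ, ∑ i : Fin (n + 1), C (ρ (F.coeff i : k)) * X ^ (i : ℕ) =
        C (ρ (F.leadingCoeff : k)) * ∏ l, (X - C ((e ρ l).1 (AdjoinSimple.gen k x))) := by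
  have hFn : (fun i : Fin (n + 1) => F.coeff i) ≠ 0 := by
    intro h
    have h1 := congrFun h (Fin.last n)
    simp only [Fin.val_last, Pi.zero_apply] at h1
    rw [← hF, coeff_natDegree, leadingCoeff_eq_zero] at h1
    exact hF0 h1
  have hroot : RefW.RootOf (fun i : Fin (n + 1) => F.coeff i) (IntermediateField.adjoin k {x})
      (AdjoinSimple.gen k x) := by
    refine ⟨?_, hx, ?_⟩
    · apply IntermediateField.lift_injective
      rw [IntermediateField.lift_adjoin_simple, IntermediateField.lift_top,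
        AdjoinSimple.coe_gen]
    · apply (algebraMap (IntermediateField.adjoin k {x}) (AlgebraicClosure k)).injective
      rw [map_zero, map_sum]
      have h1 := hFx
      rw [← ArchR_sum (F.map (algebraMap (𝓞 k) k)) (n := n)
        ((natDegree_map_eq_of_injective (FaithfulSMul.algebraMap_injective (𝓞 k) k) F).trans hF),
        map_sum] at h1
      rw [← h1]
      refine Finset.sum_congr rfl fun i _ => ?_
      rw [map_mul, map_pow, map_mul, map_pow, aeval_C, aeval_X, coeff_map]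
      rfl
  choose e he using fun ρ : k →+* ℂ => RefW.exists_fibre_equiv hFn hroot ρ
  have hlast : F.coeff ((Fin.last n : Fin (n + 1)) : ℕ) = F.leadingCoeff := by
    rw [Fin.val_last, ← hF, coeff_natDegree]
  refine ⟨e, ?_, ?_⟩
  · unfold lgM
    have h1 : ∑ σ : IntermediateField.adjoin k {x} →+* ℂ,
        Real.log (max 1 ‖σ (AdjoinSimple.gen k x)‖) =
        ∑ ρ : k →+* ℂ, ∑ l : Fin n, Real.log (max 1 ‖(e ρ l).1 (AdjoinSimple.gen k x)‖) := by
      classical
      rw [← Finset.sum_fiberwise Finset.univ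
        (fun σ : IntermediateField.adjoin k {x} →+* ℂ => σ.comp (algebraMap k _))]
      refine Finset.sum_congr rfl fun ρ _ => ?_
      rw [(e ρ).sum_comp (fun s => Real.log (max 1 ‖s.1 (AdjoinSimple.gen k x)‖))]
      refine Finset.sum_subtype _ (fun σ => ?_) _
      rw [Finset.mem_filter]
      exact ⟨fun h => h.2, fun h => ⟨Finset.mem_univ _, h⟩⟩
    rw [h1, ← Finset.sum_add_distrib]
    refine Finset.sum_congr rfl fun ρ _ => ?_
    rw [Real.log_mul (norm_ne_zero_iff.2 (ArchR_lead F hF0 ρ))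
      (Finset.prod_ne_zero_iff.2 fun l _ => (lt_of_lt_of_le one_pos (le_max_left _ _)).ne'),
      Real.log_prod (fun l _ => (lt_of_lt_of_le one_pos (le_max_left _ _)).ne')]
  · intro ρ
    have h1 := he ρ
    simp only [hlast] at h1
    exact h1

/-- the value of a product of linear factors -/
private theorem ArchR_value {n : ℕ} (a β : ℂ) (y : Fin n → ℂ) :
    ‖a * ∏ l, (β - y l)‖ ≤ (1 + ‖β‖) ^ n * (‖a‖ * ∏ l, max 1 ‖y l‖) := by
  rw [norm_mul, norm_prod]
  have h1 : ∏ l, ‖β - y l‖ ≤ ∏ l, ((1 + ‖β‖) * max 1 ‖y l‖) := by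
    refine Finset.prod_le_prod (fun l _ => norm_nonneg _) fun l _ => ?_
    refine (norm_sub_le _ _).trans ?_
    have h2 : (1 : ℝ) ≤ max 1 ‖y l‖ := le_max_left _ _
    have h3 : ‖y l‖ ≤ max 1 ‖y l‖ := le_max_right _ _
    have h4 := norm_nonneg β
    nlinarith
  rw [Finset.prod_mul_distrib, Finset.prod_const, Finset.card_univ, Fintype.card_fin] at h1
  calc ‖a‖ * ∏ l, ‖β - y l‖ ≤ ‖a‖ * ((1 + ‖β‖) ^ n * ∏ l, max 1 ‖y l‖) :=
        mul_le_mul_of_nonneg_left h1 (norm_nonneg _)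
    _ = _ := by ring

/-- the special zeros -/
private noncomputable def spc {k : Type} [Field k] (τ : k →+* ℂ) (α : ℂ) (ρ : k →+* ℂ) :
    Finset ℂ :=
  open Classical in
  (if ρ = τ then {α} else ∅) ∪
    (if ρ = ComplexEmbedding.conjugate τ then {starRingEnd ℂ α} else ∅)

private theorem isRl_iff {k : Type} [Field k] [NumberField k] (τ : k →+* ℂ) :
    IsRl τ ↔ ComplexEmbedding.conjugate τ = τ := by
  constructor
  · intro h
    ext x
    rw [ComplexEmbedding.conjugate_coe_eq]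
    exact h x
  · intro h x
    have h1 := RingHom.congr_fun h x
    rwa [ComplexEmbedding.conjugate_coe_eq] at h1

private theorem sum_spc {k : Type} [Field k] [NumberField k] (τ : k →+* ℂ) (α : ℂ) :
    ∑ ρ : k →+* ℂ, (spc τ α ρ).card = rk τ α := by
  classical
  by_cases h1 : ComplexEmbedding.conjugate τ = τ
  · have h2 : ∀ ρ : k →+* ℂ, (spc τ α ρ).card = if ρ = τ then rk τ α else 0 := by
      intro ρ
      unfold spc rk
      rw [h1]
      split_ifs with h3 h4
      · rw [h4.2, Finset.union_self, Finset.card_singleton]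
      · have h5 : starRingEnd ℂ α ≠ α := fun h => h4 ⟨(isRl_iff τ).2 h1, h⟩
        rw [Finset.singleton_union, Finset.card_insert_of_notMem
          (by rw [Finset.mem_singleton]; exact h5.symm), Finset.card_singleton]
      · simp
    rw [Finset.sum_congr rfl fun ρ _ => h2 ρ, Finset.sum_ite_eq' Finset.univ τ,
      if_pos (Finset.mem_univ _)]
  · have h2 : ∀ ρ : k →+* ℂ, (spc τ α ρ).card = (if ρ = τ then 1 else 0) +
        if ρ = ComplexEmbedding.conjugate τ then 1 else 0 := by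
      intro ρ
      unfold spc
      split_ifs with h3 h4
      · exact absurd (h4.symm.trans h3) h1
      · simp
      · simp
      · simp
    rw [Finset.sum_congr rfl fun ρ _ => h2 ρ, Finset.sum_add_distrib,
      Finset.sum_ite_eq' Finset.univ τ, Finset.sum_ite_eq' Finset.univ, if_pos (Finset.mem_univ _),
      if_pos (Finset.mem_univ _)]
    unfold rk
    rw [if_neg (fun h => h1 ((isRl_iff τ).1 h.1))]

private theorem card_spc {k : Type} [Field k] [NumberField k] (τ : k →+* ℂ) (α : ℂ)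
    (ρ : k →+* ℂ) : (spc τ α ρ).card ≤ 2 := by
  classical
  unfold spc
  refine (Finset.card_union_le _ _).trans ?_
  have h1 : ∀ (q : Prop) [Decidable q] (z : ℂ), (if q then ({z} : Finset ℂ) else ∅).card ≤ 1 := by
    intro q _ z
    split_ifs <;> simp
  exact add_le_add (h1 _ _) (h1 _ _)

/-- the estimate for one embedding -/
private theorem one_emb {m : Multiset ℂ} (hm : m.Nodup) (n : ℕ) (W : Finset ℂ)
    (hW : ∀ β ∈ W, β ∈ m) (f : ℂ → ℂ) (hf : ∀ β ∈ m, f β ≠ 0) (M S : ℝ) (hM : 0 < M)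
    (h1 : ∀ β ∈ m, ‖f β‖ ≤ (1 + ‖β‖) ^ n * M) (h2 : ∀ β ∈ W, ‖f β‖ ≤ S) :
    Real.log ‖(m.map f).prod‖ ≤ (Multiset.card m - W.card : ℝ) * Real.log M +
      W.card * Real.log S + n * ∑ β ∈ m.toFinset, Real.log (1 + ‖β‖) := by
  classical
  have e1 : (m.map f).prod = ∏ β ∈ m.toFinset, f β := by
    rw [Finset.prod_multiset_map_count]
    refine Finset.prod_congr rfl fun β hβ => ?_
    rw [Multiset.count_eq_one_of_mem hm (Multiset.mem_toFinset.1 hβ), pow_one]
  have hWm : W ⊆ m.toFinset := fun β hβ => Multiset.mem_toFinset.2 (hW β hβ)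
  have e2 : (Multiset.card m : ℝ) = (m.toFinset.card : ℝ) := by
    rw [Multiset.toFinset_card_of_nodup hm]
  have hl : ∀ β : ℂ, 0 ≤ Real.log (1 + ‖β‖) := fun β =>
    Real.log_nonneg (by have := norm_nonneg β; linarith)
  rw [e1, norm_prod, Real.log_prod (fun β hβ => norm_ne_zero_iff.2
    (hf β (Multiset.mem_toFinset.1 hβ))), ← Finset.sum_sdiff hWm, e2]
  have h3 : ∑ β ∈ m.toFinset \ W, Real.log ‖f β‖ ≤
      ∑ β ∈ m.toFinset \ W, (n * Real.log (1 + ‖β‖) + Real.log M) := by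
    refine Finset.sum_le_sum fun β hβ => ?_
    have hβ1 := Multiset.mem_toFinset.1 (Finset.mem_sdiff.1 hβ).1
    have h4 : 0 < 1 + ‖β‖ := by have := norm_nonneg β; linarith
    rw [← Real.log_pow, ← Real.log_mul (pow_pos h4 n).ne' hM.ne']
    exact Real.log_le_log (norm_pos_iff.2 (hf β hβ1)) (h1 β hβ1)
  have h5 : ∑ β ∈ W, Real.log ‖f β‖ ≤ ∑ β ∈ W, (n * Real.log (1 + ‖β‖) + Real.log S) := by
    refine Finset.sum_le_sum fun β hβ => ?_
    have h6 : Real.log ‖f β‖ ≤ Real.log S :=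
      Real.log_le_log (norm_pos_iff.2 (hf β (hW β hβ))) (h2 β hβ)
    have h7 : 0 ≤ (n : ℝ) * Real.log (1 + ‖β‖) := mul_nonneg (Nat.cast_nonneg _) (hl β)
    linarith
  have h8 : (m.toFinset \ W).card = m.toFinset.card - W.card := Finset.card_sdiff_of_subset hWm
  have h9 := Finset.card_le_card hWm
  have h10 : ((m.toFinset \ W).card : ℝ) = (m.toFinset.card : ℝ) - W.card := by
    rw [h8, Nat.cast_sub h9]
  have h11 : ∑ β ∈ m.toFinset \ W, (n * Real.log (1 + ‖β‖) + Real.log M) +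
      ∑ β ∈ W, (n * Real.log (1 + ‖β‖) + Real.log S) =
      (m.toFinset.card - W.card : ℝ) * Real.log M + W.card * Real.log S +
        n * ∑ β ∈ m.toFinset, Real.log (1 + ‖β‖) := by
    rw [Finset.sum_add_distrib, Finset.sum_add_distrib, Finset.sum_const, Finset.sum_const,
      nsmul_eq_mul, nsmul_eq_mul, h10, ← Finset.sum_sdiff hWm (f := fun β => Real.log (1 + ‖β‖)),
      mul_add, Finset.mul_sum, Finset.mul_sum]
    ring
  linarith

/-- Notation as in `lgR_le_lgM`: `M ρ = ‖ρ (lead F)‖ ∏ max 1 ‖σ x‖`, `lgM ℂ F x = ∑ log (M ρ)` (see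
the proof of `Pool.Agent.AAL.local_formula`), `‖F ^ ρ (β)‖ ≤ (1 + ‖β‖) ^ n M ρ` and
`M ρ ≤ (n + 1) R` (see `Pool.Agent.AAL.lgM_le`). Special pairs `(ρ, β)`, `β` a zero of `g ^ ρ`:
`(τ, α)` and `(τ', conj α)`, where `τ'` is the conjugate of `τ`; they are equal if and only if
`rk τ α = 1`, so there are `rk τ α` special pairs, and `‖F ^ ρ (β)‖ ≤ S` for them. Therefore
`lgR ≤ ∑ over all pairs ... ≤ q lgM - ∑ over special pairs (log (M ρ) - log S) + C` (`g ^ ρ` has no
multiple zeros). Finally `Λ * lgM - ∑ over special pairs log (M ρ)` is a combination of the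
`log (M ρ)` with coefficients `Λ - (the number of the special pairs over ρ) ≥ 0`, the sum of the
coefficients is `Λ d - rk τ α`, so it is at most `(Λ d - rk τ α) log ((n + 1) R)`. -/
theorem arch_special {k : Type} [Field k] [NumberField k] (g : k[X]) (hg : Squarefree g) (q : ℕ)
    (hq : q = g.natDegree ∨ q = g.natDegree + 1) (n : ℕ) (τ : k →+* ℂ) (α : ℂ)
    (hα : (g.map τ).eval α = 0) (Λ : ℝ) (hΛ : 2 ≤ Λ) :
    ∃ C : ℝ, ∀ (F : (𝓞 k)[X]) (x : AlgebraicClosure k) (R S : ℝ),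
      finrank k (IntermediateField.adjoin k {x}) = n → F.natDegree = n → F ≠ 0 →
      aeval x (F.map (algebraMap (𝓞 k) k)) = 0 → aeval x g ≠ 0 → 0 < R → 0 < S →
      (∀ (i : ℕ) (ρ : k →+* ℂ), ‖ρ (F.coeff i : k)‖ ≤ R) →
      ‖(F.map (τ.comp (algebraMap (𝓞 k) k))).eval α‖ ≤ S →
      Λ * lgM ℂ F x ≤ q * lgM ℂ F x - lgR ℂ g q F + rk τ α * Real.log S +
        (Λ * finrank ℚ k - rk τ α) * Real.log R + C := by
  classical
  have hg0 : g ≠ 0 := hg.ne_zero
  set D : ℝ := ∑ ρ : k →+* ℂ, (n : ℝ) * ∑ β ∈ (g.map ρ).roots.toFinset, Real.log (1 + ‖β‖)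
    with hD
  refine ⟨D + (Λ * finrank ℚ k - rk τ α) * Real.log (n + 1), ?_⟩
  intro F x R S hx hF hF0 hFx hgx hR hS hsize hval
  obtain ⟨e, he, hp⟩ := ArchR_key n F x hx hF hF0 hFx
  set z := AdjoinSimple.gen k x with hz
  have hgz : aeval z g ≠ 0 := by
    intro h0
    apply hgx
    have h1 := AdjoinSimple.coe_aeval_gen_apply (F := k) (α := x) g
    rw [← hz, h0] at h1
    exact h1.symm
  set M : (k →+* ℂ) → ℝ := fun ρ => ‖ρ (F.leadingCoeff : k)‖ * ∏ l, max 1 ‖(e ρ l).1 z‖ with hMdef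
  have hMpos : ∀ ρ, 0 < M ρ := fun ρ => mul_pos (norm_pos_iff.2 (ArchR_lead F hF0 ρ))
    (Finset.prod_pos fun l _ => lt_of_lt_of_le one_pos (le_max_left _ _))
  have hlgM : lgM ℂ F x = ∑ ρ, Real.log (M ρ) := he
  have hMle : ∀ ρ, M ρ ≤ (n + 1) * R := by
    intro ρ
    refine (RefW.mahler_le _ _ _ (hp ρ)).1.trans ?_
    refine mul_le_mul_of_nonneg_left ?_ (by positivity)
    rw [pi_norm_le_iff_of_nonneg hR.le]
    intro i
    exact hsize i ρ
  have hlead : ∀ ρ, ‖ρ (F.leadingCoeff : k)‖ ≤ M ρ := by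
    intro ρ
    have h1 : (1 : ℝ) ≤ ∏ l, max 1 ‖(e ρ l).1 z‖ := by
      calc (1 : ℝ) = ∏ _l : Fin n, (1 : ℝ) := by simp
        _ ≤ _ := Finset.prod_le_prod (fun _ _ => zero_le_one) fun l _ => le_max_left _ _
    calc ‖ρ (F.leadingCoeff : k)‖ = ‖ρ (F.leadingCoeff : k)‖ * 1 := (mul_one _).symm
      _ ≤ M ρ := mul_le_mul_of_nonneg_left h1 (norm_nonneg _)
  -- the values of `F`
  have hmap : ∀ ρ : k →+* ℂ, F.map (ρ.comp (algebraMap (𝓞 k) k)) =
      C (ρ (F.leadingCoeff : k)) * ∏ l, (X - C ((e ρ l).1 z)) := by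
    intro ρ
    rw [← hp ρ]
    have h1 : (F.map (ρ.comp (algebraMap (𝓞 k) k))).natDegree = n := by
      rw [natDegree_map_eq_of_injective, hF]
      exact (ρ.injective.comp RingOfIntegers.coe_injective)
    rw [← ArchR_sum _ h1]
    refine Finset.sum_congr rfl fun i _ => ?_
    rw [coeff_map]
    rfl
  have heval : ∀ (ρ : k →+* ℂ) (β : ℂ), (F.map (ρ.comp (algebraMap (𝓞 k) k))).eval β =
      ρ (F.leadingCoeff : k) * ∏ l, (β - (e ρ l).1 z) := by
    intro ρ β
    rw [hmap ρ, eval_mul, eval_C, eval_prod]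
    simp
  have hne : ∀ (ρ : k →+* ℂ), ∀ β ∈ (g.map ρ).roots,
      (F.map (ρ.comp (algebraMap (𝓞 k) k))).eval β ≠ 0 := by
    intro ρ β hβ h0
    rw [heval, mul_eq_zero] at h0
    rcases h0 with h0 | h0
    · exact ArchR_lead F hF0 ρ h0
    · obtain ⟨l, -, hl⟩ := Finset.prod_eq_zero_iff.1 h0
      rw [sub_eq_zero] at hl
      have h1 : (g.map ρ).eval β = 0 := (mem_roots'.1 hβ).2
      have h2 : (e ρ l).1 (aeval z g) = (g.map ρ).eval β := by
        rw [hl, aeval_def, hom_eval₂, eval_map, (e ρ l).2]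
      rw [h1, map_eq_zero] at h2
      exact hgz h2
  have hcard : ∀ ρ : k →+* ℂ, Multiset.card (g.map ρ).roots = g.natDegree := by
    intro ρ
    rw [← (IsAlgClosed.splits (g.map ρ)).natDegree_eq_card_roots, natDegree_map]
  have hnodup : ∀ ρ : k →+* ℂ, (g.map ρ).roots.Nodup := by
    intro ρ
    have h1 : g.Separable := PerfectField.separable_iff_squarefree.2 hg
    exact nodup_roots (h1.map)
  -- the special zeros
  have hspc1 : ∀ (ρ : k →+* ℂ), ∀ β ∈ spc τ α ρ, β ∈ (g.map ρ).roots ∧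
      ‖(F.map (ρ.comp (algebraMap (𝓞 k) k))).eval β‖ ≤ S := by
    intro ρ β hβ
    have hroot : ∀ (P : k[X]) (w : ℂ), (P.map (ComplexEmbedding.conjugate τ)).eval
        (starRingEnd ℂ w) = starRingEnd ℂ ((P.map τ).eval w) := by
      intro P w
      rw [eval_map, eval_map, hom_eval₂]
      rfl
    unfold spc at hβ
    rw [Finset.mem_union] at hβ
    rcases hβ with hβ | hβ
    · split_ifs at hβ with h1
      · rw [Finset.mem_singleton] at hβ
        subst h1 hβ
        exact ⟨(mem_roots (map_ne_zero hg0)).2 hα, hval⟩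
      · exact absurd hβ (Finset.notMem_empty _)
    · split_ifs at hβ with h1
      · rw [Finset.mem_singleton] at hβ
        subst h1 hβ
        refine ⟨(mem_roots (map_ne_zero hg0)).2 ?_, ?_⟩
        · show (g.map _).eval _ = 0
          rw [hroot, hα, map_zero]
        · have h2 : (F.map ((ComplexEmbedding.conjugate τ).comp (algebraMap (𝓞 k) k))).eval
              (starRingEnd ℂ α) =
              starRingEnd ℂ ((F.map (τ.comp (algebraMap (𝓞 k) k))).eval α) := by
            rw [← Polynomial.map_map, hroot, Polynomial.map_map]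
          rw [h2, RCLike.norm_conj]
          exact hval
      · exact absurd hβ (Finset.notMem_empty _)
  -- one embedding
  have hone : ∀ ρ : k →+* ℂ, Real.log (‖ρ (F.leadingCoeff : k)‖ ^ (q - g.natDegree) *
      ‖((g.map ρ).roots.map fun β =>
        (F.map (ρ.comp (algebraMap (𝓞 k) k))).eval β).prod‖) ≤
      (q - (spc τ α ρ).card : ℝ) * Real.log (M ρ) + (spc τ α ρ).card * Real.log S +
        n * ∑ β ∈ (g.map ρ).roots.toFinset, Real.log (1 + ‖β‖) := by
    intro ρ
    have h1 := one_emb (hnodup ρ) n (spc τ α ρ) (fun β hβ => (hspc1 ρ β hβ).1)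
      (fun β => (F.map (ρ.comp (algebraMap (𝓞 k) k))).eval β) (hne ρ) (M ρ) S (hMpos ρ)
      (fun β _ => by rw [heval]; exact ArchR_value _ _ _) (fun β hβ => (hspc1 ρ β hβ).2)
    have h2 : ((g.map ρ).roots.map fun β =>
        (F.map (ρ.comp (algebraMap (𝓞 k) k))).eval β).prod ≠ 0 := by
      intro h0
      rw [Multiset.prod_eq_zero_iff, Multiset.mem_map] at h0
      obtain ⟨β, hβ, h3⟩ := h0
      exact hne ρ β hβ h3
    rw [Real.log_mul (pow_ne_zero _ (norm_ne_zero_iff.2 (ArchR_lead F hF0 ρ)))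
      (norm_ne_zero_iff.2 h2), Real.log_pow]
    have h4 : Real.log ‖ρ (F.leadingCoeff : k)‖ ≤ Real.log (M ρ) :=
      Real.log_le_log (norm_pos_iff.2 (ArchR_lead F hF0 ρ)) (hlead ρ)
    have h5 : ((q - g.natDegree : ℕ) : ℝ) * Real.log ‖ρ (F.leadingCoeff : k)‖ ≤
        ((q - g.natDegree : ℕ) : ℝ) * Real.log (M ρ) :=
      mul_le_mul_of_nonneg_left h4 (Nat.cast_nonneg _)
    have h6 : ((q - g.natDegree : ℕ) : ℝ) = (q : ℝ) - g.natDegree := by
      rw [Nat.cast_sub (by omega)]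
    rw [hcard ρ] at h1
    rw [h6] at h5 ⊢
    nlinarith
  have hlgR : lgR ℂ g q F ≤ ∑ ρ : k →+* ℂ, ((q - (spc τ α ρ).card : ℝ) * Real.log (M ρ) +
      (spc τ α ρ).card * Real.log S +
        n * ∑ β ∈ (g.map ρ).roots.toFinset, Real.log (1 + ‖β‖)) :=
    Finset.sum_le_sum fun ρ _ => hone ρ
  rw [Finset.sum_add_distrib, Finset.sum_add_distrib, ← hD, ← Finset.sum_mul] at hlgR
  have hsum : ∑ ρ : k →+* ℂ, ((spc τ α ρ).card : ℝ) = rk τ α := by
    rw [← sum_spc τ α]
    push_cast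
    rfl
  rw [hsum] at hlgR
  -- the combination of the logarithms
  have hcomb : ∑ ρ : k →+* ℂ, (Λ - (spc τ α ρ).card : ℝ) * Real.log (M ρ) ≤
      (Λ * finrank ℚ k - rk τ α) * (Real.log (n + 1) + Real.log R) := by
    have h1 : ∀ ρ : k →+* ℂ, (Λ - (spc τ α ρ).card : ℝ) * Real.log (M ρ) ≤
        (Λ - (spc τ α ρ).card : ℝ) * (Real.log (n + 1) + Real.log R) := by
      intro ρ
      have h2 : ((spc τ α ρ).card : ℝ) ≤ 2 := by exact_mod_cast card_spc τ α ρ
      refine mul_le_mul_of_nonneg_left ?_ (by linarith)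
      rw [← Real.log_mul (by positivity) hR.ne']
      exact Real.log_le_log (hMpos ρ) (hMle ρ)
    refine (Finset.sum_le_sum fun ρ _ => h1 ρ).trans (le_of_eq ?_)
    rw [← Finset.sum_mul, Finset.sum_sub_distrib, hsum, Finset.sum_const, Finset.card_univ,
      NumberField.Embeddings.card k ℂ, nsmul_eq_mul]
    ring
  have e1 : ∑ ρ : k →+* ℂ, (Λ - (spc τ α ρ).card : ℝ) * Real.log (M ρ) =
      Λ * (∑ ρ : k →+* ℂ, Real.log (M ρ)) -
        ∑ ρ : k →+* ℂ, ((spc τ α ρ).card : ℝ) * Real.log (M ρ) := by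
    rw [Finset.mul_sum, ← Finset.sum_sub_distrib]
    exact Finset.sum_congr rfl fun ρ _ => by ring
  have e2 : ∑ ρ : k →+* ℂ, (q - (spc τ α ρ).card : ℝ) * Real.log (M ρ) =
      q * (∑ ρ : k →+* ℂ, Real.log (M ρ)) -
        ∑ ρ : k →+* ℂ, ((spc τ α ρ).card : ℝ) * Real.log (M ρ) := by
    rw [Finset.mul_sum, ← Finset.sum_sub_distrib]
    exact Finset.sum_congr rfl fun ρ _ => by ring
  rw [e2] at hlgR
  rw [e1] at hcomb
  rw [hlgM]
  linarith

end Pool.Agent.AASL
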