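import Pool.Agent.AASL.LocalR
import Pool.Agent.AASL.ArchR
import Pool.Agent.AAL.HtUp
import Pool.Agent.AAL.RootL

/-!
# The proximity function for a polynomial in the cell
-/

set_option autoImplicit false

open NumberField Module Polynomial IntermediateField Pool.Agent.AAL

namespace Pool.Agent.AASL

private theorem px_form {k : Type} [Field k] [NumberField k] {n : ℕ} (y : Fin (n + 1) → 𝓞 k) :
    form X y = ∑ i : Fin (n + 1), C (y i) * X ^ (i : ℕ) := by
  unfold form
  refine Finset.sum_congr rfl fun i _ => ?_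
  rw [natDegree_X]
  split_ifs with h
  · rfl
  · have h1 : (i : ℕ) = (i : ℕ) - 1 + 1 := by omega
    conv_rhs => rw [h1, pow_succ']

private theorem px_coeff {k : Type} [Field k] [NumberField k] {n : ℕ} (y : Fin (n + 1) → 𝓞 k)
    (j : ℕ) : (form X y).coeff j = if h : j < n + 1 then y ⟨j, h⟩ else 0 := by
  rw [px_form, finsetSum_coeff]
  simp only [coeff_C_mul, coeff_X_pow]
  split_ifs with h
  · rw [Finset.sum_eq_single (⟨j, h⟩ : Fin (n + 1))]
    · simp
    · intro b _ hb
      have : j ≠ (b : ℕ) := fun h' => hb (Fin.ext h'.symm)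
      simp [this]
    · intro h'
      exact absurd (Finset.mem_univ _) h'
  · refine Finset.sum_eq_zero fun b _ => ?_
    have : j ≠ (b : ℕ) := fun h' => h (h' ▸ b.2)
    simp [this]

private theorem px_natDegree {k : Type} [Field k] [NumberField k] {n : ℕ}
    (y : Fin (n + 1) → 𝓞 k) (hy : y (Fin.last n) ≠ 0) : (form X y).natDegree = n := by
  refine le_antisymm ?_ ?_
  · rw [natDegree_le_iff_coeff_eq_zero]
    intro N hN
    rw [px_coeff, dif_neg (by omega)]
  · refine le_natDegree_of_ne_zero ?_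
    rw [px_coeff, dif_pos (by omega)]
    exact hy

private theorem px_eval {k : Type} [Field k] [NumberField k] {n : ℕ} (τ : k →+* ℂ) (α : ℂ)
    (y : Fin (n + 1) → 𝓞 k) :
    ((form X y).map (τ.comp (algebraMap (𝓞 k) k))).eval α = ev τ α y := by
  rw [px_form, Polynomial.map_sum, eval_finsetSum]
  unfold ev
  refine Finset.sum_congr rfl fun i _ => ?_
  rw [Polynomial.map_mul, Polynomial.map_pow, map_X, map_C, eval_mul, eval_C, eval_pow, eval_X]
  rfl

private theorem px_relHeight {k : Type} [Field k] [NumberField k] (x : AlgebraicClosure k) :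
    AA.relHeight x =
      Real.exp (finrank ℚ (IntermediateField.adjoin k {x}) * AA.height x) := by
  have h0 : (finrank ℚ (IntermediateField.adjoin k {x}) : ℝ) ≠ 0 :=
    Nat.cast_ne_zero.2 finrank_pos.ne'
  have h1 : 0 < Height.mulHeight₁ (AdjoinSimple.gen k x) :=
    lt_of_lt_of_le one_pos (Height.one_le_mulHeight₁ _)
  rw [AA.height, SST.ht, mul_div_cancel₀ _ h0, Height.logHeight₁, Real.exp_log h1, AA.relHeight]

/-- Put `F = AAL.form X y = ∑ y_i X ^ i`, of degree `n` since `y (Fin.last n) ≠ 0`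
(`natDegree_form`), so `finrank k k(x) = n` (`F` is irreducible). `relHeight x ≤ exp (lgM ℂ F x)`
(`relHeight_le`) and `lgM ≤ d log ((n + 1) R)` (`lgM_le`). With `K = k(x)`, `[K : ℚ] = n d`,
`n d * height x = log (relHeight x) ≤ lgM ℂ F x`, and by `local_formula` for `ℂ` and the `ℂ_[p t]`,
`n d * proximity = q lgM ℂ - lgR ℂ - n c + ∑ t, (q lgM ℂ_[p t] - lgR ℂ_[p t] - n c_t)`, where
`c, c_t` do not depend on `F`; the sum over `t` is bounded below by `lgR_le_lgM`. Now
`arch_special` with `Λ = 2 + δ`, `S = R ^ (1 - b)`: `n d * proximity ≥ (2 + δ) lgM ℂ F x -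
κ (1 - b) log R - ((2 + δ) d - κ) log R - C = (2 + δ) lgM ℂ F x + (κ b - (2 + δ) d) log R - C`
with `κ = rk τ α`, and `κ b - (2 + δ) d ≥ (δ' - δ) d > 0`. -/
theorem prox_cell (k : Type) [Field k] [NumberField k] {r : ℕ} (p : Fin r → ℕ)
    [∀ t, Fact (p t).Prime] (hp : Function.Injective p) (g : k[X]) (hg : Squarefree g) (q : ℕ)
    (hq : q = g.natDegree ∨ q = g.natDegree + 1) (n : ℕ) (hn : 1 ≤ n) (τ : k →+* ℂ) (α : ℂ)
    (hα : (g.map τ).eval α = 0) (b δ δ' : ℝ) (hδ : 0 ≤ δ) (hδ' : δ < δ')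
    (hb : (2 + δ') * finrank ℚ k ≤ rk τ α * b) :
    ∃ R₀ : ℝ, 1 ≤ R₀ ∧ ∀ R : ℝ, R₀ ≤ R → ∀ y ∈ cell τ α n R (R ^ (1 - b)),
      Irreducible ((form X y).map (algebraMap (𝓞 k) k)) → y (Fin.last n) ≠ 0 →
      ∀ x : AlgebraicClosure k, aeval x ((form X y).map (algebraMap (𝓞 k) k)) = 0 →
        aeval x g ≠ 0 →
        finrank k (IntermediateField.adjoin k {x}) = n ∧
          AA.relHeight x ≤ ((n + 1) * R) ^ finrank ℚ k ∧
          (2 + δ) * AA.height x ≤ AA.proximity p g q x := by
  have hinj : Function.Injective (algebraMap (𝓞 k) k) := FaithfulSMul.algebraMap_injective _ _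
  have hg0 : g ≠ 0 := hg.ne_zero
  set d : ℕ := finrank ℚ k with hd
  have hdpos : 0 < d := finrank_pos
  have hdR : (0 : ℝ) < d := by exact_mod_cast hdpos
  obtain ⟨C₁, hC₁⟩ := arch_special g hg q hq n τ α hα (2 + δ) (by linarith)
  choose C₂ hC₂ using fun t : Fin r => lgR_le_lgM ℂ_[p t] g hg0 q hq n
  set c₀ : ℝ := ∑ ρ : k →+* ℂ, Real.log ‖ρ g.leadingCoeff‖ with hc₀
  set c₁ : Fin r → ℝ := fun t => ∑ ρ : k →+* ℂ_[p t], Real.log ‖ρ g.leadingCoeff‖ with hc₁
  set C' : ℝ := C₁ + n * c₀ + ∑ t, (C₂ t + n * c₁ t) with hC'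
  have hs : 0 < (δ' - δ) * d := mul_pos (by linarith) hdR
  refine ⟨max 1 (Real.exp (C' / ((δ' - δ) * d))), le_max_left _ _, ?_⟩
  intro R hR y hy hirr hyn x hx hgx
  have hR1 : 1 ≤ R := (le_max_left _ _).trans hR
  have hRpos : 0 < R := one_pos.trans_le hR1
  have hFn : (form X y).natDegree = n := px_natDegree y hyn
  have hF0 : form X y ≠ 0 := by
    intro h
    rw [h, natDegree_zero] at hFn
    omega
  have hfin : finrank k (IntermediateField.adjoin k {x}) = n := by
    have hmin := minpoly.eq_of_irreducible hirr hx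
    have hlc : ((form X y).map (algebraMap (𝓞 k) k)).leadingCoeff⁻¹ ≠ 0 :=
      inv_ne_zero (leadingCoeff_ne_zero.2 hirr.ne_zero)
    rw [IntermediateField.adjoin.finrank (Algebra.IsIntegral.isIntegral x), ← hmin,
      natDegree_mul_C hlc, natDegree_map_eq_of_injective hinj, hFn]
  have hcf : ∀ (i : ℕ) (ρ : k →+* ℂ), ‖ρ ((form X y).coeff i : k)‖ ≤ R := by
    intro i ρ
    rw [px_coeff]
    split_ifs with h
    · exact hy.1 _ ρ
    · simpa using hRpos.le
  have h1 := relHeight_le n (form X y) x hfin hFn hF0 hx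
  have h2 := lgM_le n (form X y) x hfin hFn hF0 hx R hRpos hcf
  refine ⟨hfin, ?_, ?_⟩
  · refine h1.trans ((Real.exp_le_exp.mpr h2).trans (le_of_eq ?_))
    rw [mul_comm, Real.exp_mul, Real.exp_log (by positivity), ← hd, Real.rpow_natCast]
  · have hfinK : (finrank ℚ (IntermediateField.adjoin k {x}) : ℝ) = d * n := by
      rw [← Module.finrank_mul_finrank ℚ k (IntermediateField.adjoin k {x}), hfin, ← hd]
      push_cast
      ring
    have hdn : (0 : ℝ) < (d : ℝ) * n := by
      have : 0 < n := by omega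
      positivity
    have hht : (d : ℝ) * n * AA.height x ≤ lgM ℂ (form X y) x := by
      rw [px_relHeight, Real.exp_le_exp, hfinK] at h1
      exact h1
    have hprox : (d : ℝ) * n * AA.proximity p g q x =
        (q * lgM ℂ (form X y) x - lgR ℂ g q (form X y) - n * c₀) +
        ∑ t, (q * lgM ℂ_[p t] (form X y) x - lgR ℂ_[p t] g q (form X y) - n * c₁ t) := by
      rw [AA.proximity, SST.proxK, hfinK, mul_div_cancel₀ _ hdn.ne',
        local_formula ℂ g hg0 q hq n (form X y) x hfin hFn hF0 hx hgx]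
      congr 1
      refine Finset.sum_congr rfl fun t _ => ?_
      rw [local_formula ℂ_[p t] g hg0 q hq n (form X y) x hfin hFn hF0 hx hgx]
    have h3 := hC₁ (form X y) x R (R ^ (1 - b)) hfin hFn hF0 hx hgx hRpos
      (Real.rpow_pos_of_pos hRpos _) hcf (by rw [px_eval]; exact hy.2)
    have h4 : ∀ t, -(C₂ t + n * c₁ t) ≤
        q * lgM ℂ_[p t] (form X y) x - lgR ℂ_[p t] g q (form X y) - n * c₁ t := by
      intro t
      have := hC₂ t (form X y) x hfin hFn hF0 hx hgx
      linarith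
    have h5 : -(∑ t, (C₂ t + n * c₁ t)) ≤
        ∑ t, (q * lgM ℂ_[p t] (form X y) x - lgR ℂ_[p t] g q (form X y) - n * c₁ t) := by
      rw [← Finset.sum_neg_distrib]
      exact Finset.sum_le_sum fun t _ => h4 t
    rw [Real.log_rpow hRpos, ← hd] at h3
    have hlog : 0 ≤ Real.log R := Real.log_nonneg hR1
    have h6 : C' ≤ (δ' - δ) * d * Real.log R := by
      rw [mul_comm, ← div_le_iff₀ hs, Real.le_log_iff_exp_le hRpos]
      exact (le_max_right _ _).trans hR
    have h7 : (2 + δ') * d * Real.log R ≤ rk τ α * b * Real.log R :=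
      mul_le_mul_of_nonneg_right hb hlog
    have h8 : (2 + δ) * lgM ℂ (form X y) x ≤ d * n * AA.proximity p g q x := by
      rw [hprox]
      have h9 : (rk τ α : ℝ) * ((1 - b) * Real.log R) + ((2 + δ) * d - rk τ α) * Real.log R =
        (2 + δ') * d * Real.log R - (δ' - δ) * d * Real.log R - rk τ α * b * Real.log R := by ring
      rw [hC'] at h6
      linarith
    have h10 : (2 + δ) * (d * n * AA.height x) ≤ (2 + δ) * lgM ℂ (form X y) x :=
      mul_le_mul_of_nonneg_left hht (by linarith)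
    refine le_of_mul_le_mul_left ?_ hdn
    calc (d : ℝ) * n * ((2 + δ) * AA.height x) = (2 + δ) * (d * n * AA.height x) := by ring
      _ ≤ _ := h10.trans h8

end Pool.Agent.AASL
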