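import Pool.Agent.AASL.Few
import Pool.Agent.AASL.AutoIrr
import Pool.Agent.AASL.Many
import Pool.Agent.AASL.Prox

/-!
# Many points near an irreducible divisor of degree greater than `n`
-/

set_option autoImplicit false

open NumberField Module Polynomial IntermediateField Pool.Agent.AAL Pool.Agent.AA

namespace Pool.Agent.AASL

private theorem li_form {k : Type} [Field k] [NumberField k] {n : ℕ} (y : Fin (n + 1) → 𝓞 k) :
    form X y = ∑ i : Fin (n + 1), C (y i) * X ^ (i : ℕ) := by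
  unfold form
  refine Finset.sum_congr rfl fun i _ => ?_
  rw [natDegree_X]
  split_ifs with h
  · rfl
  · rw [← pow_succ', Nat.sub_add_cancel (by omega)]

private theorem li_coeff {k : Type} [Field k] [NumberField k] {n : ℕ} (y : Fin (n + 1) → 𝓞 k)
    (j : Fin (n + 1)) : (form X y).coeff j = y j := by
  rw [li_form, finsetSum_coeff]
  simp only [coeff_C_mul_X_pow]
  rw [Finset.sum_eq_single j]
  · simp
  · intro i _ hij
    rw [if_neg]
    intro h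
    exact hij (Fin.ext h.symm)
  · simp

private theorem li_natDegree {k : Type} [Field k] [NumberField k] {n : ℕ}
    (y : Fin (n + 1) → 𝓞 k) : (form X y).natDegree ≤ n := by
  rw [li_form]
  refine natDegree_sum_le_of_forall_le _ _ fun i _ => ?_
  exact (natDegree_C_mul_X_pow_le _ _).trans (by omega)

/-- polynomials with a common zero are proportional -/
private theorem li_prp {k : Type} [Field k] [NumberField k] {n : ℕ} {y y' : Fin (n + 1) → 𝓞 k}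
    (h : Irreducible ((form X y).map (algebraMap (𝓞 k) k)))
    (h' : Irreducible ((form X y').map (algebraMap (𝓞 k) k))) {x : AlgebraicClosure k}
    (hx : aeval x ((form X y).map (algebraMap (𝓞 k) k)) = 0)
    (hx' : aeval x ((form X y').map (algebraMap (𝓞 k) k)) = 0) : Prp y y' := by
  obtain ⟨c, hc⟩ := eq_smul_of_root k _ _ h h' x hx hx'
  refine ⟨c, fun i => ?_⟩
  have h1 := congrArg (fun f => f.coeff (i : ℕ)) hc
  simp only [coeff_map, coeff_C_mul, li_coeff] at h1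
  exact h1

private theorem li_large (K : ℝ) {a b : ℝ} (h : a < b) :
    ∃ R₀ : ℝ, 1 ≤ R₀ ∧ ∀ R : ℝ, R₀ ≤ R → K * R ^ a ≤ R ^ b := by
  obtain ⟨R₁, hR₁⟩ := Filter.eventually_atTop.1
    ((tendsto_rpow_atTop (sub_pos.2 h)).eventually_ge_atTop K)
  refine ⟨max 1 R₁, le_max_left _ _, fun R hR => ?_⟩
  have h1 := hR₁ R (le_of_max_le_right hR)
  have hR1 : 1 ≤ R := le_of_max_le_left hR
  have h2 : R ^ b = R ^ (b - a) * R ^ a := by
    rw [← Real.rpow_add (by linarith)]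
    congr 1
    ring
  rw [h2]
  exact mul_le_mul_of_nonneg_right h1 (Real.rpow_nonneg (by linarith) _)

private theorem li_rk {k : Type} [Field k] [NumberField k] (τ : k →+* ℂ) (α : ℂ) :
    rk τ α = 1 ∨ rk τ α = 2 := by
  unfold rk
  split_ifs
  · exact Or.inl rfl
  · exact Or.inr rfl

private theorem li_rk_two {k : Type} [Field k] [NumberField k] {τ : k →+* ℂ} {α : ℂ}
    (h : starRingEnd ℂ α ≠ α) : rk τ α = 2 := by
  unfold rk
  rw [if_neg fun h' => h h'.2]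

/-- the number of the elements which remain -/
private theorem li_card {k : Type} [Field k] [NumberField k] (τ : k →+* ℂ) (α : ℂ) (n : ℕ)
    (R S T : ℝ) : ({y ∈ cell τ α n R S |
        Irreducible ((form X y).map (algebraMap (𝓞 k) k)) ∧ y (Fin.last n) ≠ 0}.ncard : ℝ) ≤
      ({y ∈ cell τ α n R S | Irreducible ((form X y).map (algebraMap (𝓞 k) k)) ∧
        y (Fin.last n) ≠ 0 ∧ (fib τ α R S y : ℝ) ≤ T}.ncard : ℝ) +
      ({y ∈ cell τ α n R S | y ≠ 0 ∧ T < (fib τ α R S y : ℝ)}.ncard : ℝ) := by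
  have hfin := cell_finite τ α n R S
  rw [← Nat.cast_add, Nat.cast_le]
  refine (Set.ncard_le_ncard ?_ ((hfin.subset (Set.sep_subset _ _)).union
    (hfin.subset (Set.sep_subset _ _)))).trans (Set.ncard_union_le _ _)
  rintro y ⟨h1, h2, h3⟩
  rcases le_or_gt (fib τ α R S y : ℝ) T with h | h
  · exact Or.inl ⟨h1, h2, h3, h⟩
  · exact Or.inr ⟨h1, fun h0 => h3 (by rw [h0]; rfl), h⟩

private theorem li_caseA {k : Type} [Field k] [NumberField k] {r : ℕ} {p : Fin r → ℕ}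
    [∀ t, Fact (p t).Prime] (hp : Function.Injective p) (g : k[X]) (hg : Irreducible g) (n : ℕ)
    (hn : 2 ≤ n) (hng : n < g.natDegree) (τ : k →+* ℂ) (α : ℂ) (hα : (g.map τ).eval α = 0)
    (hc : IsRl τ → starRingEnd ℂ α ≠ α → 3 ≤ n) (b δ : ℝ) (hδ : 0 < δ) (hδ1 : δ < 1)
    (hb0 : 0 < b) (hb : rk τ α * b = (2 + δ) * finrank ℚ k) (ε s : ℝ) (hε : 0 < ε) (hs0 : 0 ≤ s)
    (hs : s * (n + 2) = finrank ℚ k * (n - δ))
    (hεs : s + 2 * ε < finrank ℚ k * ((n : ℝ) - 1 - δ)) :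
    ∃ c₁ R₁ : ℝ, 0 < c₁ ∧ 1 ≤ R₁ ∧ ∀ R : ℝ, R₁ ≤ R → ∃ T : ℝ, 0 < T ∧
      c₁ * R ^ (finrank ℚ k * ((n : ℝ) - 1 - δ) - 4 * ε) * T ≤
        ({y ∈ cell τ α n R (R ^ (1 - b)) | Irreducible ((form X y).map (algebraMap (𝓞 k) k)) ∧
          y (Fin.last n) ≠ 0 ∧ (fib τ α R (R ^ (1 - b)) y : ℝ) ≤ T}.ncard : ℝ) := by
  have hdn : 1 ≤ finrank ℚ k := Module.finrank_pos
  have hd : (1 : ℝ) ≤ (finrank ℚ k : ℝ) := by exact_mod_cast hdn
  have hnR : (2 : ℝ) ≤ (n : ℝ) := by exact_mod_cast hn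
  have hds : (finrank ℚ k - s) * (n + 2) = (2 + δ) * finrank ℚ k := by linear_combination -hs
  have hds0 : 0 ≤ finrank ℚ k - s := by
    by_contra hneg
    push Not at hneg
    have : (finrank ℚ k - s) * (n + 2) < 0 := mul_neg_of_neg_of_pos hneg (by linarith)
    nlinarith
  have h2b : IsRl τ → starRingEnd ℂ α ≠ α → 2 * b = (2 + δ) * finrank ℚ k := by
    intro _ h2
    rw [← hb, li_rk_two h2]
    norm_num
  obtain ⟨R₁, hR₁, hmany⟩ := many_irr hp n hn g hg hng τ α hα hc b δ hδ hδ1 hb ε hε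
  obtain ⟨R₂, hR₂, hfib⟩ := fib_le hp n g hg hng τ α hα b s hb0.le hs0 (by linarith)
    (by nlinarith) (fun h1 h2 => by linarith [h2b h1 h2]) ε hε
  obtain ⟨C', hC', hup⟩ := upper_cell hp n g hg hng τ α hα 1 (1 - b)
    (finrank ℚ k * ((n : ℝ) - 1 - δ)) zero_le_one (by linarith) (by nlinarith)
    (by linear_combination -hb)
    (fun h1 h2 => by
      have h3 : (3 : ℝ) ≤ n := by exact_mod_cast hc h1 h2
      have h4 := h2b h1 h2
      nlinarith) ε 1 hε one_pos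
  obtain ⟨C, hC, hfew⟩ := few_big τ α n (by omega)
  obtain ⟨R₃, hR₃, hl₁⟩ := li_large (4 * (C * C')) (a := finrank ℚ k * ((n : ℝ) - 1 - δ) - 2 * ε)
    (b := finrank ℚ k * ((n : ℝ) - 1 - δ) - ε) (by linarith)
  obtain ⟨R₄, hR₄, hl₂⟩ := li_large (4 * (2 * 8 ^ finrank ℚ k)) (a := s + ε)
    (b := finrank ℚ k * ((n : ℝ) - 1 - δ) - ε) (by linarith)
  set M₀ : ℝ := finrank ℚ k * ((n : ℝ) - 1 - δ) with hM₀
  refine ⟨(2 * 8 ^ finrank ℚ k)⁻¹, max (max R₁ R₂) (max R₃ R₄), by positivity,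
    hR₁.trans ((le_max_left _ _).trans (le_max_left _ _)), fun R hR => ?_⟩
  have g1 : R₁ ≤ R := le_of_max_le_left (le_of_max_le_left hR)
  have g2 : R₂ ≤ R := le_of_max_le_right (le_of_max_le_left hR)
  have g3 : R₃ ≤ R := le_of_max_le_left (le_of_max_le_right hR)
  have g4 : R₄ ≤ R := le_of_max_le_right (le_of_max_le_right hR)
  have hR1 : 1 ≤ R := hR₁.trans g1
  have hR0 : 0 < R := by linarith
  have hS : 0 < R ^ (1 - b) := Real.rpow_pos_of_pos hR0 _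
  have hSR : R ^ (1 - b) ≤ R := by
    calc R ^ (1 - b) ≤ R ^ (1 : ℝ) := Real.rpow_le_rpow_of_exponent_le hR1 (by linarith)
      _ = R := Real.rpow_one R
  have hT₀ : 1 ≤ R ^ (3 * ε / finrank ℚ k) := Real.one_le_rpow hR1 (by positivity)
  have hT₀d : (R ^ (3 * ε / finrank ℚ k)) ^ finrank ℚ k = R ^ (3 * ε) := by
    rw [← Real.rpow_natCast, ← Real.rpow_mul hR0.le, div_mul_cancel₀ _ (by linarith)]
  have hTd : (8 * R ^ (3 * ε / finrank ℚ k)) ^ finrank ℚ k = 8 ^ finrank ℚ k * R ^ (3 * ε) := by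
    rw [mul_pow, hT₀d]
  have h1 := hfew R (R ^ (1 - b)) (R ^ (3 * ε / finrank ℚ k))
    (2 * 8 ^ finrank ℚ k * R ^ (s + ε)) hS hSR hT₀ (by positivity) (fun y hy => hfib R g2 y hy)
  rw [hT₀d, hTd] at h1
  have h2 := hup R hR1
  rw [one_mul, one_mul, Real.rpow_one] at h2
  have h3 := hmany R g1
  have h4 := li_card τ α n R (R ^ (1 - b)) (8 ^ finrank ℚ k * R ^ (3 * ε))
  refine ⟨8 ^ finrank ℚ k * R ^ (3 * ε), by positivity, ?_⟩
  have h5 : C * (R ^ (3 * ε))⁻¹ * ((cell τ α n R (R ^ (1 - b))).ncard : ℝ) ≤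
      C * C' * R ^ (M₀ - 2 * ε) := by
    have h6 : C * C' * R ^ (M₀ - 2 * ε) = C * (R ^ (3 * ε))⁻¹ * (C' * R ^ (M₀ + ε)) := by
      have h7 : R ^ (M₀ - 2 * ε) = (R ^ (3 * ε))⁻¹ * R ^ (M₀ + ε) := by
        rw [← Real.rpow_neg hR0.le, ← Real.rpow_add hR0]
        congr 1
        ring
      rw [h7]
      ring
    rw [h6]
    exact mul_le_mul_of_nonneg_left h2 (by positivity)
  have h8 := hl₁ R g3
  have h9 := hl₂ R g4
  have h10 : (2 * 8 ^ finrank ℚ k)⁻¹ * R ^ (M₀ - 4 * ε) * (8 ^ finrank ℚ k * R ^ (3 * ε)) =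
      R ^ (M₀ - ε) / 2 := by
    have h11 : R ^ (M₀ - ε) = R ^ (M₀ - 4 * ε) * R ^ (3 * ε) := by
      rw [← Real.rpow_add hR0]
      congr 1
      ring
    rw [h11]
    field_simp
  rw [h10]
  linarith

private theorem li_caseB {k : Type} [Field k] [NumberField k] {r : ℕ} {p : Fin r → ℕ}
    [∀ t, Fact (p t).Prime] (hp : Function.Injective p) (g : k[X]) (hg : Irreducible g)
    (hng : 2 < g.natDegree) (τ : k →+* ℂ) (α : ℂ) (hα : (g.map τ).eval α = 0)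
    (hτ : IsRl τ) (hαr : starRingEnd ℂ α ≠ α) (b δ : ℝ) (hδ : 0 < δ)
    (hb0 : 0 < b) (hb : rk τ α * b = (2 + δ) * finrank ℚ k) (ε s : ℝ) (hε : 0 < ε) (hs0 : 0 ≤ s)
    (hs : s * (((2 : ℕ) : ℝ) + 2) = finrank ℚ k * (((2 : ℕ) : ℝ) - δ))
    (hεs : s + 2 * ε < finrank ℚ k * (((2 : ℕ) : ℝ) - 1 - δ)) :
    ∃ c₁ R₁ : ℝ, 0 < c₁ ∧ 1 ≤ R₁ ∧ ∀ R : ℝ, R₁ ≤ R → ∃ T : ℝ, 0 < T ∧
      c₁ * R ^ (finrank ℚ k * (((2 : ℕ) : ℝ) - 1 - δ) - 4 * ε) * T ≤
        ({y ∈ cell τ α 2 R (R ^ (1 - b)) | Irreducible ((form X y).map (algebraMap (𝓞 k) k)) ∧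
          y (Fin.last 2) ≠ 0 ∧ (fib τ α R (R ^ (1 - b)) y : ℝ) ≤ T}.ncard : ℝ) := by
  have hdn : 1 ≤ finrank ℚ k := Module.finrank_pos
  have hd : (1 : ℝ) ≤ (finrank ℚ k : ℝ) := by exact_mod_cast hdn
  have hrk : rk τ α = 2 := li_rk_two hαr
  have hb2 : 2 * b = (2 + δ) * finrank ℚ k := by
    rw [← hb, hrk]
    norm_num
  push_cast at hs hεs
  obtain ⟨R₁, hR₁, hauto⟩ := auto_irr τ hτ α hαr b (by nlinarith)
  obtain ⟨R₂, hR₂, hfib⟩ := fib_le hp 2 g hg hng τ α hα b s hb0.le hs0 (by nlinarith)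
    (by rw [mul_comm b, hb]; push_cast; nlinarith) (fun _ _ => by push_cast; linarith) ε hε
  obtain ⟨C, hC, hfew⟩ := few_big τ α 2 (by norm_num)
  obtain ⟨c₀, hc₀, hcell⟩ := card_cell_ge τ α 2 (by norm_num)
  obtain ⟨R₄, hR₄, hl₂⟩ := li_large (4 * c₀⁻¹ * (2 * 8 ^ finrank ℚ k + 1)) (a := s + ε)
    (b := finrank ℚ k * (((2 : ℕ) : ℝ) - 1 - δ)) (by push_cast; linarith)
  set M₀ : ℝ := finrank ℚ k * (((2 : ℕ) : ℝ) - 1 - δ) with hM₀
  set T₀ : ℝ := max 1 (4 * C) with hT₀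
  have hT₀1 : 1 ≤ T₀ := le_max_left _ _
  have hT₀2 : 4 * C ≤ T₀ := le_max_right _ _
  have hT₀d : C * (T₀ ^ finrank ℚ k)⁻¹ ≤ 1 / 4 := by
    have h1 : T₀ ≤ T₀ ^ finrank ℚ k := le_self_pow₀ hT₀1 (by omega)
    have h2 : 0 < T₀ ^ finrank ℚ k := by positivity
    rw [← div_eq_mul_inv, div_le_iff₀ h2]
    linarith
  refine ⟨c₀ / 2 * ((8 * T₀) ^ finrank ℚ k)⁻¹, max (max R₁ R₂) R₄, by positivity,
    hR₁.trans ((le_max_left _ _).trans (le_max_left _ _)), fun R hR => ?_⟩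
  have g1 : R₁ ≤ R := le_of_max_le_left (le_of_max_le_left hR)
  have g2 : R₂ ≤ R := le_of_max_le_right (le_of_max_le_left hR)
  have g4 : R₄ ≤ R := le_of_max_le_right hR
  have hR1 : 1 ≤ R := hR₁.trans g1
  have hR0 : 0 < R := by linarith
  have hS : 0 < R ^ (1 - b) := Real.rpow_pos_of_pos hR0 _
  have hSR : R ^ (1 - b) ≤ R := by
    calc R ^ (1 - b) ≤ R ^ (1 : ℝ) := Real.rpow_le_rpow_of_exponent_le hR1 (by linarith)
      _ = R := Real.rpow_one R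
  have h1 := hfew R (R ^ (1 - b)) T₀ (2 * 8 ^ finrank ℚ k * R ^ (s + ε)) hS hSR hT₀1
    (by positivity) (fun y hy => hfib R g2 y hy)
  have h2 := hcell R (R ^ (1 - b)) hS hSR
  have hpow : R ^ ((2 + 1) * finrank ℚ k - rk τ α) * (R ^ (1 - b)) ^ rk τ α = R ^ M₀ := by
    rw [← Real.rpow_natCast, ← Real.rpow_natCast (R ^ (1 - b)), ← Real.rpow_mul hR0.le,
      ← Real.rpow_add hR0, hrk]
    congr 1
    rw [Nat.cast_sub (by omega), hM₀]
    push_cast
    linarith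
  rw [hpow] at h2
  have hfin := cell_finite τ α 2 R (R ^ (1 - b))
  have h4 := li_card τ α 2 R (R ^ (1 - b)) ((8 * T₀) ^ finrank ℚ k)
  have h5 : ((cell τ α 2 R (R ^ (1 - b))).ncard : ℝ) ≤ ({y ∈ cell τ α 2 R (R ^ (1 - b)) |
      Irreducible ((form X y).map (algebraMap (𝓞 k) k)) ∧ y (Fin.last 2) ≠ 0}.ncard : ℝ) + 1 := by
    have h6 : cell τ α 2 R (R ^ (1 - b)) ⊆ insert 0 {y ∈ cell τ α 2 R (R ^ (1 - b)) |
        Irreducible ((form X y).map (algebraMap (𝓞 k) k)) ∧ y (Fin.last 2) ≠ 0} := by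
      intro y hy
      by_cases h0 : y = 0
      · exact Or.inl h0
      · exact Or.inr ⟨hy, hauto R g1 y hy h0⟩
    have h7 := (Set.ncard_le_ncard h6 ((hfin.subset (Set.sep_subset _ _)).insert 0)).trans
      (Set.ncard_insert_le _ _)
    exact_mod_cast h7
  refine ⟨(8 * T₀) ^ finrank ℚ k, by positivity, ?_⟩
  have h8 := hl₂ R g4
  have h9 : (2 * 8 ^ finrank ℚ k + 1) * R ^ (s + ε) ≤ c₀ / 4 * R ^ M₀ := by
    have h10 := mul_le_mul_of_nonneg_left h8 (by positivity : 0 ≤ c₀ / 4)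
    have h11 : c₀ / 4 * (4 * c₀⁻¹ * (2 * 8 ^ finrank ℚ k + 1) * R ^ (s + ε)) =
        (2 * 8 ^ finrank ℚ k + 1) * R ^ (s + ε) := by
      field_simp
    rwa [h11] at h10
  have h12 : 1 ≤ R ^ (s + ε) := Real.one_le_rpow hR1 (by positivity)
  have h13 : R ^ (M₀ - 4 * ε) ≤ R ^ M₀ := Real.rpow_le_rpow_of_exponent_le hR1 (by linarith)
  have h14 : C * (T₀ ^ finrank ℚ k)⁻¹ * ((cell τ α 2 R (R ^ (1 - b))).ncard : ℝ) ≤
      1 / 4 * ((cell τ α 2 R (R ^ (1 - b))).ncard : ℝ) :=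
    mul_le_mul_of_nonneg_right hT₀d (by positivity)
  have h15 : c₀ / 2 * ((8 * T₀) ^ finrank ℚ k)⁻¹ * R ^ (M₀ - 4 * ε) * (8 * T₀) ^ finrank ℚ k =
      c₀ / 2 * R ^ (M₀ - 4 * ε) := by
    have h16 : (8 * T₀) ^ finrank ℚ k ≠ 0 := by positivity
    field_simp
  rw [h15]
  have h17 : c₀ / 2 * R ^ (M₀ - 4 * ε) ≤ c₀ / 2 * R ^ M₀ :=
    mul_le_mul_of_nonneg_left h13 (by positivity)
  nlinarith

private theorem li_delta {n : ℕ} {δ η : ℝ} (hδ1 : δ < 1) (hδ2 : n = 2 → δ < 1 / 2) (hη : 0 < η) :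
    ∃ δ' : ℝ, δ < δ' ∧ δ' ≤ δ + η / 2 ∧ δ' < 1 ∧ (n = 2 → δ' < 2 / 3) := by
  by_cases h : n = 2
  · have h1 := hδ2 h
    have h2 := min_le_left (η / 2) ((2 / 3 - δ) / 2)
    have h3 := min_le_right (η / 2) ((2 / 3 - δ) / 2)
    have h4 : 0 < min (η / 2) ((2 / 3 - δ) / 2) := lt_min (by linarith) (by linarith)
    exact ⟨δ + min (η / 2) ((2 / 3 - δ) / 2), by linarith, by linarith, by linarith,
      fun _ => by linarith⟩
  · have h2 := min_le_left (η / 2) ((1 - δ) / 2)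
    have h3 := min_le_right (η / 2) ((1 - δ) / 2)
    have h4 : 0 < min (η / 2) ((1 - δ) / 2) := lt_min (by linarith) (by linarith)
    exact ⟨δ + min (η / 2) ((1 - δ) / 2), by linarith, by linarith, by linarith,
      fun h' => absurd h' h⟩

/-- many polynomials with few multiples -/
private theorem li_star {k : Type} [Field k] [NumberField k] {r : ℕ} {p : Fin r → ℕ}
    [∀ t, Fact (p t).Prime] (hp : Function.Injective p) (g : k[X]) (hg : Irreducible g) (n : ℕ)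
    (hn : 2 ≤ n) (hng : n < g.natDegree) (τ : k →+* ℂ) (α : ℂ) (hα : (g.map τ).eval α = 0)
    (b δ : ℝ) (hδ : 0 < δ) (hδ1 : δ < 1)
    (hb0 : 0 < b) (hb : rk τ α * b = (2 + δ) * finrank ℚ k) (ε s : ℝ) (hε : 0 < ε) (hs0 : 0 ≤ s)
    (hs : s * (n + 2) = finrank ℚ k * (n - δ))
    (hεs : s + 2 * ε < finrank ℚ k * ((n : ℝ) - 1 - δ)) :
    ∃ c₁ R₁ : ℝ, 0 < c₁ ∧ 1 ≤ R₁ ∧ ∀ R : ℝ, R₁ ≤ R → ∃ T : ℝ, 0 < T ∧
      c₁ * R ^ (finrank ℚ k * ((n : ℝ) - 1 - δ) - 4 * ε) * T ≤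
        ({y ∈ cell τ α n R (R ^ (1 - b)) | Irreducible ((form X y).map (algebraMap (𝓞 k) k)) ∧
          y (Fin.last n) ≠ 0 ∧ (fib τ α R (R ^ (1 - b)) y : ℝ) ≤ T}.ncard : ℝ) := by
  by_cases hc : IsRl τ → starRingEnd ℂ α ≠ α → 3 ≤ n
  · exact li_caseA hp g hg n hn hng τ α hα hc b δ hδ hδ1 hb0 hb ε s hε hs0 hs hεs
  · push Not at hc
    obtain ⟨h1, h2, h3⟩ := hc
    obtain rfl : n = 2 := by omega
    exact li_caseB hp g hg hng τ α hα h1 h2 b δ hδ hb0 hb ε s hε hs0 hs hεs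

/-- Let `d = [k : ℚ]`. If `n ≥ 3` take any embedding `τ` and any zero `α` of `g ^ τ`. If `n = 2`
take, if possible, a pair which is not (`τ` real and `α` not real). Case B: `n = 2`, `τ` real, `α`
not real; case A: all others. Choose `δ < δ' ≤ δ + η / 2`, `δ' < 1`, and `δ' < 2 / 3` if `n = 2`,
`b = (2 + δ') d / rk τ α`, `S = R ^ (1 - b)`, `M₀ = d (n - 1 - δ') > 0`, so that
`R ^ ((n + 1) d - rk) * S ^ rk = R ^ M₀`. (1) `fib_le` with `s = d (n - δ') / (n + 2)`: the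
conditions hold, `(d - s) (n + 2) / 2 = d (2 + δ') / 2` and `(d - s) (n + 1) ≤ (2 + δ') d`, and
`s < M₀`. (2) Case A: `many_irr` with `ε`, `few_big` with `T₀ = R ^ (3 ε / d)`,
`M = 2 * 8 ^ d * R ^ (s + ε)`, and `#cell ≤ C R ^ (M₀ + ε)` by `upper_cell` with `u = 1`,
`v = 1 - b`, `M = M₀`: at least `R ^ (M₀ - ε) / 2` of the `y` of `many_irr` have
`fib y ≤ (8 T₀) ^ d`. Case B: by `auto_irr` (`b = (1 + δ' / 2) d > d`) all nonzero elements of the
cell are irreducible; take `T₀` constant with `C T₀ ^ (-d) ≤ 1 / 4` in `few_big`; for large `R` one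
has `M + 1 ≤ #cell / 4` since `#cell ≥ c R ^ M₀` (`card_cell_ge`); at least `#cell / 4` elements
remain. (3) Choose a zero `x` of the polynomial for each of the remaining `y`; two `y` with the same
`x` are proportional (`eq_smul_of_root`, irreducible polynomials), so each `x` is chosen at most
`(8 T₀) ^ d` times. `aeval x g ≠ 0` since `g` is irreducible of degree `> n = deg x`. (4)
`prox_cell` with `R = B ^ (1 / d) / (n + 1)`. -/
theorem lower_irr (k : Type) [Field k] [NumberField k] {r : ℕ} (p : Fin r → ℕ)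
    [∀ t, Fact (p t).Prime] (hp : Function.Injective p) (g : k[X]) (hg : Irreducible g)
    (hg3 : 3 ≤ g.natDegree) (n : ℕ) (hn : 2 ≤ n) (hng : n < g.natDegree) (δ η : ℝ) (hδ : 0 ≤ δ)
    (hδ1 : δ < 1) (hδ2 : n = 2 → δ < 1 / 2) (hη : 0 < η) : ∃ c B₀ : ℝ, 0 < c ∧ ∀ B : ℝ, B₀ ≤ B →
    ∃ S : Finset (AlgebraicClosure k), c * B ^ ((n : ℝ) - 1 - δ - η) ≤ (S.card : ℝ) ∧
      ∀ x ∈ S, finrank k (IntermediateField.adjoin k {x}) = n ∧ relHeight x ≤ B ∧
        aeval x g ≠ 0 ∧ (2 + δ) * height x ≤ proximity p g g.natDegree x := by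
  classical
  have hdn : 1 ≤ finrank ℚ k := Module.finrank_pos
  have hd : (1 : ℝ) ≤ (finrank ℚ k : ℝ) := by exact_mod_cast hdn
  have hd0 : (0 : ℝ) < (finrank ℚ k : ℝ) := by linarith
  have hnR : (2 : ℝ) ≤ (n : ℝ) := by exact_mod_cast hn
  obtain ⟨δ', h1, h2, h3, h4⟩ := li_delta (n := n) hδ1 hδ2 hη
  have hδ' : 0 < δ' := by linarith
  -- the exponents
  set s : ℝ := finrank ℚ k * ((n : ℝ) - δ') / (n + 2) with hsd
  have hs : s * (n + 2) = finrank ℚ k * (n - δ') := by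
    rw [hsd, div_mul_cancel₀ _ (by positivity)]
  have hs0 : 0 ≤ s := div_nonneg (mul_nonneg hd0.le (by linarith)) (by positivity)
  have hsM : s < finrank ℚ k * ((n : ℝ) - 1 - δ') := by
    have h5 : 0 < ((n : ℝ) - 1 - δ') * (n + 2) - (n - δ') := by
      rcases Nat.lt_or_ge 2 n with h | h
      · have h6 : (3 : ℝ) ≤ n := by exact_mod_cast h
        nlinarith
      · obtain rfl : n = 2 := by omega
        have := h4 rfl
        push_cast
        linarith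
    have h6 : s * (n + 2) < finrank ℚ k * ((n : ℝ) - 1 - δ') * (n + 2) := by
      rw [hs]
      nlinarith [mul_pos hd0 h5]
    exact lt_of_mul_lt_mul_right h6 (by positivity)
  set ε : ℝ := min ((finrank ℚ k * ((n : ℝ) - 1 - δ') - s) / 4) (η * finrank ℚ k / 8) with hεd
  have hε : 0 < ε := lt_min (by linarith) (by positivity)
  have hε1 : ε ≤ (finrank ℚ k * ((n : ℝ) - 1 - δ') - s) / 4 := min_le_left _ _
  have hε2 : ε ≤ η * finrank ℚ k / 8 := min_le_right _ _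
  -- the point
  obtain ⟨τ⟩ : Nonempty (k →+* ℂ) := inferInstance
  obtain ⟨α, hα⟩ := IsAlgClosed.exists_root (g.map τ) (by
    rw [degree_map]
    exact (degree_pos_of_irreducible hg).ne')
  have hκ : (0 : ℝ) < (rk τ α : ℝ) := by
    rcases li_rk τ α with h | h <;> rw [h] <;> norm_num
  set b : ℝ := (2 + δ') * finrank ℚ k / rk τ α with hbd
  have hb : rk τ α * b = (2 + δ') * finrank ℚ k := by
    rw [hbd, mul_div_cancel₀ _ hκ.ne']
  have hb0 : 0 < b := by positivity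
  obtain ⟨c₁, R₁, hc₁, hR₁, hstar⟩ := li_star hp g hg n hn hng τ α hα b δ' hδ' h3 hb0 hb ε s hε
    hs0 hs (by linarith)
  obtain ⟨R₂, hR₂, hprox⟩ := prox_cell k p hp g hg.squarefree g.natDegree (Or.inl rfl) n
    (by omega) τ α hα b δ δ' hδ h1 hb.ge
  set e : ℝ := finrank ℚ k * ((n : ℝ) - 1 - δ') - 4 * ε with he
  have hn1 : (0 : ℝ) < (n : ℝ) + 1 := by positivity
  refine ⟨c₁ * (((n : ℝ) + 1) ^ e)⁻¹, max 1 (((n + 1) * max R₁ R₂) ^ finrank ℚ k),
    by positivity, fun B hB => ?_⟩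
  have hB1 : 1 ≤ B := le_of_max_le_left hB
  have hB2 : ((n + 1) * max R₁ R₂) ^ finrank ℚ k ≤ B := le_of_max_le_right hB
  set R : ℝ := B ^ ((finrank ℚ k : ℝ)⁻¹) / (n + 1) with hRd
  have hmax : 1 ≤ max R₁ R₂ := hR₁.trans (le_max_left _ _)
  have hR : max R₁ R₂ ≤ R := by
    rw [hRd, le_div_iff₀ hn1, mul_comm]
    calc ((n : ℝ) + 1) * max R₁ R₂
        = (((n + 1) * max R₁ R₂) ^ finrank ℚ k) ^ ((finrank ℚ k : ℝ)⁻¹) :=
          (Real.pow_rpow_inv_natCast (by positivity) (by omega)).symm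
      _ ≤ B ^ ((finrank ℚ k : ℝ)⁻¹) := Real.rpow_le_rpow (by positivity) hB2 (by positivity)
  have hRB : ((n + 1) * R) ^ finrank ℚ k = B := by
    rw [hRd, mul_div_cancel₀ _ hn1.ne', Real.rpow_inv_natCast_pow (by linarith) (by omega)]
  have hRe : B ^ ((n : ℝ) - 1 - δ - η) * (((n : ℝ) + 1) ^ e)⁻¹ ≤ R ^ e := by
    rw [hRd, Real.div_rpow (by positivity) hn1.le, ← Real.rpow_mul (by linarith),
      ← div_eq_mul_inv]
    refine div_le_div_of_nonneg_right ?_ (by positivity)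
    refine Real.rpow_le_rpow_of_exponent_le hB1 ?_
    rw [he, inv_mul_eq_div, le_div_iff₀ hd0]
    nlinarith
  obtain ⟨T, hT, hcard⟩ := hstar R ((le_max_left _ _).trans hR)
  set G : Set (Fin (n + 1) → 𝓞 k) := {y ∈ cell τ α n R (R ^ (1 - b)) |
    Irreducible ((form X y).map (algebraMap (𝓞 k) k)) ∧ y (Fin.last n) ≠ 0 ∧
      (fib τ α R (R ^ (1 - b)) y : ℝ) ≤ T} with hGd
  have hcf := cell_finite τ α n R (R ^ (1 - b))
  have hG : G.Finite := hcf.subset (Set.sep_subset _ _)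
  have hroot : ∀ y : Fin (n + 1) → 𝓞 k, ∃ x : AlgebraicClosure k,
      Irreducible ((form X y).map (algebraMap (𝓞 k) k)) →
        aeval x ((form X y).map (algebraMap (𝓞 k) k)) = 0 := by
    intro y
    by_cases h : Irreducible ((form X y).map (algebraMap (𝓞 k) k))
    · obtain ⟨x, hx⟩ := IsAlgClosed.exists_aeval_eq_zero (AlgebraicClosure k) _
        (degree_pos_of_irreducible h).ne'
      exact ⟨x, fun _ => hx⟩
    · exact ⟨0, fun h' => absurd h' h⟩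
  choose x hx using hroot
  refine ⟨hG.toFinset.image x, ?_, ?_⟩
  · have h5 : hG.toFinset.card ≤ ⌊T⌋₊ * (hG.toFinset.image x).card := by
      refine Finset.card_le_mul_card_image _ _ fun z hz => ?_
      obtain ⟨a, ha, rfl⟩ := Finset.mem_image.1 hz
      rw [Set.Finite.mem_toFinset] at ha
      refine Nat.le_floor (le_trans ?_ ha.2.2.2)
      rw [Nat.cast_le, fib, ← Set.ncard_coe_finset]
      refine Set.ncard_le_ncard ?_ (hcf.subset (Set.sep_subset _ _))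
      intro y hy
      rw [Finset.mem_coe, Finset.mem_filter, Set.Finite.mem_toFinset] at hy
      refine ⟨hy.1.1, li_prp ha.2.1 hy.1.2.1 (hx a ha.2.1) ?_⟩
      rw [← hy.2]
      exact hx y hy.1.2.1
    have h6 : (G.ncard : ℝ) ≤ T * ((hG.toFinset.image x).card : ℝ) := by
      rw [Set.ncard_eq_toFinset_card G hG]
      calc (hG.toFinset.card : ℝ) ≤ ((⌊T⌋₊ * (hG.toFinset.image x).card : ℕ) : ℝ) := by
            exact_mod_cast h5
        _ = (⌊T⌋₊ : ℝ) * ((hG.toFinset.image x).card : ℝ) := by push_cast; rfl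
        _ ≤ T * ((hG.toFinset.image x).card : ℝ) :=
            mul_le_mul_of_nonneg_right (Nat.floor_le hT.le) (by positivity)
    have h7 : c₁ * R ^ e ≤ ((hG.toFinset.image x).card : ℝ) := by
      have h8 := hcard.trans h6
      rw [mul_comm T] at h8
      exact le_of_mul_le_mul_right h8 hT
    refine le_trans ?_ h7
    calc c₁ * (((n : ℝ) + 1) ^ e)⁻¹ * B ^ ((n : ℝ) - 1 - δ - η)
        = c₁ * (B ^ ((n : ℝ) - 1 - δ - η) * (((n : ℝ) + 1) ^ e)⁻¹) := by ring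
      _ ≤ c₁ * R ^ e := mul_le_mul_of_nonneg_left hRe hc₁.le
  · intro z hz
    obtain ⟨y, hy, rfl⟩ := Finset.mem_image.1 hz
    rw [Set.Finite.mem_toFinset] at hy
    have hg0 : aeval (x y) g ≠ 0 := by
      intro h0
      obtain ⟨c, hc⟩ := eq_smul_of_root k _ _ hy.2.1 hg (x y) (hx y hy.2.1) h0
      have h5 : g.natDegree ≤ n := by
        rw [hc]
        exact (natDegree_C_mul_le _ _).trans ((natDegree_map_le).trans (li_natDegree y))
      omega
    obtain ⟨h5, h6, h7⟩ := hprox R ((le_max_right _ _).trans hR) y hy.1 hy.2.1 hy.2.2.1 (x y)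
      (hx y hy.2.1) hg0
    exact ⟨h5, h6.trans hRB.le, hg0, h7⟩

end Pool.Agent.AASL
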