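import Pool.Agent.AASL.Forms
import Pool.Agent.SST.RedZ

/-!
# A reduced basis for the cell
-/

set_option autoImplicit false

open NumberField Module

namespace Pool.Agent.AASL

private theorem adj_bound {N : ℕ} (g : Matrix (Fin N) (Fin N) ℝ) {c : ℝ} (hc : 1 ≤ c)
    (hg : ∀ i j, |g i j| ≤ c) (i j : Fin N) : |g.adjugate i j| ≤ N.factorial * c ^ N := by
  rw [Matrix.adjugate_apply]
  refine SST.abs_det_le _ c fun a b => ?_
  by_cases ha : a = j
  · subst ha
    rw [Matrix.updateRow_self]
    by_cases hb : b = i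
    · subst hb
      rw [Pi.single_eq_same, abs_one]
      exact hc
    · rw [Pi.single_eq_of_ne hb, abs_zero]
      linarith
  · rw [Matrix.updateRow_ne ha]
    exact hg a b

private theorem cramer_bound {N : ℕ} (g : Matrix (Fin N) (Fin N) ℝ) {c : ℝ} (hc : 1 ≤ c)
    (hg : ∀ i j, |g i j| ≤ c) (hdet : 1 / c ≤ |g.det|) (s b : Fin N → ℝ)
    (h : g.mulVec s = b) {B : ℝ} (hb : ∀ j, |b j| ≤ B) (i : Fin N) :
    |s i| ≤ c * (N * (N.factorial * c ^ N)) * B := by
  have hc0 : 0 < c := by linarith
  have h1 : g.det • s = g.adjugate.mulVec b := by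
    rw [← h, Matrix.mulVec_mulVec, Matrix.adjugate_mul, Matrix.smul_mulVec, Matrix.one_mulVec]
  have h2 : g.det * s i = ∑ j, g.adjugate i j * b j := congrFun h1 i
  have h3 : |g.det * s i| ≤ N * (N.factorial * c ^ N * B) := by
    rw [h2]
    refine (Finset.abs_sum_le_sum_abs _ _).trans ?_
    have h4 : ∀ j ∈ (Finset.univ : Finset (Fin N)),
        |g.adjugate i j * b j| ≤ N.factorial * c ^ N * B := by
      intro j _
      rw [abs_mul]
      exact mul_le_mul (adj_bound g hc hg i j) (hb j) (abs_nonneg _) (by positivity)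
    refine (Finset.sum_le_card_nsmul _ _ _ h4).trans ?_
    rw [Finset.card_univ, Fintype.card_fin, nsmul_eq_mul]
  rw [abs_mul] at h3
  have h5 : 1 / c * |s i| ≤ |g.det| * |s i| := mul_le_mul_of_nonneg_right hdet (abs_nonneg _)
  have h6 := h5.trans h3
  rw [div_mul_eq_mul_div, one_mul, div_le_iff₀ hc0] at h6
  linarith

private theorem prod_ite_val {N r : ℕ} (hr : r ≤ N) (R S : ℝ) :
    ∏ j : Fin N, (if (j : ℕ) < r then S else R) = R ^ (N - r) * S ^ r := by
  rw [Finset.prod_ite, Finset.prod_const, Finset.prod_const]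
  have h1 : (Finset.univ.filter fun j : Fin N => (j : ℕ) < r).card = r := by
    rw [Fin.card_filter_val_lt, min_eq_right hr]
  have h2 : (Finset.univ.filter fun j : Fin N => ¬ (j : ℕ) < r).card = N - r := by
    have h3 := Finset.card_filter_add_card_filter_not (s := (Finset.univ : Finset (Fin N)))
      (p := fun j : Fin N => (j : ℕ) < r)
    rw [h1, Finset.card_univ, Fintype.card_fin] at h3
    omega
  rw [h1, h2, mul_comm]

/-- Let `ω`, `A` be as in `exists_forms` and let `A'` be the matrix `A` with the first `rk τ α` rows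
divided by `S` and the others divided by `R`, so that `|det A'| = |det A| / (R ^ (N - rk) * S ^ rk)`
(`1 ≤ rk ≤ 2 ≤ n + 1 ≤ N`). Take the reduced basis of `Pool.Agent.SST.exists_redZ N` for `A'`
(structure `RedZ` in `Pool.Agent.SST.SpecDefs`). `upper` gives the membership in the cells (for
`S ≤ R`: the first `rk` entries of `A z` are at most `c lam S ≤ c lam R`). The coordinates `t` of
`D z`, `D = |det y|`, are `D` times the solution of the linear system with the matrix
`(A' y_i)_j / lam i`, whose entries are at most `c` and whose determinant is at least `1 / c`, so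
its inverse is bounded (adjugate). `D ≤ c` by `index`. -/
theorem exists_basis {k : Type} [Field k] [NumberField k] (τ : k →+* ℂ) (α : ℂ) (n : ℕ)
    (hn : 1 ≤ n) : ∃ (C : ℝ) (I : ℕ), 1 ≤ C ∧ 1 ≤ I ∧ ∀ R S : ℝ, 0 < S → S ≤ R →
      ∃ (y : Fin ((n + 1) * finrank ℚ k) → Fin (n + 1) → 𝓞 k)
        (lam : Fin ((n + 1) * finrank ℚ k) → ℝ) (D : ℕ), Monotone lam ∧ (∀ i, 0 < lam i) ∧
        (∀ i, y i ∈ cell τ α n (C * lam i * R) (C * lam i * S)) ∧ LinearIndependent ℤ y ∧
        1 ≤ D ∧ D ≤ I ∧
        (∀ z : Fin (n + 1) → 𝓞 k, ∃ t : Fin ((n + 1) * finrank ℚ k) → ℤ,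
          (D : ℤ) • z = ∑ i, t i • y i ∧
          ∀ ρ : ℝ, 0 ≤ ρ → z ∈ cell τ α n (ρ * R) (ρ * S) → ∀ i, |(t i : ℝ)| ≤ C * ρ / lam i) ∧
        ∏ i, lam i ≤ C / (R ^ ((n + 1) * finrank ℚ k - rk τ α) * S ^ rk τ α) := by
  obtain ⟨C0, ω, A, hC0, hA, hforms⟩ := exists_forms τ α n hn
  obtain ⟨C1, hC1, hred⟩ := SST.exists_redZ ((n + 1) * finrank ℚ k)
  have hfr : 0 < finrank ℚ k := finrank_pos
  have hN2 : 2 ≤ (n + 1) * finrank ℚ k := by nlinarith
  have hrk2 : rk τ α ≤ 2 := by
    unfold rk
    split_ifs <;> norm_num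
  have hrkN : rk τ α ≤ (n + 1) * finrank ℚ k := hrk2.trans hN2
  generalize (n + 1) * finrank ℚ k = N at ω A hA hforms hred hN2 hrkN ⊢
  generalize rk τ α = r at hforms hrk2 hrkN ⊢
  have hC1' : 0 < C1 := by linarith
  have hC0' : 0 < C0 := by linarith
  have hNR : (0 : ℝ) ≤ N := Nat.cast_nonneg N
  have hFac : (0 : ℝ) ≤ (N.factorial : ℝ) * C1 ^ N := by positivity
  have hdA : 0 ≤ |A.det| := abs_nonneg _
  -- the constants
  set K1 : ℝ := C0 * (N * C1) with hK1
  set K2 : ℝ := C1 * (N * (N.factorial * C1 ^ N)) * (C1 * C0) with hK2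
  have hK1' : 0 ≤ K1 := by positivity
  have hK2' : 0 ≤ K2 := by positivity
  have hNC : 0 ≤ (N : ℝ) * C1 := by positivity
  have hCA : 0 ≤ C1 * |A.det| := by positivity
  refine ⟨1 + N * C1 + K1 + K2 + C1 * |A.det|, ⌊C1⌋₊, by linarith,
    (Nat.one_le_floor_iff C1).2 hC1, fun R S hS hSR => ?_⟩
  have hR : 0 < R := hS.trans_le hSR
  set C : ℝ := 1 + N * C1 + K1 + K2 + C1 * |A.det| with hC
  let e : Fin N → ℝ := fun j => if (j : ℕ) < r then S else R
  have he : ∀ j, 0 < e j := by
    intro j
    simp only [e]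
    split_ifs
    · exact hS
    · exact hR
  have heR : ∀ j, e j ≤ R := by
    intro j
    simp only [e]
    split_ifs
    · exact hSR
    · exact le_rfl
  let A' : Matrix (Fin N) (Fin N) ℝ := Matrix.diagonal (fun j => (e j)⁻¹) * A
  have hA'v : ∀ (v : Fin N → ℝ) (j : Fin N), A'.mulVec v j = (e j)⁻¹ * A.mulVec v j := by
    intro v j
    simp only [A']
    rw [← Matrix.mulVec_mulVec, Matrix.mulVec_diagonal]
  have hdetA' : A'.det = A.det / (R ^ (N - r) * S ^ r) := by
    simp only [A']
    rw [Matrix.det_mul, Matrix.det_diagonal, Finset.prod_inv_distrib, prod_ite_val hrkN,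
      div_eq_inv_mul]
  have hden : 0 < R ^ (N - r) * S ^ r := by positivity
  have hA'0 : A'.det ≠ 0 := by
    rw [hdetA']
    exact div_ne_zero hA hden.ne'
  obtain ⟨y', lam, hmono, hrd, hprod⟩ := hred A' hA'0
  have hlam := hrd.pos
  -- the bounds of the coordinates
  have hup : ∀ i j, |A.mulVec (fun l => (y' i l : ℝ)) j| ≤ C1 * lam i * e j := by
    intro i j
    have h1 := hrd.upper j i
    rw [hA'v, abs_mul, abs_of_pos (inv_pos.2 (he j)), ← div_eq_inv_mul, div_le_iff₀ (he j)] at h1
    exact h1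
  set Y : Matrix (Fin N) (Fin N) ℤ := Matrix.of y' with hY
  have hYne : Y.det ≠ 0 := hrd.ne
  have hD : (Y.det.natAbs : ℝ) ≤ C1 := by
    rw [Nat.cast_natAbs, Int.cast_abs]
    exact hrd.index
  refine ⟨fun i => ∑ j, y' i j • ω j, lam, Y.det.natAbs, hmono, hlam, ?_, ?_, ?_, ?_, ?_, ?_⟩
  · -- membership in the cells
    intro i
    obtain ⟨f1, -, f3, -⟩ := hforms (y' i)
    have hli := hlam i
    constructor
    · intro a ρ
      refine (f3 a ρ).trans ?_
      have h1 : ∑ j, |A.mulVec (fun l => (y' i l : ℝ)) j| ≤ N * (C1 * lam i * R) := by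
        refine (Finset.sum_le_card_nsmul _ _ (C1 * lam i * R) fun j _ =>
          (hup i j).trans (mul_le_mul_of_nonneg_left (heR j) (by positivity))).trans ?_
        rw [Finset.card_univ, Fintype.card_fin, nsmul_eq_mul]
      calc C0 * ∑ j, |A.mulVec (fun l => (y' i l : ℝ)) j| ≤ C0 * (N * (C1 * lam i * R)) :=
            mul_le_mul_of_nonneg_left h1 hC0'.le
        _ = K1 * lam i * R := by rw [hK1]; ring
        _ ≤ C * lam i * R := by
            refine mul_le_mul_of_nonneg_right (mul_le_mul_of_nonneg_right ?_ hli.le) hR.le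
            rw [hC]
            linarith
    · refine f1.trans ?_
      have h1 : ∑ j ∈ Finset.univ.filter (fun j : Fin N => (j : ℕ) < r),
          |A.mulVec (fun l => (y' i l : ℝ)) j| ≤ N * (C1 * lam i * S) := by
        have h2 : ∀ j ∈ Finset.univ.filter (fun j : Fin N => (j : ℕ) < r),
            |A.mulVec (fun l => (y' i l : ℝ)) j| ≤ C1 * lam i * S := by
          intro j hj
          have h3 := hup i j
          have h4 : e j = S := if_pos (Finset.mem_filter.1 hj).2
          rwa [h4] at h3
        refine (Finset.sum_le_card_nsmul _ _ _ h2).trans ?_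
        rw [nsmul_eq_mul, Fin.card_filter_val_lt, min_eq_right hrkN]
        exact mul_le_mul_of_nonneg_right (by exact_mod_cast hrkN) (by positivity)
      calc _ ≤ N * (C1 * lam i * S) := h1
        _ = (N * C1) * lam i * S := by ring
        _ ≤ C * lam i * S := by
            refine mul_le_mul_of_nonneg_right (mul_le_mul_of_nonneg_right ?_ hli.le) hS.le
            rw [hC]
            linarith
  · -- linear independence
    rw [Fintype.linearIndependent_iff]
    intro c hc
    have h1 : Matrix.vecMul c Y = 0 := by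
      funext j
      have h2 : ∑ i, c i • ∑ j, y' i j • ω j = ∑ j, (∑ i, c i * y' i j) • ω j := by
        simp only [Finset.smul_sum, Finset.sum_smul, mul_smul]
        rw [Finset.sum_comm]
      rw [h2] at hc
      have h3 := Fintype.linearIndependent_iff.1 ω.linearIndependent _ hc j
      simpa [Matrix.vecMul, dotProduct, hY] using h3
    exact fun i => congrFun (Matrix.eq_zero_of_vecMul_eq_zero hYne h1) i
  · exact Int.natAbs_pos.2 hYne
  · exact Nat.le_floor hD
  · -- coordinates
    intro z
    set v : Fin N → ℤ := fun j => ω.repr z j with hv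
    have hz : ∑ j, v j • ω j = z := ω.sum_repr z
    set t : Fin N → ℤ := fun i => Y.det.sign * Matrix.vecMul v Y.adjugate i with ht
    have htY : Matrix.vecMul t Y = fun j => (Y.det.natAbs : ℤ) * v j := by
      have h1 : t = Y.det.sign • Matrix.vecMul v Y.adjugate := rfl
      rw [h1, Matrix.smul_vecMul, Matrix.vecMul_vecMul, Matrix.adjugate_mul]
      funext j
      rw [Pi.smul_apply, Matrix.vecMul_smul, Matrix.vecMul_one, Pi.smul_apply, smul_eq_mul,
        smul_eq_mul, ← mul_assoc, Int.sign_mul_self_eq_abs, Int.abs_eq_natAbs]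
    have htj : ∀ j, ∑ i, t i * y' i j = (Y.det.natAbs : ℤ) * v j := by
      intro j
      have h1 := congrFun htY j
      simpa [Matrix.vecMul, dotProduct, hY] using h1
    refine ⟨t, ?_, fun ρ hρ hcell i => ?_⟩
    · have h2 : ∑ i, t i • ∑ j, y' i j • ω j = ∑ j, (∑ i, t i * y' i j) • ω j := by
        simp only [Finset.smul_sum, Finset.sum_smul, mul_smul]
        rw [Finset.sum_comm]
      rw [h2]
      simp only [htj, mul_smul]
      rw [← Finset.smul_sum, hz]
    · obtain ⟨-, f2, -, f4⟩ := hforms v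
      rw [hz] at f2 f4
      obtain ⟨hc1, hc2⟩ := hcell
      have hAv : ∀ j, |A'.mulVec (fun l => (v l : ℝ)) j| ≤ C0 * ρ := by
        intro j
        rw [hA'v, abs_mul, abs_of_pos (inv_pos.2 (he j)), ← div_eq_inv_mul, div_le_iff₀ (he j)]
        by_cases hj : (j : ℕ) < r
        · have h4 : e j = S := if_pos hj
          rw [h4]
          refine (f2 j hj).trans ?_
          rw [mul_assoc]
          exact mul_le_mul_of_nonneg_left hc2 hC0'.le
        · have h4 : e j = R := if_neg hj
          rw [h4]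
          refine (f4 (ρ * R) hc1 j).trans ?_
          rw [mul_assoc]
      set g : Matrix (Fin N) (Fin N) ℝ := Matrix.of fun j i =>
        A'.mulVec (fun l => (y' i l : ℝ)) j / lam i with hg
      have hgb : ∀ j i, |g j i| ≤ C1 := by
        intro j i
        rw [hg, Matrix.of_apply, abs_div, abs_of_pos (hlam i), div_le_iff₀ (hlam i)]
        exact hrd.upper j i
      have hgs : g.mulVec (fun i => (t i : ℝ) * lam i) =
          fun j => (Y.det.natAbs : ℝ) * A'.mulVec (fun l => (v l : ℝ)) j := by
        funext j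
        have h5 : ∀ i, g j i * ((t i : ℝ) * lam i) =
            (t i : ℝ) * A'.mulVec (fun l => (y' i l : ℝ)) j := by
          intro i
          rw [hg, Matrix.of_apply]
          field_simp [(hlam i).ne']
        have h6 : ∀ l, ∑ i, (t i : ℝ) * (y' i l : ℝ) = (Y.det.natAbs : ℝ) * (v l : ℝ) := by
          intro l
          have h7 := htj l
          have h8 : ((∑ i, t i * y' i l : ℤ) : ℝ) = (((Y.det.natAbs : ℤ) * v l : ℤ) : ℝ) := by
            rw [h7]
          rw [Int.cast_sum, Int.cast_mul, Int.cast_natCast] at h8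
          rw [← h8]
          exact Finset.sum_congr rfl fun i _ => (Int.cast_mul _ _).symm
        calc g.mulVec (fun i => (t i : ℝ) * lam i) j = ∑ i, g j i * ((t i : ℝ) * lam i) := rfl
          _ = ∑ i, (t i : ℝ) * ∑ l, A' j l * (y' i l : ℝ) := Finset.sum_congr rfl fun i _ => h5 i
          _ = ∑ l, A' j l * ∑ i, (t i : ℝ) * (y' i l : ℝ) := by
              simp only [Finset.mul_sum]
              rw [Finset.sum_comm]
              refine Finset.sum_congr rfl fun l _ => Finset.sum_congr rfl fun i _ => ?_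
              ring
          _ = (Y.det.natAbs : ℝ) * ∑ l, A' j l * (v l : ℝ) := by
              rw [Finset.mul_sum]
              refine Finset.sum_congr rfl fun l _ => ?_
              rw [h6]
              ring
      have hb : ∀ j, |(fun j => (Y.det.natAbs : ℝ) * A'.mulVec (fun l => (v l : ℝ)) j) j| ≤
          C1 * C0 * ρ := by
        intro j
        simp only
        rw [abs_mul, Nat.abs_cast, mul_assoc]
        exact mul_le_mul hD (hAv j) (abs_nonneg _) hC1'.le
      have h9 : |(t i : ℝ) * lam i| ≤ C1 * (N * (N.factorial * C1 ^ N)) * (C1 * C0 * ρ) :=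
        cramer_bound g hC1 hgb hrd.lower _ _ hgs hb i
      rw [abs_mul, abs_of_pos (hlam i)] at h9
      rw [le_div_iff₀ (hlam i)]
      refine h9.trans ?_
      calc C1 * (N * (N.factorial * C1 ^ N)) * (C1 * C0 * ρ) = K2 * ρ := by rw [hK2]; ring
        _ ≤ C * ρ := by
            refine mul_le_mul_of_nonneg_right ?_ hρ
            rw [hC]
            linarith
  · refine hprod.trans ?_
    rw [hdetA', abs_div, abs_of_pos hden, ← mul_div_assoc]
    refine div_le_div_of_nonneg_right ?_ hden.le
    rw [hC]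
    linarith

end Pool.Agent.AASL
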