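import Pool.Agent.AAS.Defs
import Pool.Agent.AAL.Defs

/-!
# Polynomials with a small value at one point: definitions

The polynomial with the coefficients `y` is `Pool.Agent.AAL.form X y`. For an embedding `τ` of the
number field `k` in the complex numbers and a complex number `α` we consider the polynomials whose
coefficients have conjugates of size at most `R` and whose value at `α` has size at most `S`.
-/

set_option autoImplicit false

open NumberField Module

namespace Pool.Agent.AASL

variable {k : Type} [Field k] [NumberField k] {n : ℕ}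

/-- the value at `α` of the polynomial with the coefficients `y` -/
noncomputable def ev (τ : k →+* ℂ) (α : ℂ) (y : Fin (n + 1) → 𝓞 k) : ℂ :=
  ∑ i : Fin (n + 1), τ (y i : k) * α ^ (i : ℕ)

/-- the polynomials of size `R` with a value of size `S` at `α` -/
def cell (τ : k →+* ℂ) (α : ℂ) (n : ℕ) (R S : ℝ) : Set (Fin (n + 1) → 𝓞 k) :=
  {y | (∀ i (ρ : k →+* ℂ), ‖ρ (y i : k)‖ ≤ R) ∧ ‖ev τ α y‖ ≤ S}

/-- the embedding is real -/
def IsRl (τ : k →+* ℂ) : Prop := ∀ x, starRingEnd ℂ (τ x) = τ x

open Classical in
/-- the number of real conditions -/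
noncomputable def rk (τ : k →+* ℂ) (α : ℂ) : ℕ :=
  if IsRl τ ∧ starRingEnd ℂ α = α then 1 else 2

/-- `y'` is a multiple of `y` -/
def Prp (y y' : Fin (n + 1) → 𝓞 k) : Prop := ∃ c : k, ∀ i, (y' i : k) = c * y i

/-- the number of the multiples of `y` in the cell -/
noncomputable def fib (τ : k →+* ℂ) (α : ℂ) (R S : ℝ) (y : Fin (n + 1) → 𝓞 k) : ℕ :=
  {y' ∈ cell τ α n R S | Prp y y'}.ncard

end Pool.Agent.AASL
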