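import Pool.Agent.AASL.Basis

/-!
# The growth of the number of points under scaling
-/

set_option autoImplicit false

open NumberField Module

namespace Pool.Agent.AASL

section

variable {k : Type} [Field k] {n : ℕ}

private theorem scale_coe_add (x y : 𝓞 k) : ((x + y : 𝓞 k) : k) = x + y :=
  map_add (algebraMap (𝓞 k) k) x y

private theorem scale_coe_mul (x y : 𝓞 k) : ((x * y : 𝓞 k) : k) = x * y :=
  map_mul (algebraMap (𝓞 k) k) x y

private theorem scale_coe_int (a : ℤ) : (((a : ℤ) : 𝓞 k) : k) = a :=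
  map_intCast (algebraMap (𝓞 k) k) a

private theorem scale_ev_add (τ : k →+* ℂ) (α : ℂ) (y y' : Fin (n + 1) → 𝓞 k) :
    ev τ α (y + y') = ev τ α y + ev τ α y' := by
  simp only [ev, Pi.add_apply, map_add, add_mul, Finset.sum_add_distrib]

private theorem scale_ev_smul (τ : k →+* ℂ) (α : ℂ) (x : 𝓞 k) (y : Fin (n + 1) → 𝓞 k) :
    ev τ α (x • y) = τ (x : k) * ev τ α y := by
  rw [ev, ev, Finset.mul_sum]
  refine Finset.sum_congr rfl fun i _ => ?_
  rw [Pi.smul_apply, smul_eq_mul, scale_coe_mul, map_mul, mul_assoc]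

private theorem scale_cell_zero (τ : k →+* ℂ) (α : ℂ) :
    (0 : Fin (n + 1) → 𝓞 k) ∈ cell τ α n 0 0 := by
  refine ⟨fun i ρ => ?_, ?_⟩
  · simp
  · simp [ev]

private theorem scale_cell_add (τ : k →+* ℂ) (α : ℂ) {R S R' S' : ℝ} {y y' : Fin (n + 1) → 𝓞 k}
    (hy : y ∈ cell τ α n R S) (hy' : y' ∈ cell τ α n R' S') :
    y + y' ∈ cell τ α n (R + R') (S + S') := by
  refine ⟨fun i ρ => ?_, ?_⟩
  · rw [Pi.add_apply, scale_coe_add, map_add]
    exact (norm_add_le _ _).trans (add_le_add (hy.1 i ρ) (hy'.1 i ρ))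
  · rw [scale_ev_add]
    exact (norm_add_le _ _).trans (add_le_add hy.2 hy'.2)

private theorem scale_cell_sum (τ : k →+* ℂ) (α : ℂ) {ι : Type} (s : Finset ι)
    (f : ι → Fin (n + 1) → 𝓞 k) (r q : ι → ℝ) (h : ∀ i ∈ s, f i ∈ cell τ α n (r i) (q i)) :
    ∑ i ∈ s, f i ∈ cell τ α n (∑ i ∈ s, r i) (∑ i ∈ s, q i) := by
  classical
  induction s using Finset.induction_on with
  | empty => simpa using scale_cell_zero τ α
  | insert a s ha ih =>
    rw [Finset.sum_insert ha, Finset.sum_insert ha, Finset.sum_insert ha]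
    exact scale_cell_add τ α (h a (Finset.mem_insert_self a s))
      (ih fun i hi => h i (Finset.mem_insert_of_mem hi))

private theorem scale_cell_smul (τ : k →+* ℂ) (α : ℂ) {R S W : ℝ} {x : 𝓞 k}
    {y : Fin (n + 1) → 𝓞 k} (hx : ∀ ρ : k →+* ℂ, ‖ρ (x : k)‖ ≤ W) (hW : 0 ≤ W)
    (hy : y ∈ cell τ α n R S) : x • y ∈ cell τ α n (W * R) (W * S) := by
  refine ⟨fun i ρ => ?_, ?_⟩
  · rw [Pi.smul_apply, smul_eq_mul, scale_coe_mul, map_mul, norm_mul]
    exact mul_le_mul (hx ρ) (hy.1 i ρ) (norm_nonneg _) hW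
  · rw [scale_ev_smul, norm_mul]
    exact mul_le_mul (hx τ) hy.2 (norm_nonneg _) hW

private theorem scale_cell_zsmul (τ : k →+* ℂ) (α : ℂ) {R S W : ℝ} {a : ℤ}
    {y : Fin (n + 1) → 𝓞 k} (ha : |(a : ℝ)| ≤ W)
    (hy : y ∈ cell τ α n R S) : a • y ∈ cell τ α n (W * R) (W * S) := by
  rw [← Int.cast_smul_eq_zsmul (𝓞 k)]
  refine scale_cell_smul τ α (fun ρ => ?_) ((abs_nonneg _).trans ha) hy
  rw [scale_coe_int, map_intCast, Complex.norm_intCast]
  exact ha

/-- independence over the ring of integers -/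
private theorem scale_ind {y y' : Fin (n + 1) → 𝓞 k} (hy : y ≠ 0) (hyy' : ¬ Prp y y') (a b : 𝓞 k)
    (h : a • y + b • y' = 0) : a = 0 ∧ b = 0 := by
  have hb : b = 0 := by
    by_contra hb
    apply hyy'
    have hb' : (b : k) ≠ 0 := fun h0 => hb (RingOfIntegers.coe_eq_zero_iff.mp h0)
    refine ⟨-(a : k) / b, fun i => ?_⟩
    have h1 := congrFun h i
    simp only [Pi.add_apply, Pi.smul_apply, smul_eq_mul, Pi.zero_apply] at h1
    have h2 : (a : k) * (y i : k) + (b : k) * (y' i : k) = 0 := by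
      have := congrArg (algebraMap (𝓞 k) k) h1
      simpa using this
    field_simp
    linear_combination h2
  refine ⟨?_, hb⟩
  by_contra ha
  apply hy
  rw [hb, zero_smul, add_zero] at h
  funext i
  have h1 := congrFun h i
  rw [Pi.smul_apply, smul_eq_mul, Pi.zero_apply] at h1
  exact (mul_eq_zero.mp h1).resolve_left ha

end

/-- Let `d = [k : ℚ]`, let `ω_j`, `j < d`, be a basis of `𝓞 k` over `ℤ` and `W` the maximum of their
conjugates. The `2 d` vectors `ω_j y`, `ω_j y'` are in the cell scaled by `W` and independent over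
`ℤ` (`y`, `y'` are independent over `k`). Let `y_i, lam_i, D` be the basis of `exists_basis` for
`R, S`. If `z` is in the cell scaled by `W` then the coordinates `t_i` of `D z` are at most
`C W / lam_i`, so `t_i = 0` if `lam_i > C W`. Hence at least `2 d` of the `lam_i` are at most `C W`.
The number of the elements of the cell is at most the number of the vectors `t` of integers with
`|t_i| ≤ C / lam_i`, at most `∏ (2 C / lam_i + 1) ≤ const * ∏ over lam_i ≤ C W of 1 / lam_i` (a
factor is `1` if `lam_i > C W ≥ C`, where `W ≥ 1`). The cell scaled by `t` contains the combinations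
`∑ a_i y_i` with `|a_i| ≤ t / (N C lam_i)`, whose number is at least
`∏ max 1 (t / (N C lam_i)) ≥ const * t ^ (2 d) * ∏ over lam_i ≤ C W of 1 / lam_i` (for `t ≥ 1`). -/
theorem scale_count {k : Type} [Field k] [NumberField k] (τ : k →+* ℂ) (α : ℂ) (n : ℕ)
    (hn : 1 ≤ n) : ∃ c : ℝ, 0 < c ∧ ∀ R S t : ℝ, 0 < S → S ≤ R → 1 ≤ t →
      (∃ y ∈ cell τ α n R S, ∃ y' ∈ cell τ α n R S, y ≠ 0 ∧ ¬ Prp y y') →
      c * t ^ (2 * finrank ℚ k) * ((cell τ α n R S).ncard : ℝ) ≤
        ((cell τ α n (t * R) (t * S)).ncard : ℝ) := by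
  classical
  obtain ⟨C, I, hC, hI, hbasis⟩ := exists_basis τ α n hn
  have hd : 0 < finrank ℚ k := finrank_pos
  obtain ⟨ω⟩ : Nonempty (Basis (Fin (finrank ℚ k)) ℤ (𝓞 k)) :=
    ⟨Module.finBasisOfFinrankEq ℤ (𝓞 k) (RingOfIntegers.rank k)⟩
  obtain ⟨W, hW1, hW⟩ : ∃ W : ℝ, 1 ≤ W ∧ ∀ j (ρ : k →+* ℂ), ‖ρ (ω j : k)‖ ≤ W := by
    refine ⟨1 + ∑ j, ∑ ρ : k →+* ℂ, ‖ρ (ω j : k)‖, ?_, fun j ρ => ?_⟩
    · have : 0 ≤ ∑ j, ∑ ρ : k →+* ℂ, ‖ρ (ω j : k)‖ :=
        Finset.sum_nonneg fun _ _ => Finset.sum_nonneg fun _ _ => norm_nonneg _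
      linarith
    · have h1 : ‖ρ (ω j : k)‖ ≤ ∑ ρ : k →+* ℂ, ‖ρ (ω j : k)‖ :=
        Finset.single_le_sum (f := fun ρ : k →+* ℂ => ‖ρ (ω j : k)‖)
          (fun _ _ => norm_nonneg _) (Finset.mem_univ ρ)
      have h2 : ∑ ρ : k →+* ℂ, ‖ρ (ω j : k)‖ ≤ ∑ j, ∑ ρ : k →+* ℂ, ‖ρ (ω j : k)‖ :=
        Finset.single_le_sum (f := fun j => ∑ ρ : k →+* ℂ, ‖ρ (ω j : k)‖)
          (fun _ _ => Finset.sum_nonneg fun _ _ => norm_nonneg _) (Finset.mem_univ j)
      linarith
  set N : ℕ := (n + 1) * finrank ℚ k with hN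
  have hN1 : 1 ≤ N := Nat.mul_pos (Nat.succ_pos n) hd
  have hN1' : (1 : ℝ) ≤ N := by exact_mod_cast hN1
  have hC0 : 0 < C := by linarith
  have hW0 : 0 < W := by linarith
  have hB1 : 1 ≤ (N : ℝ) * C * (C * (2 + W)) := by
    have h1 : 1 ≤ (N : ℝ) * C := one_le_mul_of_one_le_of_one_le hN1' hC
    have h2 : 1 ≤ C * (2 + W) := one_le_mul_of_one_le_of_one_le hC (by linarith)
    exact one_le_mul_of_one_le_of_one_le h1 h2
  set B : ℝ := (N : ℝ) * C * (C * (2 + W)) with hB
  have hB0 : 0 < B := by linarith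
  refine ⟨(B ^ N)⁻¹, by positivity, ?_⟩
  rintro R S t hS hSR ht ⟨y, hy, y', hy', hy0, hyy'⟩
  have ht0 : 0 < t := by linarith
  obtain ⟨v, lam, D, hmono, hlam, hv, hvli, hD, hDI, hz, -⟩ := hbasis R S hS hSR
  have hR : 0 < R := by linarith
  -- coordinates determine the vector
  have hdet : ∀ z z' : Fin (n + 1) → 𝓞 k, (D : ℤ) • z = (D : ℤ) • z' → z = z' := by
    intro z z' h
    have hD0 : (D : ℤ) ≠ 0 := by exact_mod_cast (by omega : D ≠ 0)
    exact smul_right_injective _ hD0 h
  -- upper bound for the number of elements of a cell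
  have hupper : ∀ ρ : ℝ, 0 ≤ ρ → (cell τ α n (ρ * R) (ρ * S)).Finite ∧
      ((cell τ α n (ρ * R) (ρ * S)).ncard : ℝ) ≤
        ∏ i, (2 * (⌊C * ρ / lam i⌋₊ : ℝ) + 1) := by
    intro ρ hρ
    choose f hf hfb using hz
    let F : Finset (Fin N → ℤ) := Fintype.piFinset fun i =>
      Finset.Icc (-(⌊C * ρ / lam i⌋₊ : ℤ)) (⌊C * ρ / lam i⌋₊ : ℤ)
    have hmaps : ∀ z ∈ cell τ α n (ρ * R) (ρ * S), f z ∈ (F : Set (Fin N → ℤ)) := by
      intro z hz1
      rw [Finset.mem_coe, Fintype.mem_piFinset]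
      intro i
      have h1 := hfb z ρ hρ hz1 i
      have h2 : (f z i).natAbs ≤ ⌊C * ρ / lam i⌋₊ := by
        apply Nat.le_floor
        rw [Nat.cast_natAbs, Int.cast_abs]
        exact h1
      rw [Finset.mem_Icc]
      omega
    have hinj : Set.InjOn f (cell τ α n (ρ * R) (ρ * S)) := by
      intro z _ z' _ h
      apply hdet
      rw [hf z, hf z', h]
    have hfin : (cell τ α n (ρ * R) (ρ * S)).Finite :=
      Set.Finite.of_injOn hmaps hinj F.finite_toSet
    refine ⟨hfin, ?_⟩
    have h3 := Set.ncard_le_ncard_of_injOn f hmaps hinj F.finite_toSet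
    rw [Set.ncard_coe_finset, Fintype.card_piFinset] at h3
    have h4 : ((cell τ α n (ρ * R) (ρ * S)).ncard : ℝ) ≤
        ((∏ i, (Finset.Icc (-(⌊C * ρ / lam i⌋₊ : ℤ)) (⌊C * ρ / lam i⌋₊ : ℤ)).card : ℕ) : ℝ) := by
      exact_mod_cast h3
    refine h4.trans (le_of_eq ?_)
    rw [Nat.cast_prod]
    refine Finset.prod_congr rfl fun i _ => ?_
    rw [Int.card_Icc]
    have h5 : ((⌊C * ρ / lam i⌋₊ : ℤ) + 1 - -(⌊C * ρ / lam i⌋₊ : ℤ)).toNat =
        2 * ⌊C * ρ / lam i⌋₊ + 1 := by omega
    rw [h5]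
    push_cast
    ring
  -- the small elements
  set J : Finset (Fin N) := Finset.univ.filter fun i => lam i ≤ C * W with hJ
  have hJcard : 2 * finrank ℚ k ≤ J.card := by
    set M : Submodule ℤ (Fin (n + 1) → 𝓞 k) :=
      Submodule.span ℤ ((J.image v : Finset (Fin (n + 1) → 𝓞 k)) : Set (Fin (n + 1) → 𝓞 k))
      with hM
    have hMz : ∀ (x : Fin (n + 1) → 𝓞 k), x ∈ cell τ α n R S → ∀ a : 𝓞 k,
        (D : ℤ) • (a • x) ∈ M := by
      intro x hx a
      have h1 : ∀ j, (D : ℤ) • (ω j • x) ∈ M := by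
        intro j
        obtain ⟨t', ht', htb⟩ := hz (ω j • x)
        rw [ht']
        refine Submodule.sum_mem _ fun i _ => ?_
        by_cases hi : i ∈ J
        · exact Submodule.smul_mem _ _ (Submodule.subset_span
            (Finset.mem_coe.mpr (Finset.mem_image_of_mem v hi)))
        · have hi' : C * W < lam i := by
            rw [hJ, Finset.mem_filter] at hi
            push Not at hi
            exact hi (Finset.mem_univ i)
          have h2 := htb W hW0.le (scale_cell_smul τ α (hW j) hW0.le hx) i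
          have h3 : |(t' i : ℝ)| < 1 := lt_of_le_of_lt h2 ((div_lt_one (hlam i)).mpr hi')
          have h4 : t' i = 0 := by
            rw [← Int.cast_abs] at h3
            have : |t' i| < 1 := by exact_mod_cast h3
            exact Int.abs_lt_one_iff.mp this
          rw [h4, zero_smul]
          exact Submodule.zero_mem _
      have h5 : (D : ℤ) • (a • x) = ∑ j, (ω.repr a j) • ((D : ℤ) • (ω j • x)) := by
        conv_lhs => rw [← ω.sum_repr a]
        rw [Finset.sum_smul, Finset.smul_sum]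
        refine Finset.sum_congr rfl fun j _ => ?_
        rw [smul_assoc, smul_comm]
      rw [h5]
      exact Submodule.sum_mem _ fun j _ => Submodule.smul_mem _ _ (h1 j)
    have hMab : ∀ p : 𝓞 k × 𝓞 k, (D : ℤ) • (p.1 • y + p.2 • y') ∈ M := by
      intro p
      rw [smul_add]
      exact Submodule.add_mem _ (hMz y hy p.1) (hMz y' hy' p.2)
    let L : (𝓞 k × 𝓞 k) →ₗ[ℤ] M :=
      { toFun := fun p => ⟨(D : ℤ) • (p.1 • y + p.2 • y'), hMab p⟩
        map_add' := by
          intro p q
          ext1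
          simp only [Prod.fst_add, Prod.snd_add, add_smul, Submodule.coe_add, smul_add]
          abel
        map_smul' := by
          intro a p
          ext1
          simp only [Prod.smul_fst, Prod.smul_snd, RingHom.id_apply, SetLike.val_smul]
          rw [smul_comm a (D : ℤ), smul_add a, smul_assoc, smul_assoc] }
    have hLinj : Function.Injective L := by
      rw [injective_iff_map_eq_zero]
      rintro ⟨a, b⟩ hab
      have h1 : (D : ℤ) • (a • y + b • y') = 0 := congrArg Subtype.val hab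
      have h2 : a • y + b • y' = 0 := by
        apply hdet
        rw [h1, smul_zero]
      obtain ⟨ha, hb⟩ := scale_ind hy0 hyy' a b h2
      rw [ha, hb]
      rfl
    have h6 : finrank ℤ (𝓞 k × 𝓞 k) ≤ finrank ℤ M := LinearMap.finrank_le_finrank_of_injective hLinj
    rw [Module.finrank_prod, RingOfIntegers.rank] at h6
    have h7 : finrank ℤ M ≤ (J.image v).card := finrank_span_finset_le_card _
    have h8 : (J.image v).card ≤ J.card := Finset.card_image_le
    omega
  -- the upper bound for the cell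
  have hup : ((cell τ α n R S).ncard : ℝ) ≤ ∏ i ∈ J, (C * (2 + W) / lam i) := by
    have h1 := (hupper 1 zero_le_one).2
    rw [one_mul, one_mul] at h1
    refine h1.trans ?_
    have h2 : ∏ i ∈ J, (C * (2 + W) / lam i) =
        ∏ i, (if lam i ≤ C * W then C * (2 + W) / lam i else 1) := by
      rw [hJ, Finset.prod_filter]
    rw [h2]
    refine Finset.prod_le_prod (fun i _ => by positivity) fun i _ => ?_
    have hli := hlam i
    split_ifs with hi
    · have h3 : (⌊C * 1 / lam i⌋₊ : ℝ) ≤ C * 1 / lam i := Nat.floor_le (by positivity)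
      have h4 : 1 ≤ C * W / lam i := (one_le_div hli).mpr hi
      have h5 : C * (2 + W) / lam i = 2 * (C * 1 / lam i) + C * W / lam i := by
        field_simp
      rw [h5]
      linarith
    · push Not at hi
      have h3 : ⌊C * 1 / lam i⌋₊ = 0 := by
        rw [Nat.floor_eq_zero, div_lt_one hli]
        have : C * 1 ≤ C * W := mul_le_mul_of_nonneg_left hW1 hC0.le
        linarith
      rw [h3]
      simp
  -- the lower bound for the scaled cell
  have hlow : ∏ i ∈ J, (t / (N * C * lam i)) ≤ ((cell τ α n (t * R) (t * S)).ncard : ℝ) := by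
    let F : Finset (Fin N → ℤ) := Fintype.piFinset fun i =>
      Finset.Icc 0 (⌊t / (N * C * lam i)⌋₊ : ℤ)
    let f : (Fin N → ℤ) → (Fin (n + 1) → 𝓞 k) := fun a => ∑ i, a i • v i
    have hmaps : ∀ a ∈ (F : Set (Fin N → ℤ)), f a ∈ cell τ α n (t * R) (t * S) := by
      intro a ha
      rw [Finset.mem_coe, Fintype.mem_piFinset] at ha
      have h1 : ∀ i ∈ (Finset.univ : Finset (Fin N)),
          a i • v i ∈ cell τ α n (t / N * R) (t / N * S) := by
        intro i _
        have hli := hlam i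
        have h2 := Finset.mem_Icc.mp (ha i)
        have h3 : |(a i : ℝ)| ≤ t / (N * C * lam i) := by
          rw [abs_of_nonneg (by exact_mod_cast h2.1)]
          have h4 : (a i : ℝ) ≤ (⌊t / (N * C * lam i)⌋₊ : ℝ) := by exact_mod_cast h2.2
          exact h4.trans (Nat.floor_le (by positivity))
        have h5 := scale_cell_zsmul τ α h3 (hv i)
        have h6 : t / (N * C * lam i) * (C * lam i * R) = t / N * R := by
          field_simp
        have h7 : t / (N * C * lam i) * (C * lam i * S) = t / N * S := by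
          field_simp
        rwa [h6, h7] at h5
      have h8 := scale_cell_sum τ α Finset.univ (fun i => a i • v i) (fun _ => t / N * R)
        (fun _ => t / N * S) h1
      have h9 : ∑ _i : Fin N, (t / N * R) = t * R := by
        rw [Finset.sum_const, Finset.card_univ, Fintype.card_fin, nsmul_eq_mul]
        field_simp
      have h10 : ∑ _i : Fin N, (t / N * S) = t * S := by
        rw [Finset.sum_const, Finset.card_univ, Fintype.card_fin, nsmul_eq_mul]
        field_simp
      rwa [h9, h10] at h8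
    have hinj : Set.InjOn f (F : Set (Fin N → ℤ)) := by
      intro a _ b _ hab
      exact linearIndependent_iff_injective_fintypeLinearCombination.mp hvli hab
    have h3 := Set.ncard_le_ncard_of_injOn f hmaps hinj (hupper t ht0.le).1
    rw [Set.ncard_coe_finset, Fintype.card_piFinset] at h3
    have h4 : ((∏ i, (Finset.Icc 0 (⌊t / (N * C * lam i)⌋₊ : ℤ)).card : ℕ) : ℝ) ≤
        ((cell τ α n (t * R) (t * S)).ncard : ℝ) := by
      exact_mod_cast h3
    refine le_trans ?_ h4
    rw [Nat.cast_prod]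
    have h2 : ∏ i ∈ J, (t / (N * C * lam i)) =
        ∏ i, (if lam i ≤ C * W then t / (N * C * lam i) else 1) := by
      rw [hJ, Finset.prod_filter]
    rw [h2]
    refine Finset.prod_le_prod (fun i _ => ?_) fun i _ => ?_
    · have hli := hlam i
      split_ifs
      · positivity
      · exact zero_le_one
    · rw [Int.card_Icc]
      have h5 : ((⌊t / (N * C * lam i)⌋₊ : ℤ) + 1 - 0).toNat = ⌊t / (N * C * lam i)⌋₊ + 1 := by
        omega
      rw [h5, Nat.cast_add, Nat.cast_one]
      split_ifs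
      · exact (Nat.lt_floor_add_one _).le
      · have : (0 : ℝ) ≤ (⌊t / (N * C * lam i)⌋₊ : ℝ) := Nat.cast_nonneg _
        linarith
  -- comparison
  have hcomp : t ^ J.card * (B ^ J.card)⁻¹ * ∏ i ∈ J, (C * (2 + W) / lam i) =
      ∏ i ∈ J, (t / (N * C * lam i)) := by
    rw [← Finset.prod_const, ← Finset.prod_const, ← Finset.prod_inv_distrib,
      ← Finset.prod_mul_distrib, ← Finset.prod_mul_distrib]
    refine Finset.prod_congr rfl fun i _ => ?_
    have hli := hlam i
    rw [hB]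
    field_simp
  calc (B ^ N)⁻¹ * t ^ (2 * finrank ℚ k) * ((cell τ α n R S).ncard : ℝ)
      ≤ (B ^ J.card)⁻¹ * t ^ J.card * ∏ i ∈ J, (C * (2 + W) / lam i) := by
        have h1 : J.card ≤ N := by
          have := Finset.card_le_univ J
          rwa [Fintype.card_fin] at this
        have h2 : (B ^ N)⁻¹ ≤ (B ^ J.card)⁻¹ :=
          inv_anti₀ (by positivity) (pow_le_pow_right₀ hB1 h1)
        have h3 : t ^ (2 * finrank ℚ k) ≤ t ^ J.card := pow_le_pow_right₀ ht hJcard
        exact mul_le_mul (mul_le_mul h2 h3 (by positivity) (by positivity)) hup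
          (Nat.cast_nonneg _) (by positivity)
    _ = ∏ i ∈ J, (t / (N * C * lam i)) := by rw [← hcomp]; ring
    _ ≤ _ := hlow

end Pool.Agent.AASL
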