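import Pool.Agent.AASL.Fibre
import Pool.Agent.AASL.Scale
import Pool.Agent.AASL.ClassCount

/-!
# Few elements of the cell have many multiples in the cell
-/

set_option autoImplicit false

open NumberField Module

namespace Pool.Agent.AASL

section

variable {k : Type} [Field k] [NumberField k] {n : ℕ}

private theorem few_ne {c : k} {y y' : Fin (n + 1) → 𝓞 k} (h : ∀ i, (y' i : k) = c * y i)
    (h0 : y' ≠ 0) : c ≠ 0 := by
  intro hc
  apply h0
  funext i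
  have h1 := h i
  rw [hc, zero_mul] at h1
  exact RingOfIntegers.ext (by rw [h1]; rfl)

private theorem few_prp {y₁ y b : Fin (n + 1) → 𝓞 k} (hb : b ≠ 0) (h₁ : Prp y₁ b)
    (h : Prp y b) : Prp y₁ y := by
  obtain ⟨c₁, h₁⟩ := h₁
  obtain ⟨c, h⟩ := h
  have hc := few_ne h hb
  refine ⟨c⁻¹ * c₁, fun i => ?_⟩
  have h2 : c * (y i : k) = c₁ * y₁ i := by rw [← h, h₁]
  rw [mul_assoc, ← h2, ← mul_assoc, inv_mul_cancel₀ hc, one_mul]

private theorem few_trans {y₁ y b : Fin (n + 1) → 𝓞 k} (h₁ : Prp y₁ b)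
    (h : Prp b y) : Prp y₁ y := by
  obtain ⟨c₁, h₁⟩ := h₁
  obtain ⟨c, h⟩ := h
  exact ⟨c * c₁, fun i => by rw [h, h₁, mul_assoc]⟩

private theorem few_cell_mono (τ : k →+* ℂ) (α : ℂ) {R S R' S' : ℝ} (h : R ≤ R') (h' : S ≤ S') :
    cell τ α n R S ⊆ cell τ α n R' S' := fun _ hy =>
  ⟨fun i ρ => (hy.1 i ρ).trans h, hy.2.trans h'⟩

private theorem few_le_fib (τ : k →+* ℂ) (α : ℂ) {R S : ℝ} (y₁ : Fin (n + 1) → 𝓞 k)
    (s : Finset (Fin (n + 1) → 𝓞 k)) (hs : ∀ y ∈ s, y ∈ cell τ α n R S ∧ Prp y₁ y) :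
    s.card ≤ fib τ α R S y₁ := by
  rw [fib, ← Set.ncard_coe_finset]
  exact Set.ncard_le_ncard (fun y hy => hs y hy)
    ((cell_finite τ α n R S).subset fun y hy => hy.1)

private theorem few_level (d : ℕ) (hd : 0 < d) (T₀ : ℝ) (hT : 1 ≤ T₀) (f : ℕ)
    (hf : (8 * T₀) ^ d < (f : ℝ)) :
    ∃ j : ℕ, (8 * (2 ^ j * T₀)) ^ d < (f : ℝ) ∧ (f : ℝ) ≤ (16 * (2 ^ j * T₀)) ^ d := by
  classical
  have hex : ∃ j : ℕ, (f : ℝ) ≤ (16 * (2 ^ j * T₀)) ^ d := by
    refine ⟨f, ?_⟩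
    have h1 : (f : ℝ) ≤ 2 ^ f := by
      have := (Nat.lt_two_pow_self (n := f)).le
      exact_mod_cast this
    have h2 : (1 : ℝ) ≤ 2 ^ f := one_le_pow₀ (by norm_num)
    have h3 : (2 : ℝ) ^ f ≤ 16 * (2 ^ f * T₀) := by nlinarith
    have h4 : (1 : ℝ) ≤ 16 * (2 ^ f * T₀) := h2.trans h3
    calc (f : ℝ) ≤ 16 * (2 ^ f * T₀) := h1.trans h3
      _ = (16 * (2 ^ f * T₀)) ^ 1 := (pow_one _).symm
      _ ≤ _ := pow_le_pow_right₀ h4 hd
  refine ⟨Nat.find hex, ?_, Nat.find_spec hex⟩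
  rcases Nat.eq_zero_or_pos (Nat.find hex) with h0 | h0
  · rw [h0]; simpa using hf
  · have h1 := Nat.find_min hex (m := Nat.find hex - 1) (by omega)
    push Not at h1
    have h2 : (16 * (2 ^ (Nat.find hex - 1) * T₀) : ℝ) = 8 * (2 ^ Nat.find hex * T₀) := by
      obtain ⟨j, hj⟩ := Nat.exists_eq_succ_of_ne_zero h0.ne'
      rw [hj, Nat.succ_sub_one, Nat.succ_eq_add_one, pow_succ]
      ring
    rwa [h2] at h1

private theorem few_geom (d : ℕ) (hd : 0 < d) (T₀ : ℝ) (hT : 1 ≤ T₀) (N : ℕ) :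
    ∑ j ∈ Finset.range N, ((2 ^ j * T₀) ^ d)⁻¹ ≤ 2 * (T₀ ^ d)⁻¹ := by
  have hT0 : 0 < T₀ := by linarith
  have h1 : ∀ j ∈ Finset.range N, ((2 ^ j * T₀) ^ d)⁻¹ ≤ (1 / 2 : ℝ) ^ j * (T₀ ^ d)⁻¹ := by
    intro j _
    rw [mul_pow, mul_inv]
    refine mul_le_mul_of_nonneg_right ?_ (by positivity)
    rw [one_div, inv_pow]
    refine inv_anti₀ (by positivity) ?_
    calc (2 : ℝ) ^ j = (2 ^ j) ^ 1 := (pow_one _).symm
      _ ≤ (2 ^ j) ^ d := pow_le_pow_right₀ (one_le_pow₀ (by norm_num)) hd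
  refine (Finset.sum_le_sum h1).trans ?_
  rw [← Finset.sum_mul]
  refine mul_le_mul_of_nonneg_right ?_ (by positivity)
  exact sum_geometric_two_le N

end

/-- Let `d = [k : ℚ]` and `t_j = 2 ^ j * T₀`, `j ≥ 0`. An element `y ≠ 0` of the cell with
`(8 T₀) ^ d < fib y` has `(8 t_j) ^ d < fib y ≤ (8 t_(j + 1)) ^ d` for some `j`, and by
`fibre_small` its line `k y` meets the cell `K_j` of `R / t_j, S / t_j` in a nonzero element. If
`K_j` contains two nonzero elements which are not proportional, then the number of these lines is at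
most `#K_j ≤ C t_j ^ (-2 d) #cell`, so the number of these `y` is at most
`(16 t_j) ^ d * C t_j ^ (-2 d) * #cell = C' t_j ^ (-d) #cell`; the sum over `j` is at most
`C'' T₀ ^ (-d) #cell`. If `K_j` does not contain two such elements then neither do the smaller
`K_j'`, `j' ≥ j`, and all the `y` for these `j'` are multiples of one vector `y₁` of `K_j`: their
number is at most `fib y₁`, and `(8 t_j) ^ d < fib y₁`, so it is at most `M`. -/
theorem few_big {k : Type} [Field k] [NumberField k] (τ : k →+* ℂ) (α : ℂ) (n : ℕ)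
    (hn : 1 ≤ n) : ∃ C : ℝ, 0 < C ∧ ∀ R S T₀ M : ℝ, 0 < S → S ≤ R → 1 ≤ T₀ → 0 ≤ M →
      (∀ y : Fin (n + 1) → 𝓞 k, y ≠ 0 → (fib τ α R S y : ℝ) ≤ M) →
      ({y ∈ cell τ α n R S | y ≠ 0 ∧ (8 * T₀) ^ finrank ℚ k < (fib τ α R S y : ℝ)}.ncard : ℝ) ≤
        C * (T₀ ^ finrank ℚ k)⁻¹ * ((cell τ α n R S).ncard : ℝ) + M := by
  classical
  obtain ⟨c, hc, hsc⟩ := scale_count (k := k) τ α n hn
  set d := finrank ℚ k with hd
  have hdpos : 0 < d := finrank_pos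
  refine ⟨2 * 16 ^ d * c⁻¹, by positivity, fun R S T₀ M hS hSR hT hM hfib => ?_⟩
  have hR : 0 < R := hS.trans_le hSR
  have hT0 : 0 < T₀ := by linarith
  have hfin := cell_finite τ α n R S
  -- the levels
  have hlev : ∀ y : Fin (n + 1) → 𝓞 k, ∃ j : ℕ, (8 * T₀) ^ d < (fib τ α R S y : ℝ) →
      (8 * (2 ^ j * T₀)) ^ d < (fib τ α R S y : ℝ) ∧
        (fib τ α R S y : ℝ) ≤ (16 * (2 ^ j * T₀)) ^ d := by
    intro y
    by_cases h : (8 * T₀) ^ d < (fib τ α R S y : ℝ)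
    · obtain ⟨j, hj⟩ := few_level d hdpos T₀ hT _ h
      exact ⟨j, fun _ => hj⟩
    · exact ⟨0, fun h' => (h h').elim⟩
  choose J hJ using hlev
  have ht1 : ∀ j : ℕ, (1 : ℝ) ≤ 2 ^ j * T₀ := by
    intro j
    have : (1 : ℝ) ≤ 2 ^ j := one_le_pow₀ (by norm_num)
    nlinarith
  -- the small multiples
  have hsm : ∀ y : Fin (n + 1) → 𝓞 k, ∃ y' : Fin (n + 1) → 𝓞 k, y ≠ 0 →
      (8 * T₀) ^ d < (fib τ α R S y : ℝ) →
        y' ∈ cell τ α n (R / (2 ^ J y * T₀)) (S / (2 ^ J y * T₀)) ∧ y' ≠ 0 ∧ Prp y y' := by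
    intro y
    by_cases h : y ≠ 0 ∧ (8 * T₀) ^ d < (fib τ α R S y : ℝ)
    · obtain ⟨y', h1, h2, h3⟩ := fibre_small τ α n R S (2 ^ J y * T₀) hR hS (ht1 _) y h.1
        (hJ y h.2).1
      exact ⟨y', fun _ _ => ⟨h1, h2, h3⟩⟩
    · exact ⟨0, fun h1 h2 => (h ⟨h1, h2⟩).elim⟩
  choose f hf using hsm
  set A : Set (Fin (n + 1) → 𝓞 k) :=
    {y ∈ cell τ α n R S | y ≠ 0 ∧ (8 * T₀) ^ d < (fib τ α R S y : ℝ)} with hA
  have hAfin : A.Finite := hfin.subset fun y hy => hy.1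
  let P : ℕ → Prop := fun j => ∃ y ∈ cell τ α n (R / (2 ^ j * T₀)) (S / (2 ^ j * T₀)),
    ∃ y' ∈ cell τ α n (R / (2 ^ j * T₀)) (S / (2 ^ j * T₀)), y ≠ 0 ∧ ¬ Prp y y'
  let s := hAfin.toFinset
  have hs : ∀ y, y ∈ s ↔ y ∈ A := fun y => hAfin.mem_toFinset
  let s₁ := s.filter fun y => P (J y)
  let s₂ := s.filter fun y => ¬ P (J y)
  have hcard : A.ncard = s₁.card + s₂.card := by
    rw [Set.ncard_eq_toFinset_card A hAfin]
    exact (Finset.card_filter_add_card_filter_not _).symm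
  -- the second part
  have h2 : (s₂.card : ℝ) ≤ M := by
    rcases s₂.eq_empty_or_nonempty with h0 | h0
    · rw [h0]; simpa using hM
    · obtain ⟨y₁, hy₁, hmin⟩ := Finset.exists_min_image s₂ J h0
      have hy₁' := Finset.mem_filter.1 hy₁
      have hy₁A := (hs _).1 hy₁'.1
      refine le_trans ?_ (hfib y₁ hy₁A.2.1)
      refine Nat.cast_le.2 (few_le_fib τ α y₁ s₂ fun y hy => ?_)
      have hy' := Finset.mem_filter.1 hy
      have hyA := (hs _).1 hy'.1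
      refine ⟨hyA.1, ?_⟩
      have hf₁ := hf y₁ hy₁A.2.1 hy₁A.2.2
      have hf₂ := hf y hyA.2.1 hyA.2.2
      have hle : (2 : ℝ) ^ J y₁ * T₀ ≤ 2 ^ J y * T₀ :=
        mul_le_mul_of_nonneg_right (pow_le_pow_right₀ (by norm_num) (hmin y hy)) hT0.le
      have hpos : (0 : ℝ) < 2 ^ J y₁ * T₀ := by positivity
      have hmem : f y ∈ cell τ α n (R / (2 ^ J y₁ * T₀)) (S / (2 ^ J y₁ * T₀)) :=
        few_cell_mono τ α (div_le_div_of_nonneg_left hR.le hpos hle)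
          (div_le_div_of_nonneg_left hS.le hpos hle) hf₂.1
      have hprp : Prp (f y₁) (f y) := by
        by_contra hcon
        exact hy₁'.2 ⟨f y₁, hf₁.1, f y, hmem, hf₁.2.1, hcon⟩
      exact few_prp hf₂.2.1 (few_trans hf₁.2.2 hprp) hf₂.2.2
  -- the first part
  have hlevel : ∀ j : ℕ, (((s₁.filter fun y => J y = j).card : ℕ) : ℝ) ≤
      16 ^ d * c⁻¹ * ((2 ^ j * T₀) ^ d)⁻¹ * ((cell τ α n R S).ncard : ℝ) := by
    intro j
    have htp : (0 : ℝ) < 2 ^ j * T₀ := by positivity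
    rcases (s₁.filter fun y => J y = j).eq_empty_or_nonempty with h0 | ⟨y₀, hy₀⟩
    · rw [h0, Finset.card_empty, Nat.cast_zero]
      positivity
    have hPj : P j := by
      have h3 := Finset.mem_filter.1 hy₀
      rw [← h3.2]
      exact (Finset.mem_filter.1 h3.1).2
    have hKfin := cell_finite τ α n (R / (2 ^ j * T₀)) (S / (2 ^ j * T₀))
    have hmap : ∀ y ∈ s₁.filter (fun y => J y = j), f y ∈ hKfin.toFinset := by
      intro y hy
      have h3 := Finset.mem_filter.1 hy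
      have h4 := (hs _).1 (Finset.mem_filter.1 h3.1).1
      rw [Set.Finite.mem_toFinset]
      have h5 := (hf y h4.2.1 h4.2.2).1
      rw [h3.2] at h5
      exact h5
    have hfibre : ∀ b ∈ hKfin.toFinset, ((s₁.filter fun y => J y = j).filter
        fun y => f y = b).card ≤ ⌊(16 * (2 ^ j * T₀)) ^ d⌋₊ := by
      intro b _
      rcases ((s₁.filter fun y => J y = j).filter fun y => f y = b).eq_empty_or_nonempty with
        h0 | ⟨y₁, hy₁⟩
      · rw [h0]; simp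
      have h3 := Finset.mem_filter.1 hy₁
      have h4 := Finset.mem_filter.1 h3.1
      have h5 := (hs _).1 (Finset.mem_filter.1 h4.1).1
      have h6 := hf y₁ h5.2.1 h5.2.2
      have h7 := (hJ y₁ h5.2.2).2
      rw [h4.2] at h7
      refine le_trans (few_le_fib τ α (R := R) (S := S) y₁ _ fun y hy => ?_)
        (Nat.le_floor h7)
      have g3 := Finset.mem_filter.1 hy
      have g4 := Finset.mem_filter.1 g3.1
      have g5 := (hs _).1 (Finset.mem_filter.1 g4.1).1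
      have g6 := hf y g5.2.1 g5.2.2
      refine ⟨g5.1, few_prp (b := f y) g6.2.1 ?_ g6.2.2⟩
      rw [g3.2, ← h3.2]
      exact h6.2.2
    have hle := Finset.card_le_mul_card_image_of_maps_to hmap _ hfibre
    have hle' : (((s₁.filter fun y => J y = j).card : ℕ) : ℝ) ≤
        (16 * (2 ^ j * T₀)) ^ d *
          ((cell τ α n (R / (2 ^ j * T₀)) (S / (2 ^ j * T₀))).ncard : ℝ) := by
      rw [Set.ncard_eq_toFinset_card _ hKfin]
      refine le_trans (Nat.cast_le.2 hle) ?_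
      rw [Nat.cast_mul]
      exact mul_le_mul_of_nonneg_right (Nat.floor_le (by positivity)) (Nat.cast_nonneg _)
    have hscale := hsc (R / (2 ^ j * T₀)) (S / (2 ^ j * T₀)) (2 ^ j * T₀) (by positivity)
      (div_le_div_of_nonneg_right hSR htp.le) (ht1 j) hPj
    rw [mul_div_cancel₀ _ htp.ne', mul_div_cancel₀ _ htp.ne'] at hscale
    refine hle'.trans ?_
    set K : ℝ := ((cell τ α n (R / (2 ^ j * T₀)) (S / (2 ^ j * T₀))).ncard : ℝ)
    set t : ℝ := 2 ^ j * T₀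
    have h8 : (16 * t) ^ d * K = 16 ^ d * c⁻¹ * (t ^ d)⁻¹ * (c * t ^ (2 * d) * K) := by
      rw [mul_pow, two_mul, pow_add]
      have : t ^ d ≠ 0 := by positivity
      field_simp
    rw [h8]
    exact mul_le_mul_of_nonneg_left hscale (by positivity)
  have h1 : (s₁.card : ℝ) ≤
      2 * 16 ^ d * c⁻¹ * (T₀ ^ d)⁻¹ * ((cell τ α n R S).ncard : ℝ) := by
    have hmaps : ∀ y ∈ s₁, J y ∈ Finset.range (s₁.sup J + 1) := fun y hy =>
      Finset.mem_range.2 (Nat.lt_succ_of_le (Finset.le_sup hy))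
    rw [Finset.card_eq_sum_card_fiberwise hmaps, Nat.cast_sum]
    refine (Finset.sum_le_sum fun j _ => hlevel j).trans ?_
    rw [← Finset.sum_mul, ← Finset.mul_sum]
    refine mul_le_mul_of_nonneg_right ?_ (Nat.cast_nonneg _)
    calc 16 ^ d * c⁻¹ * ∑ j ∈ Finset.range (s₁.sup J + 1), ((2 ^ j * T₀) ^ d)⁻¹
        ≤ 16 ^ d * c⁻¹ * (2 * (T₀ ^ d)⁻¹) :=
          mul_le_mul_of_nonneg_left (few_geom d hdpos T₀ hT _) (by positivity)
      _ = 2 * 16 ^ d * c⁻¹ * (T₀ ^ d)⁻¹ := by ring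
  rw [hcard, Nat.cast_add]
  exact add_le_add h1 h2

end Pool.Agent.AASL
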