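import Pool.Agent.AASL.Defs

/-!
# Many multiples in the cell give a multiple in a smaller cell
-/

set_option autoImplicit false

open NumberField Module

namespace Pool.Agent.AASL

/-- one real coordinate for every embedding -/
private noncomputable def coordP {K : Type} [Field K] [NumberField K] (φ : K →+* ℂ) (a : K) : ℝ :=
  open Classical in if φ = (InfinitePlace.mk φ).embedding then (φ a).re else (φ a).im

private theorem coordP_sub {K : Type} [Field K] [NumberField K] (φ : K →+* ℂ) (a b : K) :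
    coordP φ (a - b) = coordP φ a - coordP φ b := by
  unfold coordP
  split_ifs
  · rw [map_sub, Complex.sub_re]
  · rw [map_sub, Complex.sub_im]

private theorem abs_coordP {K : Type} [Field K] [NumberField K] (φ : K →+* ℂ) (a : K) :
    |coordP φ a| ≤ (InfinitePlace.mk φ) a := by
  rw [InfinitePlace.apply]
  unfold coordP
  split_ifs
  · exact Complex.abs_re_le_norm _
  · exact Complex.abs_im_le_norm _

private theorem lt_of_coordP {K : Type} [Field K] [NumberField K] (a : K)
    (ε : InfinitePlace K → ℝ) (h0 : ∀ w, 0 < ε w)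
    (h : ∀ φ : K →+* ℂ, |coordP φ a| < ε (InfinitePlace.mk φ)) (w : InfinitePlace K) :
    w a < Real.sqrt 2 * ε w := by
  classical
  have hre : |(w.embedding a).re| < ε w := by
    have := h w.embedding
    unfold coordP at this
    rwa [InfinitePlace.mk_embedding, if_pos rfl] at this
  have him : |(w.embedding a).im| < ε w := by
    by_cases hw : w.IsReal
    · have h1 := InfinitePlace.isReal_iff.1 hw
      have h2 : starRingEnd ℂ (w.embedding a) = w.embedding a := by
        have := RingHom.congr_fun h1 a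
        rwa [ComplexEmbedding.conjugate_coe_eq] at this
      rw [Complex.conj_eq_iff_im] at h2
      rw [h2, abs_zero]
      exact h0 w
    · have h1 : ¬ ComplexEmbedding.IsReal w.embedding := fun h2 => hw (InfinitePlace.isReal_iff.2 h2)
      have h3 : ComplexEmbedding.conjugate w.embedding ≠ w.embedding := h1
      have := h (ComplexEmbedding.conjugate w.embedding)
      unfold coordP at this
      rw [InfinitePlace.mk_conjugate_eq, InfinitePlace.mk_embedding, if_neg h3,
        ComplexEmbedding.conjugate_coe_eq, Complex.conj_im, abs_neg] at this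
      exact this
  rw [← InfinitePlace.norm_embedding_eq w a]
  have h1 : ‖w.embedding a‖ ^ 2 < (Real.sqrt 2 * ε w) ^ 2 := by
    rw [Complex.sq_norm, Complex.normSq_apply, mul_pow, Real.sq_sqrt zero_le_two]
    have h2 := abs_lt.1 hre
    have h3 := abs_lt.1 him
    nlinarith [h0 w]
  exact lt_of_pow_lt_pow_left₀ 2 (mul_nonneg (Real.sqrt_nonneg _) (h0 w).le) h1

/-- Choose `i₀` with `y i₀ ≠ 0`. A multiple `y' = c y` is determined by `x = y' i₀`, and `y'` is in
the cell `R, S` if and only if `w x ≤ r w` for all infinite places `w`, where `r w` is the minimum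
of the `R * w (y i₀) / w (y i)` (over the `i` with `y i ≠ 0`) and, at the place of `τ`, of
`S * w (y i₀) / ‖ev τ α y‖` (if `ev τ α y ≠ 0`). Pigeonhole with the `d` real coordinates `coordP`
of the proof of `Pool.Agent.AA.pack`: each coordinate of `x` lies in an interval of length `2 r w`,
which is divided into at most `4 t` intervals of length less than `r w / (√2 t)` (`1 ≤ t`, `8 t` is
enough). Two `x, x'` in the same product of intervals have `w (x - x') ≤ r w / t`. -/
theorem fibre_small {k : Type} [Field k] [NumberField k] (τ : k →+* ℂ) (α : ℂ) (n : ℕ)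
    (R S t : ℝ) (hR : 0 < R) (hS : 0 < S) (ht : 1 ≤ t) (y : Fin (n + 1) → 𝓞 k) (hy : y ≠ 0)
    (hcard : (8 * t) ^ finrank ℚ k < (fib τ α R S y : ℝ)) :
    ∃ y' ∈ cell τ α n (R / t) (S / t), y' ≠ 0 ∧ Prp y y' := by
  classical
  obtain ⟨i₀, hi₀⟩ : ∃ i, y i ≠ 0 := by
    by_contra h
    push Not at h
    exact hy (funext h)
  have hy0 : (y i₀ : k) ≠ 0 := RingOfIntegers.coe_ne_zero_iff.2 hi₀
  unfold fib at hcard
  set Z : Set (Fin (n + 1) → 𝓞 k) := {y' ∈ cell τ α n R S | Prp y y'} with hZ
  set cc : (Fin (n + 1) → 𝓞 k) → k := fun y' => (y' i₀ : k) / (y i₀ : k) with hccdef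
  have hcc : ∀ y', Prp y y' → ∀ i, (y' i : k) = cc y' * y i := by
    rintro y' ⟨c, hc⟩ i
    have h1 : cc y' = c := by
      rw [hccdef]
      simp only
      rw [hc i₀, mul_div_assoc, div_self hy0, mul_one]
    rw [h1]
    exact hc i
  have hev : ∀ y', Prp y y' → ev τ α y' = τ (cc y') * ev τ α y := by
    intro y' h
    unfold ev
    rw [Finset.mul_sum]
    refine Finset.sum_congr rfl fun i _ => ?_
    rw [hcc y' h i, map_mul, mul_assoc]
  set d := finrank ℚ k with hd
  have h8 : (1 : ℝ) ≤ (8 * t) ^ d := one_le_pow₀ (by linarith)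
  have hZ1 : 1 < Z.ncard := by exact_mod_cast h8.trans_lt hcard
  have hfin : Z.Finite := Set.finite_of_ncard_ne_zero (by omega)
  have hne : Z.Nonempty := Set.nonempty_of_ncard_ne_zero (by omega)
  have hmaxex : ∀ w : InfinitePlace k, ∃ m ∈ Z, ∀ y' ∈ Z, w (cc y') ≤ w (cc m) := fun w =>
    Set.exists_max_image Z (fun y' => w (cc y')) hfin hne
  choose m hm hmax using hmaxex
  set r : InfinitePlace k → ℝ := fun w => w (cc (m w)) with hr
  have hr0 : ∀ w, 0 < r w := by
    intro w
    obtain ⟨a, b, ha, hb, hab⟩ := (Set.one_lt_ncard_iff hfin).1 hZ1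
    obtain ⟨z, hz, hz0⟩ : ∃ z ∈ Z, z ≠ 0 := by
      by_cases ha0 : a = 0
      · exact ⟨b, hb, fun h => hab (ha0.trans h.symm)⟩
      · exact ⟨a, ha, ha0⟩
    refine lt_of_lt_of_le ?_ (hmax w z hz)
    rw [InfinitePlace.pos_iff]
    intro h0
    apply hz0
    funext i
    have h1 := hcc z hz.2 i
    rw [h0, zero_mul] at h1
    exact RingOfIntegers.coe_eq_zero_iff.1 h1
  -- the pigeonhole principle
  have hs2 : 0 < Real.sqrt 2 := Real.sqrt_pos.2 two_pos
  have hs2' : Real.sqrt 2 < 3 / 2 := (Real.sqrt_lt' (by norm_num)).2 (by norm_num)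
  set A : ℝ := Real.sqrt 2 * t with hA
  have hA0 : 0 < A := by positivity
  set F : Finset ((k →+* ℂ) → ℤ) :=
    Fintype.piFinset fun _ => Finset.Icc (-⌈A⌉) ⌈A⌉ with hF
  have hFcard : F.card = (⌈A⌉ + 1 - -⌈A⌉).toNat ^ d := by
    rw [hF, Fintype.card_piFinset, Finset.prod_const, Finset.card_univ, Int.card_Icc,
      Embeddings.card, hd]
  set ix : (Fin (n + 1) → 𝓞 k) → (k →+* ℂ) → ℤ :=
    fun z φ => ⌊A * coordP φ (cc z) / r (InfinitePlace.mk φ)⌋ with hix
  have hmaps : ∀ a ∈ hfin.toFinset, ix a ∈ F := by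
    intro a ha
    rw [Set.Finite.mem_toFinset] at ha
    rw [hF, Fintype.mem_piFinset]
    intro φ
    have h1 := abs_le.1 ((abs_coordP φ (cc a)).trans (hmax (InfinitePlace.mk φ) a ha))
    have h2 := Int.le_ceil A
    have hr' := hr0 (InfinitePlace.mk φ)
    have h3 : -A ≤ A * coordP φ (cc a) / r (InfinitePlace.mk φ) := by
      rw [le_div_iff₀ hr']
      have := mul_le_mul_of_nonneg_left h1.1 hA0.le
      linarith
    have h4 : A * coordP φ (cc a) / r (InfinitePlace.mk φ) ≤ A := by
      rw [div_le_iff₀ hr']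
      exact mul_le_mul_of_nonneg_left h1.2 hA0.le
    rw [Finset.mem_Icc]
    constructor
    · rw [Int.le_floor]
      push_cast
      linarith
    · have h5 : (⌊A * coordP φ (cc a) / r (InfinitePlace.mk φ)⌋ : ℝ) ≤ ⌈A⌉ :=
        (Int.floor_le _).trans (h4.trans h2)
      exact_mod_cast h5
  have hlt : F.card < hfin.toFinset.card := by
    have h1 : ((⌈A⌉ + 1 - -⌈A⌉).toNat : ℝ) ≤ 8 * t := by
      have h3 : (0 : ℤ) ≤ ⌈A⌉ + 1 - -⌈A⌉ := by
        have : (0 : ℤ) ≤ ⌈A⌉ := Int.ceil_nonneg hA0.le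
        linarith
      have h4 : (((⌈A⌉ + 1 - -⌈A⌉).toNat : ℕ) : ℝ) = ((⌈A⌉ + 1 - -⌈A⌉ : ℤ) : ℝ) := by
        exact_mod_cast Int.toNat_of_nonneg h3
      rw [h4]
      push_cast
      have h5 := Int.ceil_lt_add_one A
      have h6 : A ≤ 3 / 2 * t := mul_le_mul_of_nonneg_right hs2'.le (by linarith)
      linarith
    have h2 : (F.card : ℝ) < (Z.ncard : ℝ) := by
      refine lt_of_le_of_lt ?_ hcard
      rw [hFcard]
      push_cast
      exact pow_le_pow_left₀ (Nat.cast_nonneg _) h1 _
    rw [← Set.ncard_eq_toFinset_card Z hfin]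
    exact_mod_cast h2
  obtain ⟨a, ha, b, hb, hab, hixab⟩ := Finset.exists_ne_map_eq_of_card_lt_of_maps_to hlt hmaps
  rw [Set.Finite.mem_toFinset] at ha hb
  have hcoe : ∀ i, ((a - b) i : k) = (cc a - cc b) * y i := by
    intro i
    have h1 : (((a - b) i : 𝓞 k) : k) = (a i : k) - (b i : k) := by
      rw [Pi.sub_apply]
      push_cast
      rfl
    rw [h1, hcc a ha.2 i, hcc b hb.2 i, sub_mul]
  have hprp : Prp y (a - b) := ⟨cc a - cc b, hcoe⟩
  have hclose : ∀ w : InfinitePlace k, w (cc a - cc b) ≤ r w / t := by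
    intro w
    have h1 : w (cc a - cc b) < Real.sqrt 2 * (r w / A) := by
      refine lt_of_coordP _ (fun w => r w / A) (fun w => div_pos (hr0 w) hA0) (fun φ => ?_) w
      have h2 : ⌊A * coordP φ (cc a) / r (InfinitePlace.mk φ)⌋ =
        ⌊A * coordP φ (cc b) / r (InfinitePlace.mk φ)⌋ := congrFun hixab φ
      rw [coordP_sub]
      have h4 := Int.abs_sub_lt_one_of_floor_eq_floor h2
      have hr' := hr0 (InfinitePlace.mk φ)
      rw [← sub_div, ← mul_sub, abs_div, abs_mul, abs_of_pos hr', div_lt_one hr',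
        abs_of_pos hA0] at h4
      rw [lt_div_iff₀ hA0]
      linarith
    refine h1.le.trans (le_of_eq ?_)
    rw [hA]
    have ht0 : t ≠ 0 := by linarith
    field_simp
  refine ⟨a - b, ⟨fun i ρ => ?_, ?_⟩, sub_ne_zero.2 hab, hprp⟩
  · have h1 : ‖ρ ((a - b) i : k)‖ =
        (InfinitePlace.mk ρ) (cc a - cc b) * (InfinitePlace.mk ρ) (y i : k) := by
      rw [hcoe i, map_mul, norm_mul, InfinitePlace.apply, InfinitePlace.apply]
    rw [h1]
    have h2 : r (InfinitePlace.mk ρ) * (InfinitePlace.mk ρ) (y i : k) ≤ R := by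
      have h3 := (hm (InfinitePlace.mk ρ)).1.1 i ρ
      rw [hcc _ (hm (InfinitePlace.mk ρ)).2 i, map_mul, norm_mul] at h3
      change (InfinitePlace.mk ρ) (cc (m (InfinitePlace.mk ρ))) *
        (InfinitePlace.mk ρ) (y i : k) ≤ R
      rw [InfinitePlace.apply, InfinitePlace.apply]
      exact h3
    calc (InfinitePlace.mk ρ) (cc a - cc b) * (InfinitePlace.mk ρ) (y i : k)
        ≤ r (InfinitePlace.mk ρ) / t * (InfinitePlace.mk ρ) (y i : k) :=
          mul_le_mul_of_nonneg_right (hclose _) (apply_nonneg _ _)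
      _ = r (InfinitePlace.mk ρ) * (InfinitePlace.mk ρ) (y i : k) / t := by ring
      _ ≤ R / t := div_le_div_of_nonneg_right h2 (by linarith)
  · have h0 : cc (a - b) = cc a - cc b := by
      rw [hccdef]
      simp only
      rw [hcoe i₀, mul_div_assoc, div_self hy0, mul_one]
    rw [hev _ hprp, h0, norm_mul]
    have h2 : r (InfinitePlace.mk τ) * ‖ev τ α y‖ ≤ S := by
      have h3 := (hm (InfinitePlace.mk τ)).1.2
      rw [hev _ (hm (InfinitePlace.mk τ)).2, norm_mul] at h3
      change (InfinitePlace.mk τ) (cc (m (InfinitePlace.mk τ))) * ‖ev τ α y‖ ≤ S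
      rw [InfinitePlace.apply]
      exact h3
    have h4 := hclose (InfinitePlace.mk τ)
    rw [InfinitePlace.apply] at h4
    calc ‖τ (cc a - cc b)‖ * ‖ev τ α y‖
        ≤ r (InfinitePlace.mk τ) / t * ‖ev τ α y‖ :=
          mul_le_mul_of_nonneg_right h4 (norm_nonneg _)
      _ = r (InfinitePlace.mk τ) * ‖ev τ α y‖ / t := by ring
      _ ≤ S / t := div_le_div_of_nonneg_right h2 (by linarith)

end Pool.Agent.AASL
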