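import Pool.Agent.AASL.Defs
import Pool.Agent.SST.TameK

/-!
# Real coordinates

The functionals `Re (ev τ α y)` and `Im (ev τ α y)` of the real space spanned by the lattice of the
`y` are independent if `rk τ α = 2`; if `rk τ α = 1` then `ev τ α y` is real, and not identically
zero.
-/

set_option autoImplicit false

open NumberField Module

namespace Pool.Agent.AASL

/-- the evaluation is additive -/
private noncomputable def evHom {k : Type} [Field k] [NumberField k] (τ : k →+* ℂ) (α : ℂ)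
    (n : ℕ) : (Fin (n + 1) → 𝓞 k) →+ ℂ where
  toFun := ev τ α
  map_zero' := by simp [ev]
  map_add' y y' := by
    simp only [ev, Pi.add_apply, map_add, add_mul, Finset.sum_add_distrib]

private theorem evHom_apply {k : Type} [Field k] [NumberField k] (τ : k →+* ℂ) (α : ℂ)
    (n : ℕ) (y : Fin (n + 1) → 𝓞 k) : evHom τ α n y = ev τ α y := rfl

private theorem complete_aux {N r : ℕ} (v : Fin r → (Fin N → ℝ))
    (hv : LinearIndependent ℝ v) (m : ℕ) (hrm : r ≤ m) : m ≤ N →
    ∃ w : Fin m → (Fin N → ℝ), LinearIndependent ℝ w ∧ ∀ j : Fin r, w (Fin.castLE hrm j) = v j := by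
  induction m, hrm using Nat.le_induction with
  | base => exact fun _ => ⟨v, hv, fun j => rfl⟩
  | succ m hrm ih =>
    intro hm
    obtain ⟨w, hw, hwv⟩ := ih (by omega)
    obtain ⟨x, hx⟩ := exists_linearIndependent_snoc_of_lt_finrank hw
      (by rw [Module.finrank_fin_fun]; omega)
    refine ⟨_, hx, fun j => ?_⟩
    have h1 : Fin.castLE (Nat.le_succ_of_le hrm) j = (Fin.castLE hrm j).castSucc := rfl
    rw [h1, Fin.snoc_castSucc]
    exact hwv j

private theorem complete {N r : ℕ} (hr : r ≤ N) (v : Fin r → (Fin N → ℝ))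
    (hv : LinearIndependent ℝ v) :
    ∃ A : Matrix (Fin N) (Fin N) ℝ, A.det ≠ 0 ∧ ∀ j : Fin r, A (Fin.castLE hr j) = v j := by
  obtain ⟨w, hw, hwv⟩ := complete_aux v hv N hr le_rfl
  refine ⟨Matrix.of w, ?_, hwv⟩
  have h1 : IsUnit (Matrix.of w) := Matrix.linearIndependent_rows_iff_isUnit.mp hw
  exact ((Matrix.isUnit_iff_isUnit_det _).mp h1).ne_zero

/-- the first rows -/
private theorem exists_rows {k : Type} [Field k] [NumberField k] (τ : k →+* ℂ) (α : ℂ) (n : ℕ)
    (hn : 1 ≤ n) {N : ℕ} (ω : Basis (Fin N) ℤ (Fin (n + 1) → 𝓞 k)) :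
    ∃ v : Fin (rk τ α) → (Fin N → ℝ), LinearIndependent ℝ v ∧
      (∀ (z : Fin N → ℤ) j, |∑ i, v j i * (z i : ℝ)| ≤ ‖ev τ α (∑ j, z j • ω j)‖) ∧
      ∀ z : Fin N → ℤ, ‖ev τ α (∑ j, z j • ω j)‖ ≤ ∑ j, |∑ i, v j i * (z i : ℝ)| := by
  classical
  have hev : ∀ z : Fin N → ℤ, ev τ α (∑ j, z j • ω j) = ∑ j, (z j : ℂ) * ev τ α (ω j) := by
    intro z
    rw [← evHom_apply, map_sum]
    refine Finset.sum_congr rfl fun j _ => ?_
    rw [map_zsmul, zsmul_eq_mul, evHom_apply]
  have hre : ∀ z : Fin N → ℤ, ∑ i, (ev τ α (ω i)).re * (z i : ℝ) =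
      (ev τ α (∑ j, z j • ω j)).re := by
    intro z
    rw [hev, Complex.re_sum]
    refine Finset.sum_congr rfl fun j _ => ?_
    rw [Complex.mul_re, Complex.intCast_re, Complex.intCast_im]
    ring
  have him : ∀ z : Fin N → ℤ, ∑ i, (ev τ α (ω i)).im * (z i : ℝ) =
      (ev τ α (∑ j, z j • ω j)).im := by
    intro z
    rw [hev, Complex.im_sum]
    refine Finset.sum_congr rfl fun j _ => ?_
    rw [Complex.mul_im, Complex.intCast_re, Complex.intCast_im]
    ring
  have hall : ∀ y, ∃ z : Fin N → ℤ, y = ∑ j, z j • ω j := fun y =>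
    ⟨fun j => ω.repr y j, (ω.sum_repr y).symm⟩
  -- the value of a constant
  have hconst : ∀ x : 𝓞 k, ev τ α (Pi.single 0 x : Fin (n + 1) → 𝓞 k) = τ (x : k) := by
    intro x
    rw [ev, Finset.sum_eq_single 0]
    · simp
    · intro b _ hb
      rw [Pi.single_eq_of_ne hb]
      simp
    · simp
  have hone : ∀ a b : ℝ, (∀ j, a * (ev τ α (ω j)).re + b * (ev τ α (ω j)).im = 0) →
      ∀ y : Fin (n + 1) → 𝓞 k, a * (ev τ α y).re + b * (ev τ α y).im = 0 := by
    intro a b hab y
    obtain ⟨z, rfl⟩ := hall y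
    rw [← hre, ← him, Finset.mul_sum, Finset.mul_sum, ← Finset.sum_add_distrib]
    refine Finset.sum_eq_zero fun j _ => ?_
    have := hab j
    linear_combination (z j : ℝ) * this
  by_cases hR : IsRl τ ∧ starRingEnd ℂ α = α
  · have hrk : rk τ α = 1 := by rw [rk, if_pos hR]
    rw [hrk]
    have hreal : ∀ y : Fin (n + 1) → 𝓞 k, (ev τ α y).im = 0 := by
      intro y
      rw [← Complex.conj_eq_iff_im, ev, map_sum]
      refine Finset.sum_congr rfl fun i _ => ?_
      rw [map_mul, map_pow, hR.1, hR.2]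
    refine ⟨fun _ i => (ev τ α (ω i)).re, ?_, ?_, ?_⟩
    · rw [linearIndependent_unique_iff]
      intro h0
      have h1 := hone 1 0 (fun j => by
        have := congrFun h0 j
        simp only [Pi.zero_apply] at this
        rw [this]
        ring) (Pi.single 0 1)
      rw [hconst] at h1
      simp at h1
    · intro z j
      rw [hre]
      exact Complex.abs_re_le_norm _
    · intro z
      rw [Fin.sum_univ_one, hre]
      refine (Complex.norm_le_abs_re_add_abs_im _).trans ?_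
      rw [hreal, abs_zero, add_zero]
  · have hrk : rk τ α = 2 := by rw [rk, if_neg hR]
    rw [hrk]
    -- a value which is not real
    have hex : ∃ y : Fin (n + 1) → 𝓞 k, (ev τ α y).im ≠ 0 := by
      by_contra hcon
      push Not at hcon
      refine hR ⟨?_, ?_⟩
      · have h1 : ∀ x : 𝓞 k, starRingEnd ℂ (τ (x : k)) = τ (x : k) := by
          intro x
          rw [Complex.conj_eq_iff_im, ← hconst]
          exact hcon _
        intro x
        obtain ⟨a, b, -, rfl⟩ := IsFractionRing.div_surjective (A := 𝓞 k) x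
        rw [map_div₀, map_div₀]
        exact congrArg₂ (· / ·) (h1 a) (h1 b)
      · rw [Complex.conj_eq_iff_im]
        have h2 : ev τ α (Pi.single ⟨1, by omega⟩ 1 : Fin (n + 1) → 𝓞 k) = α := by
          rw [ev, Finset.sum_eq_single ⟨1, by omega⟩]
          · simp
          · intro b _ hb
            rw [Pi.single_eq_of_ne hb]
            simp
          · simp
        rw [← h2]
        exact hcon _
    obtain ⟨y0, hy0⟩ := hex
    refine ⟨![fun i => (ev τ α (ω i)).re, fun i => (ev τ α (ω i)).im], ?_, ?_, ?_⟩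
    · rw [LinearIndependent.pair_iff]
      intro a b hab
      have h1 := hone a b fun j => by
        have := congrFun hab j
        simpa only [Pi.add_apply, Pi.smul_apply, smul_eq_mul, Pi.zero_apply] using this
      have h2 := h1 (Pi.single 0 1)
      rw [hconst] at h2
      simp at h2
      subst h2
      have h3 := h1 y0
      rw [zero_mul, zero_add] at h3
      exact ⟨rfl, (mul_eq_zero.mp h3).resolve_right hy0⟩
    · intro z j
      fin_cases j
      · change |∑ i, (ev τ α (ω i)).re * (z i : ℝ)| ≤ _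
        rw [hre]
        exact Complex.abs_re_le_norm _
      · change |∑ i, (ev τ α (ω i)).im * (z i : ℝ)| ≤ _
        rw [him]
        exact Complex.abs_im_le_norm _
    · intro z
      rw [Fin.sum_univ_two]
      change _ ≤ |∑ i, (ev τ α (ω i)).re * (z i : ℝ)| + |∑ i, (ev τ α (ω i)).im * (z i : ℝ)|
      rw [hre, him]
      exact Complex.norm_le_abs_re_add_abs_im _

/-- Let `ω` be a basis of the lattice over the integers (`Pi.basis` of `RingOfIntegers.basis k`,
reindexed). Let `f_0, f_1` be the real functionals `Re (∑ x_j ev (ω_j))` and `Im (∑ x_j ev (ω_j))`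
of `Fin N → ℝ` (only `f_0`, which is not zero since the constant polynomial `1` has the value `1`,
if `rk τ α = 1`). For `rk τ α = 2` they are independent: the values of `ev` contain `1` and a number
which is not real (`α`, if `α` is not real; here `1 ≤ n` is used; otherwise `τ x` for an `x ∈ 𝓞 k`
for which it is not real: multiply an `x ∈ k` with this property by a positive integer). Complete
them to a basis of the dual space of `Fin N → ℝ`; this gives the rows of `A`. The sizes of the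
conjugates of the coefficients are bounded by a constant times `∑ |z_j|` and `z = A⁻¹ (A z)`. -/
theorem exists_forms {k : Type} [Field k] [NumberField k] (τ : k →+* ℂ) (α : ℂ) (n : ℕ)
    (hn : 1 ≤ n) : ∃ (C : ℝ) (ω : Basis (Fin ((n + 1) * finrank ℚ k)) ℤ (Fin (n + 1) → 𝓞 k))
      (A : Matrix (Fin ((n + 1) * finrank ℚ k)) (Fin ((n + 1) * finrank ℚ k)) ℝ),
      1 ≤ C ∧ A.det ≠ 0 ∧ ∀ z : Fin ((n + 1) * finrank ℚ k) → ℤ,
        ‖ev τ α (∑ j, z j • ω j)‖ ≤
          ∑ j ∈ Finset.univ.filter (fun j : Fin ((n + 1) * finrank ℚ k) => j.val < rk τ α),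
            |A.mulVec (fun i => (z i : ℝ)) j| ∧
        (∀ j : Fin ((n + 1) * finrank ℚ k), (j : ℕ) < rk τ α → |A.mulVec (fun i => (z i : ℝ)) j| ≤
          C * ‖ev τ α (∑ j, z j • ω j)‖) ∧
        (∀ i (ρ : k →+* ℂ), ‖ρ ((∑ j, z j • ω j) i : k)‖ ≤
          C * ∑ j, |A.mulVec (fun i => (z i : ℝ)) j|) ∧
        ∀ T : ℝ, (∀ i (ρ : k →+* ℂ), ‖ρ ((∑ j, z j • ω j) i : k)‖ ≤ T) →
          ∀ j, |A.mulVec (fun i => (z i : ℝ)) j| ≤ C * T := by
  classical
  obtain ⟨N, hN⟩ : ∃ N, N = (n + 1) * finrank ℚ k := ⟨_, rfl⟩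
  rw [← hN]
  have hfp : 1 ≤ finrank ℚ k := finrank_pos
  have hN2 : 2 ≤ N := by rw [hN]; nlinarith
  have hrk : rk τ α ≤ N := by
    unfold rk
    split_ifs <;> omega
  -- the basis
  have hcard : Fintype.card (Σ _ : Fin (n + 1), Free.ChooseBasisIndex ℤ (𝓞 k)) = N := by
    rw [Fintype.card_sigma, Finset.sum_const, Finset.card_univ, Fintype.card_fin, smul_eq_mul,
      ← Module.finrank_eq_card_chooseBasisIndex, RingOfIntegers.rank, hN]
  let e : (Σ _ : Fin (n + 1), Free.ChooseBasisIndex ℤ (𝓞 k)) ≃ Fin N :=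
    Fintype.equivFinOfCardEq hcard
  let ω : Basis (Fin N) ℤ (Fin (n + 1) → 𝓞 k) :=
    (Pi.basis fun _ => RingOfIntegers.basis k).reindex e
  obtain ⟨v, hv, hv1, hv2⟩ := exists_rows τ α n hn ω
  obtain ⟨A, hA, hAv⟩ := complete hrk v hv
  obtain ⟨C₀, hC₀, hrep⟩ := Pool.Agent.SST.tameK_repr (k := k)
  obtain ⟨D, hD⟩ : ∃ D : ℝ, D = ∑ j, ∑ i, ∑ ρ : k →+* ℂ, ‖ρ ((ω j) i : k)‖ := ⟨_, rfl⟩
  obtain ⟨E, hE⟩ : ∃ E : ℝ, E = ∑ j, ∑ l, |A⁻¹ j l| := ⟨_, rfl⟩
  obtain ⟨S, hS⟩ : ∃ S : ℝ, S = ∑ j, ∑ l, |A j l| := ⟨_, rfl⟩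
  have hD0 : 0 ≤ D := by
    rw [hD]
    exact Finset.sum_nonneg fun _ _ => Finset.sum_nonneg fun _ _ => Finset.sum_nonneg fun _ _ =>
      norm_nonneg _
  have hE0 : 0 ≤ E := by
    rw [hE]
    exact Finset.sum_nonneg fun _ _ => Finset.sum_nonneg fun _ _ => abs_nonneg _
  have hS0 : 0 ≤ S := by
    rw [hS]
    exact Finset.sum_nonneg fun _ _ => Finset.sum_nonneg fun _ _ => abs_nonneg _
  have hDle : ∀ j i (ρ : k →+* ℂ), ‖ρ ((ω j) i : k)‖ ≤ D := by
    intro j i ρ
    rw [hD]
    calc ‖ρ ((ω j) i : k)‖ ≤ ∑ ρ : k →+* ℂ, ‖ρ ((ω j) i : k)‖ :=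
          Finset.single_le_sum (f := fun ρ : k →+* ℂ => ‖ρ ((ω j) i : k)‖)
            (fun _ _ => norm_nonneg _) (Finset.mem_univ ρ)
      _ ≤ ∑ i, ∑ ρ : k →+* ℂ, ‖ρ ((ω j) i : k)‖ :=
          Finset.single_le_sum (f := fun i => ∑ ρ : k →+* ℂ, ‖ρ ((ω j) i : k)‖)
            (fun _ _ => Finset.sum_nonneg fun _ _ => norm_nonneg _) (Finset.mem_univ i)
      _ ≤ _ := Finset.single_le_sum (f := fun j => ∑ i, ∑ ρ : k →+* ℂ, ‖ρ ((ω j) i : k)‖)
            (fun _ _ => Finset.sum_nonneg fun _ _ => Finset.sum_nonneg fun _ _ => norm_nonneg _)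
            (Finset.mem_univ j)
  have hAz : ∀ (z : Fin N → ℤ) (j : Fin (rk τ α)),
      A.mulVec (fun i => (z i : ℝ)) (Fin.castLE hrk j) = ∑ i, v j i * (z i : ℝ) := by
    intro z j
    rw [Matrix.mulVec, dotProduct]
    refine Finset.sum_congr rfl fun i _ => ?_
    rw [hAv]
  refine ⟨1 + D * E + S * C₀, ω, A, ?_, hA, fun z => ⟨?_, ?_, ?_, ?_⟩⟩
  · have := mul_nonneg hD0 hE0
    have := mul_nonneg hS0 (zero_le_one.trans hC₀)
    linarith
  · refine (hv2 z).trans ?_
    have h1 : ∑ j, |∑ i, v j i * (z i : ℝ)| = ∑ j ∈ (Finset.univ : Finset (Fin (rk τ α))).image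
        (Fin.castLE hrk), |A.mulVec (fun i => (z i : ℝ)) j| := by
      rw [Finset.sum_image fun a _ b _ h => Fin.castLE_injective hrk h]
      exact Finset.sum_congr rfl fun j _ => by rw [hAz]
    rw [h1]
    refine Finset.sum_le_sum_of_subset_of_nonneg ?_ fun _ _ _ => abs_nonneg _
    intro j hj
    obtain ⟨a, -, rfl⟩ := Finset.mem_image.mp hj
    exact Finset.mem_filter.mpr ⟨Finset.mem_univ _, a.2⟩
  · intro j hj
    have h1 : j = Fin.castLE hrk ⟨j, hj⟩ := rfl
    rw [h1, hAz]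
    refine (hv1 z ⟨j, hj⟩).trans ?_
    have := mul_nonneg hD0 hE0
    have := mul_nonneg hS0 (zero_le_one.trans hC₀)
    exact le_mul_of_one_le_left (norm_nonneg _) (by linarith)
  · intro i ρ
    obtain ⟨s, hs⟩ : ∃ s : ℝ, s = ∑ j, |A.mulVec (fun i => (z i : ℝ)) j| := ⟨_, rfl⟩
    rw [← hs]
    have hs0 : 0 ≤ s := by rw [hs]; exact Finset.sum_nonneg fun _ _ => abs_nonneg _
    have hz : ∀ j, (z j : ℝ) = ∑ l, A⁻¹ j l * A.mulVec (fun i => (z i : ℝ)) l := by
      intro j
      have h1 : A⁻¹.mulVec (A.mulVec (fun i => (z i : ℝ))) = fun i => (z i : ℝ) := by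
        rw [Matrix.mulVec_mulVec, Matrix.nonsing_inv_mul _ (isUnit_iff_ne_zero.mpr hA),
          Matrix.one_mulVec]
      have h2 := congrFun h1 j
      rw [Matrix.mulVec, dotProduct] at h2
      exact h2.symm
    have hzs : ∑ j, |(z j : ℝ)| ≤ E * s := by
      rw [hE, Finset.sum_mul]
      refine Finset.sum_le_sum fun j _ => ?_
      rw [hz j, Finset.sum_mul]
      refine (Finset.abs_sum_le_sum_abs _ _).trans (Finset.sum_le_sum fun l _ => ?_)
      rw [abs_mul]
      refine mul_le_mul_of_nonneg_left ?_ (abs_nonneg _)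
      rw [hs]
      exact Finset.single_le_sum (f := fun l => |A.mulVec (fun i => (z i : ℝ)) l|)
        (fun _ _ => abs_nonneg _) (Finset.mem_univ l)
    have h3 : ρ ((∑ j, z j • ω j) i : k) = ∑ j, (z j : ℂ) * ρ ((ω j) i : k) := by
      rw [Finset.sum_apply]
      have : ((∑ j, (z j • ω j) i : 𝓞 k) : k) = ∑ j, (z j : k) * ((ω j) i : k) := by
        change algebraMap (𝓞 k) k (∑ j, (z j • ω j) i) = _
        rw [map_sum]
        refine Finset.sum_congr rfl fun j _ => ?_
        rw [Pi.smul_apply, zsmul_eq_mul, map_mul, map_intCast]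
      rw [this, map_sum]
      refine Finset.sum_congr rfl fun j _ => ?_
      rw [map_mul, map_intCast]
    rw [h3]
    have h4 : ‖∑ j, (z j : ℂ) * ρ ((ω j) i : k)‖ ≤ D * (E * s) := by
      refine (norm_sum_le _ _).trans ?_
      calc ∑ j, ‖(z j : ℂ) * ρ ((ω j) i : k)‖ ≤ ∑ j, |(z j : ℝ)| * D := by
            refine Finset.sum_le_sum fun j _ => ?_
            rw [norm_mul, Complex.norm_intCast]
            exact mul_le_mul_of_nonneg_left (hDle j i ρ) (abs_nonneg _)
        _ = D * ∑ j, |(z j : ℝ)| := by rw [← Finset.sum_mul, mul_comm]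
        _ ≤ D * (E * s) := mul_le_mul_of_nonneg_left hzs hD0
    refine h4.trans ?_
    have h5 := mul_nonneg (mul_nonneg hS0 (zero_le_one.trans hC₀)) hs0
    nlinarith
  · intro T hT j
    obtain ⟨ρ0⟩ : Nonempty (k →+* ℂ) := inferInstance
    have hT0 : 0 ≤ T := (norm_nonneg _).trans (hT 0 ρ0)
    have hzT : ∀ i, |(z i : ℝ)| ≤ C₀ * T := by
      intro i
      have h1 : ω.repr (∑ j, z j • ω j) i = z i := by
        rw [ω.repr_sum_self]
      have h2 : ω.repr (∑ j, z j • ω j) i =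
          (RingOfIntegers.basis k).repr ((∑ j, z j • ω j) (e.symm i).1) (e.symm i).2 := by
        change ((Pi.basis fun _ => RingOfIntegers.basis k).reindex e).repr _ i = _
        rw [Basis.repr_reindex_apply]
        exact Pi.basis_repr _ _ _
      have h3 := hrep ((∑ j, z j • ω j) (e.symm i).1) T (fun ρ => hT _ ρ) (e.symm i).2
      rw [← h2, h1] at h3
      exact h3
    rw [Matrix.mulVec, dotProduct]
    have h1 : |∑ i, A j i * (z i : ℝ)| ≤ S * (C₀ * T) := by
      refine (Finset.abs_sum_le_sum_abs _ _).trans ?_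
      calc ∑ i, |A j i * (z i : ℝ)| ≤ ∑ i, |A j i| * (C₀ * T) := by
            refine Finset.sum_le_sum fun i _ => ?_
            rw [abs_mul]
            exact mul_le_mul_of_nonneg_left (hzT i) (abs_nonneg _)
        _ = (∑ i, |A j i|) * (C₀ * T) := by rw [Finset.sum_mul]
        _ ≤ S * (C₀ * T) := by
            refine mul_le_mul_of_nonneg_right ?_ (mul_nonneg (zero_le_one.trans hC₀) hT0)
            rw [hS]
            exact Finset.single_le_sum (f := fun j => ∑ i, |A j i|)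
              (fun _ _ => Finset.sum_nonneg fun _ _ => abs_nonneg _) (Finset.mem_univ j)
    refine h1.trans ?_
    have h5 := mul_nonneg (mul_nonneg hD0 hE0) hT0
    nlinarith

end Pool.Agent.AASL
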