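import Pool.Agent.AASL.Defs
import Pool.Agent.AAL.LocalF

/-!
# The resultant is bounded by the Mahler measure
-/

set_option autoImplicit false

open NumberField Module Polynomial IntermediateField Pool.Agent.AAL

namespace Pool.Agent.AASL

/-- For every embedding `ρ` of `k` in `A` the polynomial `F ^ ρ` is `ρ (lead F)` times the product
of the `X - σ x` over the embeddings `σ` of `k(x)` over `ρ` (see the proof of
`Pool.Agent.AAL.local_formula`). Put `M ρ = ‖ρ (lead F)‖ ∏ max 1 ‖σ x‖`, so `lgM A F x = ∑ log (M ρ)`.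
For every `β` one has `‖β - r‖ ≤ (1 + ‖β‖) max 1 ‖r‖`, hence `‖F ^ ρ (β)‖ ≤ (1 + ‖β‖) ^ n M ρ`, and
`‖ρ (lead F)‖ ≤ M ρ`. The number of the factors in `lgR` is `q` for each `ρ`, and they are not zero
since `aeval x g ≠ 0` (if `F ^ ρ (β) = 0` for a zero `β` of `g ^ ρ` then `β = σ x` and
`σ (aeval x g) = 0`). -/
theorem lgR_le_lgM {k : Type} [Field k] [NumberField k] (A : Type) [NormedField A] [CharZero A]
    [IsAlgClosed A] (g : k[X]) (hg : g ≠ 0) (q : ℕ) (hq : q = g.natDegree ∨ q = g.natDegree + 1)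
    (n : ℕ) : ∃ C : ℝ, ∀ (F : (𝓞 k)[X]) (x : AlgebraicClosure k),
      finrank k (IntermediateField.adjoin k {x}) = n → F.natDegree = n → F ≠ 0 →
      aeval x (F.map (algebraMap (𝓞 k) k)) = 0 → aeval x g ≠ 0 →
      lgR A g q F ≤ q * lgM A F x + C := by
  classical
  set B : ℝ := 1 + ∑ ρ : k →+* A, ∑ i ∈ Finset.range (g.natDegree + 1), ‖ρ (g.coeff i)‖ with hB
  have hB1 : 1 ≤ B := by
    have h0 : 0 ≤ ∑ ρ : k →+* A, ∑ i ∈ Finset.range (g.natDegree + 1), ‖ρ (g.coeff i)‖ :=
      Finset.sum_nonneg fun ρ _ => Finset.sum_nonneg fun i _ => norm_nonneg _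
    linarith
  have hlB : 0 ≤ Real.log B := Real.log_nonneg hB1
  have hqg : g.natDegree ≤ q := by omega
  refine ⟨(finrank ℚ k * n : ℕ) * Real.log B -
    n * ∑ ρ : k →+* A, Real.log ‖ρ g.leadingCoeff‖, ?_⟩
  intro F x hx hF hF0 hFx hgx
  have h := local_formula A g hg q hq n F x hx hF hF0 hFx hgx
  have hcard : Fintype.card (IntermediateField.adjoin k {x} →+* A) = finrank ℚ k * n := by
    rw [NumberField.Embeddings.card, ← hx, Module.finrank_mul_finrank]
  have hb : ∀ σ : IntermediateField.adjoin k {x} →+* A,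
      -Real.log B ≤ -Real.log (‖σ (aeval (AdjoinSimple.gen k x) g)‖ /
        max 1 ‖σ (AdjoinSimple.gen k x)‖ ^ q) := by
    intro σ
    apply neg_le_neg
    set z := AdjoinSimple.gen k x with hz
    have hm1 : 1 ≤ max 1 ‖σ z‖ := le_max_left _ _
    have hmq : 0 < max 1 ‖σ z‖ ^ q := pow_pos (by linarith) _
    have hle : ‖σ (aeval z g)‖ / max 1 ‖σ z‖ ^ q ≤ B := by
      rw [div_le_iff₀ hmq]
      have h1 : ‖σ (aeval z g)‖ ≤ ∑ i ∈ Finset.range (g.natDegree + 1),
          ‖(σ.comp (algebraMap k (IntermediateField.adjoin k {x}))) (g.coeff i)‖ *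
            max 1 ‖σ z‖ ^ q := by
        rw [aeval_eq_sum_range, map_sum]
        refine (norm_sum_le _ _).trans (Finset.sum_le_sum fun i hi => ?_)
        rw [Algebra.smul_def, map_mul, map_pow, norm_mul, norm_pow]
        refine mul_le_mul_of_nonneg_left ?_ (norm_nonneg _)
        have hi' : i ≤ q := by
          have := Finset.mem_range.1 hi
          omega
        calc ‖σ z‖ ^ i ≤ max 1 ‖σ z‖ ^ i := pow_le_pow_left₀ (norm_nonneg _) (le_max_right _ _) _
          _ ≤ max 1 ‖σ z‖ ^ q := pow_le_pow_right₀ hm1 hi'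
      rw [← Finset.sum_mul] at h1
      refine h1.trans (mul_le_mul_of_nonneg_right ?_ hmq.le)
      have h2 : ∑ i ∈ Finset.range (g.natDegree + 1),
          ‖(σ.comp (algebraMap k (IntermediateField.adjoin k {x}))) (g.coeff i)‖ ≤
          ∑ ρ : k →+* A, ∑ i ∈ Finset.range (g.natDegree + 1), ‖ρ (g.coeff i)‖ :=
        Finset.single_le_sum (f := fun ρ : k →+* A =>
          ∑ i ∈ Finset.range (g.natDegree + 1), ‖ρ (g.coeff i)‖)
          (fun ρ _ => Finset.sum_nonneg fun i _ => norm_nonneg _) (Finset.mem_univ _)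
      rw [hB]
      linarith
    rcases eq_or_lt_of_le (div_nonneg (norm_nonneg (σ (aeval z g))) hmq.le) with h0 | h0
    · rw [← h0, Real.log_zero]
      exact hlB
    · exact Real.log_le_log h0 hle
  have hs : ∑ σ : IntermediateField.adjoin k {x} →+* A, -Real.log B ≤
      ∑ σ : IntermediateField.adjoin k {x} →+* A,
        -Real.log (‖σ (aeval (AdjoinSimple.gen k x) g)‖ /
          max 1 ‖σ (AdjoinSimple.gen k x)‖ ^ q) := Finset.sum_le_sum fun σ _ => hb σ
  rw [h, Finset.sum_const, Finset.card_univ, hcard, nsmul_eq_mul] at hs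
  linarith

end Pool.Agent.AASL
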