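import Mathlib

/-!
# The dimension of a space of polynomials which does not separate two conjugate points
-/

set_option autoImplicit false

open Polynomial Module

namespace Pool.Agent.AASL

/-- evaluation at `w` of the polynomial with the given coefficients -/
private noncomputable def rpE {K : Type} [Field K] (n : ℕ) (w : K) :
    (Fin (n + 1) → K) →ₗ[K] K :=
  ∑ i : Fin (n + 1), w ^ (i : ℕ) • LinearMap.proj i

private theorem rpE_apply {K : Type} [Field K] {n : ℕ} (w : K) (x : Fin (n + 1) → K) :
    rpE n w x = ∑ i : Fin (n + 1), x i * w ^ (i : ℕ) := by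
  unfold rpE
  rw [LinearMap.sum_apply]
  refine Finset.sum_congr rfl fun i _ => ?_
  simp [mul_comm]

private noncomputable def rpP {K : Type} [Field K] {n : ℕ} (x : Fin (n + 1) → K) : K[X] :=
  ∑ i : Fin (n + 1), C (x i) * X ^ (i : ℕ)

private theorem rpP_eval {K : Type} [Field K] {n : ℕ} (w : K) (x : Fin (n + 1) → K) :
    (rpP x).eval w = rpE n w x := by
  rw [rpE_apply, rpP, eval_finsetSum]
  exact Finset.sum_congr rfl fun i _ => by simp

private theorem rpP_natDegree {K : Type} [Field K] {n : ℕ} (x : Fin (n + 1) → K) :
    (rpP x).natDegree ≤ n := by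
  refine natDegree_sum_le_of_forall_le _ _ fun i _ => ?_
  exact (natDegree_C_mul_X_pow_le _ _).trans (Nat.lt_succ_iff.1 i.2)

private theorem rpP_ne {K : Type} [Field K] {n : ℕ} {x : Fin (n + 1) → K} (hx : x ≠ 0) :
    rpP x ≠ 0 := by
  intro h
  apply hx
  funext i
  have h1 := congrArg (fun p : K[X] => p.coeff (i : ℕ)) h
  simp only [rpP, finsetSum_coeff, coeff_C_mul, coeff_X_pow, coeff_zero, mul_ite, mul_one,
    mul_zero] at h1
  rw [Finset.sum_eq_single i] at h1
  · simpa using h1
  · intro j _ hj
    rw [if_neg fun h => hj (Fin.ext h.symm)]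
  · intro h
    exact absurd (Finset.mem_univ i) h

/-- Let `K` be the algebraic closure and `u = dim U`. For every zero `β` of `g` there is `σ` in the
Galois group with `σ a = β` (`g` is irreducible); put `β' = σ b`. Then `F(β') = σ(c) F(β)` for all
`F ∈ U`, hence for all `F` in the span `U_K` of `U` over `K`, and `β' ≠ β`. A nonzero `F ∈ U` has
`F(a) ≠ 0` and `F(b) ≠ 0` (`deg F ≤ n < deg g`), so `c ≠ 0` if `U ≠ 0`. Claim: for `j ≤ u - 1` there
are a subspace `V_j` of `U_K` of dimension at least `u - j` and a set `W_j` of at least `2 j`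
elements of `K` at which all elements of `V_j` vanish. Step: a nonzero element of `V_j` does not
vanish at all `deg g > n` zeros of `g`, so there is a zero `β` of `g` with `F(β) ≠ 0` for some
`F ∈ V_j`, then also `F(β') = σ(c) F(β) ≠ 0`, so `β, β' ∉ W_j`; take for `V_(j+1)` the elements of
`V_j` which vanish at `β` (then also at `β'`). For `j = u - 1` there is a nonzero polynomial of
degree at most `n` with `2 (u - 1)` zeros. -/
theorem rank_pencil {k : Type} [Field k] [CharZero k] {n : ℕ} (g : k[X]) (hg : Irreducible g)
    (hn : n < g.natDegree) (a b : AlgebraicClosure k) (ha : aeval a g = 0) (hb : aeval b g = 0)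
    (hab : a ≠ b) (U : Submodule k (Fin (n + 1) → k)) (c : AlgebraicClosure k)
    (hc : ∀ x ∈ U, ∑ i : Fin (n + 1), algebraMap k (AlgebraicClosure k) (x i) * b ^ (i : ℕ) =
      c * ∑ i : Fin (n + 1), algebraMap k (AlgebraicClosure k) (x i) * a ^ (i : ℕ)) :
    2 * finrank k U ≤ n + 2 := by
  classical
  let K := AlgebraicClosure k
  have hK : Splits (g.map (algebraMap k K)) := IsAlgClosed.splits _
  rcases Nat.eq_zero_or_pos (finrank k U) with h0 | hpos
  · omega
  -- `c` is not zero
  have hdeg : ∀ β : K, aeval β g = 0 → (minpoly k β).natDegree = g.natDegree := by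
    intro β hβ
    rw [← minpoly.eq_of_irreducible hg hβ, natDegree_mul_C
      (inv_ne_zero (leadingCoeff_ne_zero.2 hg.ne_zero))]
  have hne : ∀ (β : K), aeval β g = 0 → ∀ x : Fin (n + 1) → k, x ≠ 0 →
      ∑ i : Fin (n + 1), algebraMap k K (x i) * β ^ (i : ℕ) ≠ 0 := by
    intro β hβ x hx h
    have h1 : aeval β (rpP x) = 0 := by
      rw [← h, rpP, map_sum]
      exact Finset.sum_congr rfl fun i _ => by simp
    have h2 := natDegree_le_of_dvd (minpoly.dvd k β h1) (rpP_ne hx)
    have h3 := rpP_natDegree x
    have h4 := hdeg β hβ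
    omega
  obtain ⟨x₀, hx₀, hx₀0⟩ : ∃ x ∈ U, x ≠ 0 := by
    by_contra hcon
    push Not at hcon
    have : U = ⊥ := (Submodule.eq_bot_iff U).2 hcon
    rw [this, finrank_bot] at hpos
    exact lt_irrefl _ hpos
  have hc0 : c ≠ 0 := by
    rintro rfl
    have := hc x₀ hx₀
    rw [zero_mul] at this
    exact hne b hb x₀ hx₀0 this
  -- the span over `K`
  let φ : (Fin (n + 1) → k) → (Fin (n + 1) → K) := fun x => algebraMap k K ∘ x
  let UK : Submodule K (Fin (n + 1) → K) := Submodule.span K (φ '' U)
  have hUK : finrank k U ≤ finrank K UK := by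
    let B := Module.finBasis k U
    have h1 : LinearIndependent k (fun i => (B i : Fin (n + 1) → k)) :=
      B.linearIndependent.map' U.subtype (Submodule.ker_subtype U)
    have h2 : LinearIndependent K (fun i => algebraMap k K ∘ (B i : Fin (n + 1) → k)) :=
      linearIndependent_algebraMap_comp_iff.2 h1
    let v : Fin (finrank k U) → UK := fun i =>
      ⟨algebraMap k K ∘ (B i : Fin (n + 1) → k), Submodule.subset_span ⟨_, (B i).2, rfl⟩⟩
    have h3 : LinearIndependent K v := LinearIndependent.of_comp UK.subtype h2
    simpa using h3.fintype_card_le_finrank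
  -- the second zero
  have hσ : ∀ β : K, aeval β g = 0 → ∃ (β' d : K), β' ≠ β ∧ d ≠ 0 ∧
      ∀ x ∈ UK, rpE n β' x = d * rpE n β x := by
    intro β hβ
    obtain ⟨σ, hσ⟩ : ∃ σ : K →ₐ[k] K, σ a = β := by
      refine IntermediateField.exists_algHom_of_splits_of_aeval
        (fun s => ⟨Algebra.IsIntegral.isIntegral s, IsAlgClosed.splits _⟩) ?_
      rw [← minpoly.eq_of_irreducible hg ha, map_mul, hβ, zero_mul]
    refine ⟨σ b, σ c, ?_, ?_, ?_⟩
    · intro h
      rw [← hσ] at h
      exact hab (σ.injective h).symm
    · exact (map_ne_zero σ).2 hc0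
    · intro x hx
      induction hx using Submodule.span_induction with
      | mem x hx =>
        obtain ⟨y, hy, rfl⟩ := hx
        have h1 := congrArg σ (hc y hy)
        rw [rpE_apply, rpE_apply]
        have hcm : ∀ z : k, σ (algebraMap k (AlgebraicClosure k) z) = algebraMap k K z :=
          fun z => σ.commutes z
        simp only [map_sum, map_mul, map_pow, hcm, hσ] at h1
        exact h1
      | zero => rw [map_zero, map_zero, mul_zero]
      | add x y _ _ hx hy => rw [map_add, map_add, hx, hy, mul_add]
      | smul r x _ hx => rw [map_smul, map_smul, hx, smul_eq_mul, smul_eq_mul, mul_left_comm]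
  -- the induction
  have key : ∀ (d : ℕ) (V : Submodule K (Fin (n + 1) → K)) (S : Finset K), V ≤ UK →
      d + 1 ≤ finrank K V → (∀ x ∈ V, ∀ w ∈ S, rpE n w x = 0) → 2 * d + S.card ≤ n := by
    intro d
    induction d with
    | zero =>
      intro V S _ hV hS
      obtain ⟨x, hx, hx0⟩ : ∃ x ∈ V, x ≠ 0 := by
        by_contra hcon
        push Not at hcon
        have : V = ⊥ := (Submodule.eq_bot_iff V).2 hcon
        rw [this, finrank_bot] at hV
        omega
      by_contra hlt
      push Not at hlt
      apply rpP_ne hx0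
      refine eq_zero_of_natDegree_lt_card_of_eval_eq_zero' _ S (fun w hw => ?_)
        ((rpP_natDegree x).trans_lt (by omega))
      rw [rpP_eval]
      exact hS x hx w hw
    | succ d ih =>
      intro V S hVU hV hS
      obtain ⟨x, hx, hx0⟩ : ∃ x ∈ V, x ≠ 0 := by
        by_contra hcon
        push Not at hcon
        have : V = ⊥ := (Submodule.eq_bot_iff V).2 hcon
        rw [this, finrank_bot] at hV
        omega
      obtain ⟨β, hβ, hβx⟩ : ∃ β : K, aeval β g = 0 ∧ rpE n β x ≠ 0 := by
        by_contra hcon
        push Not at hcon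
        apply rpP_ne hx0
        refine eq_zero_of_natDegree_lt_card_of_eval_eq_zero' _ (g.rootSet K).toFinset
          (fun w hw => ?_) ((rpP_natDegree x).trans_lt ?_)
        · rw [rpP_eval]
          exact hcon w (aeval_eq_zero_of_mem_rootSet (Set.mem_toFinset.1 hw))
        · rw [Set.toFinset_card, card_rootSet_eq_natDegree hg.separable hK]
          exact hn
      obtain ⟨β', e, hββ, he, hrel⟩ := hσ β hβ
      let f : V →ₗ[K] K := (rpE n β).comp V.subtype
      let V' : Submodule K (Fin (n + 1) → K) := (LinearMap.ker f).map V.subtype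
      have hV'V : V' ≤ V := Submodule.map_subtype_le V _
      have hV'0 : ∀ y ∈ V', rpE n β y = 0 := by
        rintro y ⟨z, hz, rfl⟩
        exact LinearMap.mem_ker.1 hz
      have hfin : d + 1 ≤ finrank K V' := by
        have h1 := LinearMap.finrank_range_add_finrank_ker f
        have h2 : finrank K (LinearMap.range f) ≤ 1 := by
          have := Submodule.finrank_le (LinearMap.range f)
          rwa [finrank_self] at this
        have h3 : finrank K V' = finrank K (LinearMap.ker f) :=
          Submodule.finrank_map_subtype_eq V _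
        omega
      have hβS : β ∉ S := fun h => hβx (hS x hx β h)
      have hβ'S : β' ∉ S := by
        intro h
        have h1 := hS x hx β' h
        rw [hrel x (hVU hx)] at h1
        exact (mul_ne_zero he hβx) h1
      have h1 := ih V' (insert β' (insert β S)) (hV'V.trans hVU) hfin (by
        intro y hy w hw
        rw [Finset.mem_insert, Finset.mem_insert] at hw
        rcases hw with rfl | rfl | hw
        · rw [hrel y (hVU (hV'V hy)), hV'0 y hy, mul_zero]
        · exact hV'0 y hy
        · exact hS y (hV'V hy) w hw)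
      rw [Finset.card_insert_of_notMem, Finset.card_insert_of_notMem hβS] at h1
      · omega
      · rw [Finset.mem_insert]
        rintro (h | h)
        · exact hββ h
        · exact hβ'S h
  have h1 := key (finrank k U - 1) UK ∅ le_rfl (by omega) (by simp)
  rw [Finset.card_empty] at h1
  omega

end Pool.Agent.AASL
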