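import Pool.Agent.AASL.Defs

/-!
# The system of linear forms of the cell
-/

set_option autoImplicit false

open NumberField Module Polynomial Pool.Agent.SST Pool.Agent.AAS

namespace Pool.Agent.AASL

/-- the evaluations at `a` and `a'` and the coordinates -/
noncomputable def sysM {k : Type} [Field k] (n : ℕ) (a a' : AlgebraicClosure k) :
    Matrix (Fin (n + 3)) (Fin (n + 1)) (AlgebraicClosure k) := fun i j =>
  if (i : ℕ) = 0 then a ^ (j : ℕ) else if (i : ℕ) = 1 then a' ^ (j : ℕ) else
    if (i : ℕ) = (j : ℕ) + 2 then 1 else 0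

section

variable {k : Type} [Field k] [NumberField k] {r : ℕ} {p : Fin r → ℕ} [∀ t, Fact (p t).Prime]

/-- the matrices of the system -/
noncomputable def sysL (n : ℕ) (P P' : (k →+* ℂ) → AlgebraicClosure k) :
    PlK k p → Matrix (Fin (n + 3)) (Fin (n + 1)) (AlgebraicClosure k)
  | Sum.inl ρ => sysM n (P ρ) (P' ρ)
  | Sum.inr _ => sysM n 0 0

/-- the weights: `v` for the first `sp ρ` rows, `u` for the others -/
noncomputable def sysC (n : ℕ) (sp : (k →+* ℂ) → ℕ) (u v : ℝ) : PlK k p → Fin (n + 3) → ℝ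
  | Sum.inl ρ => fun i => if (i : ℕ) < sp ρ then v else u
  | Sum.inr _ => fun _ => 0

end

end Pool.Agent.AASL
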