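import Pool.Agent.AASL.SysDefs
import Pool.Agent.SST.KAux

/-!
# The system of linear forms of the cell: existence
-/

set_option autoImplicit false

open NumberField Module Polynomial Pool.Agent.SST Pool.Agent.AAS

namespace Pool.Agent.AASL

variable {k : Type} [Field k] [NumberField k] {r : ℕ} {p : Fin r → ℕ} [∀ t, Fact (p t).Prime]

private theorem sx_zero (e : ExtK k p) {g : k[X]} (hg : g ≠ 0) (ρ : k →+* ℂ) {β : ℂ}
    (hβ : (g.map ρ).eval β = 0) : ∃ a : AlgebraicClosure k, aeval a g = 0 ∧ e.E ρ a = β := by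
  have hc : (e.E ρ).comp (algebraMap k (AlgebraicClosure k)) = ρ := RingHom.ext (e.hE ρ)
  have hmap : (g.map (algebraMap k (AlgebraicClosure k))).map (e.E ρ) = g.map ρ := by
    rw [Polynomial.map_map, hc]
  have hsp : (g.map (algebraMap k (AlgebraicClosure k))).Splits := IsAlgClosed.splits _
  obtain ⟨a, ha⟩ := hsp.mem_range_of_isRoot (i := e.E ρ) (x := β)
    ((Polynomial.map_ne_zero_iff (algebraMap k (AlgebraicClosure k)).injective).2 hg) (by
      rw [hmap]
      exact hβ)
  refine ⟨a, ?_, ha⟩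
  apply (e.E ρ).injective
  rw [map_zero, aeval_def, Polynomial.hom_eval₂, hc, ha, ← Polynomial.eval_map]
  exact hβ

omit [NumberField k] in
private theorem sx_row0 {n : ℕ} (a a' : AlgebraicClosure k) (z : Fin (n + 1) → k)
    {i : Fin (n + 3)} (hi : (i : ℕ) = 0) : (sysM n a a').mulVec (up z) i =
      ∑ j : Fin (n + 1), a ^ (j : ℕ) * algebraMap k (AlgebraicClosure k) (z j) := by
  simp only [Matrix.mulVec, dotProduct, sysM, hi, if_true, up]

omit [NumberField k] in
private theorem sx_row1 {n : ℕ} (a a' : AlgebraicClosure k) (z : Fin (n + 1) → k)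
    {i : Fin (n + 3)} (hi : (i : ℕ) = 1) : (sysM n a a').mulVec (up z) i =
      ∑ j : Fin (n + 1), a' ^ (j : ℕ) * algebraMap k (AlgebraicClosure k) (z j) := by
  simp only [Matrix.mulVec, dotProduct, sysM, hi, if_true, up, one_ne_zero, if_false]

omit [NumberField k] in
private theorem sx_row2 {n : ℕ} (a a' : AlgebraicClosure k) (z : Fin (n + 1) → k)
    {i : Fin (n + 3)} {j : Fin (n + 1)} (hi : (i : ℕ) = j + 2) :
    (sysM n a a').mulVec (up z) i = algebraMap k (AlgebraicClosure k) (z j) := by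
  have h0 : (i : ℕ) ≠ 0 := by omega
  have h1 : (i : ℕ) ≠ 1 := by omega
  simp only [Matrix.mulVec, dotProduct, sysM, h0, h1, if_false, up]
  rw [Finset.sum_eq_single j]
  · rw [if_pos hi, one_mul]
  · intro j' _ hj'
    rw [if_neg, zero_mul]
    intro h
    exact hj' (Fin.ext (by omega))
  · intro h
    exact absurd (Finset.mem_univ j) h

private theorem sx_eval (e : ExtK k p) {n : ℕ} (ρ : k →+* ℂ) (a : AlgebraicClosure k)
    (y : Fin (n + 1) → 𝓞 k) :
    e.E ρ (∑ j : Fin (n + 1), a ^ (j : ℕ) * algebraMap k (AlgebraicClosure k) (y j : k)) =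
      ev ρ (e.E ρ a) y := by
  rw [map_sum, ev]
  refine Finset.sum_congr rfl fun j _ => ?_
  rw [map_mul, map_pow, e.hE, mul_comm]

private theorem sx_ev_le {n : ℕ} (ρ : k →+* ℂ) (β : ℂ) {y : Fin (n + 1) → 𝓞 k} {R : ℝ}
    (h : ∀ i, ‖ρ (y i : k)‖ ≤ R) : ‖ev ρ β y‖ ≤ (∑ j : Fin (n + 1), ‖β‖ ^ (j : ℕ)) * R := by
  rw [ev, Finset.sum_mul]
  refine (norm_sum_le _ _).trans (Finset.sum_le_sum fun j _ => ?_)
  rw [norm_mul, norm_pow, mul_comm]
  exact mul_le_mul_of_nonneg_left (h j) (pow_nonneg (norm_nonneg _) _)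

private theorem sx_bound (e : ExtK k p) (n : ℕ) (P P' : (k →+* ℂ) → AlgebraicClosure k) :
    ∃ C : ℝ, 1 ≤ C ∧ ∀ (sp : (k →+* ℂ) → ℕ), (∀ ρ, sp ρ ≤ 2) →
      ∀ (R S : ℝ) (y : Fin (n + 1) → 𝓞 k), 0 ≤ S → S ≤ R → (∀ i (ρ : k →+* ℂ), ‖ρ (y i : k)‖ ≤ R) →
        (∀ ρ, 0 < sp ρ → ‖ev ρ (e.E ρ (P ρ)) y‖ ≤ S) →
        (∀ ρ, 1 < sp ρ → ‖ev ρ (e.E ρ (P' ρ)) y‖ ≤ S) →
        (∀ ρ (i : Fin (n + 3)), VK e (Sum.inl ρ) ((sysL (p := p) n P P' (Sum.inl ρ)).mulVec
          (up fun j => (y j : k)) i) ≤ C * (if (i : ℕ) < sp ρ then S else R)) ∧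
        ∀ ρ (i : Fin (n + 3)), VK e (Sum.inr ρ) ((sysL (p := p) n P P' (Sum.inr ρ)).mulVec
          (up fun j => (y j : k)) i) ≤ 1 := by
  classical
  let f : (k →+* ℂ) → ℝ := fun ρ => (∑ j : Fin (n + 1), ‖e.E ρ (P ρ)‖ ^ (j : ℕ)) +
    ∑ j : Fin (n + 1), ‖e.E ρ (P' ρ)‖ ^ (j : ℕ)
  have hf1 : ∀ ρ, 0 ≤ ∑ j : Fin (n + 1), ‖e.E ρ (P ρ)‖ ^ (j : ℕ) := fun ρ =>
    Finset.sum_nonneg fun _ _ => pow_nonneg (norm_nonneg _) _
  have hf2 : ∀ ρ, 0 ≤ ∑ j : Fin (n + 1), ‖e.E ρ (P' ρ)‖ ^ (j : ℕ) := fun ρ =>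
    Finset.sum_nonneg fun _ _ => pow_nonneg (norm_nonneg _) _
  have hf : ∀ ρ, 0 ≤ f ρ := fun ρ => add_nonneg (hf1 ρ) (hf2 ρ)
  have hfC : ∀ ρ, f ρ ≤ 1 + ∑ ρ, f ρ := fun ρ => by
    have := Finset.single_le_sum (f := f) (fun ρ _ => hf ρ) (Finset.mem_univ ρ)
    linarith
  have hC1 : (1 : ℝ) ≤ 1 + ∑ ρ, f ρ := by
    have := Finset.sum_nonneg (s := Finset.univ) (f := f) fun ρ _ => hf ρ
    linarith
  refine ⟨1 + ∑ ρ, f ρ, hC1, ?_⟩
  intro sp hsp R S y hS hSR hR h1 h2
  set C := 1 + ∑ ρ, f ρ with hC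
  have hR0 : 0 ≤ R := hS.trans hSR
  have hCS : S ≤ C * S := le_mul_of_one_le_left hS hC1
  have hCR : R ≤ C * R := le_mul_of_one_le_left hR0 hC1
  refine ⟨fun ρ i => ?_, fun ρ i => ?_⟩
  · change ‖e.E ρ ((sysM n (P ρ) (P' ρ)).mulVec (up fun j => (y j : k)) i)‖ ≤ _
    by_cases hi0 : (i : ℕ) = 0
    · rw [sx_row0 _ _ _ hi0, sx_eval]
      split_ifs with hlt
      · exact (h1 ρ (by omega)).trans hCS
      · refine (sx_ev_le ρ _ fun i => hR i ρ).trans (mul_le_mul_of_nonneg_right ?_ hR0)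
        exact (le_add_of_nonneg_right (hf2 ρ)).trans (hfC ρ)
    by_cases hi1 : (i : ℕ) = 1
    · rw [sx_row1 _ _ _ hi1, sx_eval]
      split_ifs with hlt
      · exact (h2 ρ (by omega)).trans hCS
      · refine (sx_ev_le ρ _ fun i => hR i ρ).trans (mul_le_mul_of_nonneg_right ?_ hR0)
        exact (le_add_of_nonneg_left (hf1 ρ)).trans (hfC ρ)
    · have hi2 : (i : ℕ) - 2 < n + 1 := by have := i.2; omega
      rw [sx_row2 (j := ⟨(i : ℕ) - 2, hi2⟩) _ _ _ (by simp only; omega), e.hE, if_neg (by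
        have := hsp ρ
        omega)]
      exact (hR _ ρ).trans hCR
  · have key : ∃ j : Fin (n + 1), (sysM n 0 0).mulVec (up fun j => (y j : k)) i =
        algebraMap k (AlgebraicClosure k) (y j : k) := by
      have h0 : ∑ j : Fin (n + 1), (0 : AlgebraicClosure k) ^ (j : ℕ) *
          algebraMap k (AlgebraicClosure k) (y j : k) =
            algebraMap k (AlgebraicClosure k) (y 0 : k) := by
        rw [Finset.sum_eq_single 0]
        · rw [Fin.val_zero, pow_zero, one_mul]
        · intro j _ hj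
          rw [zero_pow, zero_mul]
          intro h
          exact hj (Fin.ext h)
        · intro h
          exact absurd (Finset.mem_univ _) h
      by_cases hi0 : (i : ℕ) = 0
      · exact ⟨0, by rw [sx_row0 _ _ _ hi0, h0]⟩
      by_cases hi1 : (i : ℕ) = 1
      · exact ⟨0, by rw [sx_row1 _ _ _ hi1, h0]⟩
      · have hi2 : (i : ℕ) - 2 < n + 1 := by have := i.2; omega
        exact ⟨⟨(i : ℕ) - 2, hi2⟩, by
          rw [sx_row2 (j := ⟨(i : ℕ) - 2, hi2⟩) _ _ _ (by simp only; omega)]⟩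
    obtain ⟨j, hj⟩ := key
    change ‖e.E' ρ.1 ρ.2 ((sysM n 0 0).mulVec (up fun j => (y j : k)) i)‖ ≤ 1
    rw [hj, e.hE']
    exact kaux_integer_le_one _ ρ.2 (y j)

omit [NumberField k] in
private theorem sx_conj {n : ℕ} (τ : k →+* ℂ) (α : ℂ) (y : Fin (n + 1) → 𝓞 k) :
    ev ((starRingEnd ℂ).comp τ) (starRingEnd ℂ α) y = starRingEnd ℂ (ev τ α y) := by
  rw [ev, ev, map_sum]
  refine Finset.sum_congr rfl fun j _ => ?_
  rw [map_mul, map_pow]
  rfl

private theorem sx_conj_root {g : k[X]} {τ : k →+* ℂ} {α : ℂ} (hα : (g.map τ).eval α = 0) :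
    (g.map ((starRingEnd ℂ).comp τ)).eval (starRingEnd ℂ α) = 0 := by
  rw [← Polynomial.map_map, Polynomial.eval_map, Polynomial.eval₂_hom, hα, map_zero]

/-- The cell is contained in the box of a system: take a zero `a ∈ k̄` of `g` with
`e.E τ a = α` and a zero `b` with `e.E τ' b = conj α`, where `τ'` is the conjugate of `τ` (they
exist since `e.E ρ` maps the zeros of `g` in `k̄` onto the zeros of `g.map ρ`: `g` splits in `k̄`).
If `τ` is real and `α` is real: `sp τ = 1`, `sp ρ = 0` for the other `ρ`, `P τ = a`, all other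
values of `P, P'` are `a`. If `τ` is real and `α` is not real: `sp τ = 2`, `P τ = a`, `P' τ = b`,
`P ρ = P' ρ = a` for `ρ ≠ τ`. If `τ` is not real: `sp τ = sp τ' = 1`, `P τ = a`, `P τ' = b`. The
value of the second row for `τ'` is the conjugate of `ev τ α y`. -/
theorem exists_system (e : ExtK k p) (n : ℕ) (g : k[X]) (hg : Irreducible g) (τ : k →+* ℂ) (α : ℂ)
    (hα : (g.map τ).eval α = 0) : ∃ (P P' : (k →+* ℂ) → AlgebraicClosure k) (sp : (k →+* ℂ) → ℕ)
      (C : ℝ), 1 ≤ C ∧ (∀ ρ, aeval (P ρ) g = 0) ∧ (∀ ρ, aeval (P' ρ) g = 0) ∧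
      (∀ ρ, sp ρ ≤ 2) ∧ (∀ ρ, sp ρ = 2 → P ρ ≠ P' ρ) ∧ ∑ ρ, sp ρ = rk τ α ∧
      ((∃ ρ, sp ρ = 2) → IsRl τ ∧ starRingEnd ℂ α ≠ α) ∧
      ∀ (R S : ℝ) (y : Fin (n + 1) → 𝓞 k), 0 ≤ S → S ≤ R → y ∈ cell τ α n R S →
        (∀ ρ (i : Fin (n + 3)), VK e (Sum.inl ρ) ((sysL (p := p) n P P' (Sum.inl ρ)).mulVec
          (up fun j => (y j : k)) i) ≤ C * (if (i : ℕ) < sp ρ then S else R)) ∧
        ∀ ρ (i : Fin (n + 3)), VK e (Sum.inr ρ) ((sysL (p := p) n P P' (Sum.inr ρ)).mulVec
          (up fun j => (y j : k)) i) ≤ 1 := by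
  classical
  obtain ⟨a, ha, haα⟩ := sx_zero e hg.ne_zero τ hα
  obtain ⟨b, hb, hbα⟩ := sx_zero e hg.ne_zero ((starRingEnd ℂ).comp τ) (sx_conj_root hα)
  by_cases hrl : IsRl τ
  · have hτ : (starRingEnd ℂ).comp τ = τ := RingHom.ext hrl
    rw [hτ] at hbα
    by_cases hαr : starRingEnd ℂ α = α
    · -- real embedding, real zero
      obtain ⟨C, hC, hbd⟩ := sx_bound e n (fun _ => a) (fun _ => a)
      refine ⟨fun _ => a, fun _ => a, fun ρ => if ρ = τ then 1 else 0, C, hC, fun _ => ha,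
        fun _ => ha, fun ρ => ?_, fun ρ h => ?_, ?_, ?_, ?_⟩
      · beta_reduce
        split_ifs <;> omega
      · beta_reduce at h
        split_ifs at h <;> omega
      · rw [Finset.sum_ite_eq', if_pos (Finset.mem_univ _), rk, if_pos ⟨hrl, hαr⟩]
      · rintro ⟨ρ, h⟩
        beta_reduce at h
        split_ifs at h <;> omega
      · intro R S y hS hSR hy
        refine hbd _ (fun ρ => ?_) R S y hS hSR hy.1 (fun ρ h => ?_) (fun ρ h => ?_)
        · beta_reduce
          split_ifs <;> omega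
        · have : ρ = τ := by
            by_contra hne
            beta_reduce at h
            rw [if_neg hne] at h
            exact lt_irrefl _ h
          subst this
          rw [haα]
          exact hy.2
        · exfalso
          beta_reduce at h
          split_ifs at h <;> omega
    · -- real embedding, two conjugate zeros
      obtain ⟨C, hC, hbd⟩ := sx_bound e n (fun _ => a) (fun _ => b)
      have hab : a ≠ b := by
        rintro rfl
        exact hαr (hbα.symm.trans haα)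
      refine ⟨fun _ => a, fun _ => b, fun ρ => if ρ = τ then 2 else 0, C, hC, fun _ => ha,
        fun _ => hb, fun ρ => ?_, fun ρ h => hab, ?_, ?_, ?_⟩
      · beta_reduce
        split_ifs <;> omega
      · rw [Finset.sum_ite_eq', if_pos (Finset.mem_univ _), rk, if_neg fun h => hαr h.2]
      · exact fun _ => ⟨hrl, hαr⟩
      · intro R S y hS hSR hy
        refine hbd _ (fun ρ => ?_) R S y hS hSR hy.1 (fun ρ h => ?_) (fun ρ h => ?_)
        · beta_reduce
          split_ifs <;> omega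
        · have : ρ = τ := by
            by_contra hne
            beta_reduce at h
            rw [if_neg hne] at h
            exact lt_irrefl _ h
          subst this
          rw [haα]
          exact hy.2
        · have : ρ = τ := by
            by_contra hne
            beta_reduce at h
            rw [if_neg hne] at h
            exact absurd h (by norm_num)
          subst this
          have h3 := sx_conj ρ α y
          rw [hτ] at h3
          rw [hbα, h3, RCLike.norm_conj]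
          exact hy.2
  · -- the embedding is not real
    set τ' := (starRingEnd ℂ).comp τ with hτ'
    have hne : τ ≠ τ' := by
      intro h
      exact hrl fun x => (DFunLike.congr_fun h x).symm
    obtain ⟨C, hC, hbd⟩ := sx_bound e n (fun ρ => if ρ = τ' then b else a) (fun _ => a)
    refine ⟨fun ρ => if ρ = τ' then b else a, fun _ => a,
      fun ρ => (if ρ = τ then 1 else 0) + (if ρ = τ' then 1 else 0), C, hC, fun ρ => ?_,
      fun _ => ha, fun ρ => ?_, fun ρ h => ?_, ?_, ?_, ?_⟩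
    · simp only
      split_ifs
      · exact hb
      · exact ha
    · beta_reduce
      split_ifs <;> omega
    · exfalso
      beta_reduce at h
      split_ifs at h with h1 h2
      · exact hne (h1.symm.trans h2)
      all_goals omega
    · rw [Finset.sum_add_distrib, Finset.sum_ite_eq', Finset.sum_ite_eq',
        if_pos (Finset.mem_univ _), if_pos (Finset.mem_univ _), rk, if_neg fun h => hrl h.1]
    · rintro ⟨ρ, h⟩
      exfalso
      beta_reduce at h
      split_ifs at h with h1 h2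
      · exact hne (h1.symm.trans h2)
      all_goals omega
    · intro R S y hS hSR hy
      refine hbd _ (fun ρ => ?_) R S y hS hSR hy.1 (fun ρ h => ?_) (fun ρ h => ?_)
      · beta_reduce
        split_ifs <;> omega
      · by_cases h1 : ρ = τ'
        · subst h1
          rw [if_pos rfl, hbα, sx_conj, RCLike.norm_conj]
          exact hy.2
        · have h2 : ρ = τ := by
            by_contra h2
            beta_reduce at h
            rw [if_neg h1, if_neg h2] at h
            exact lt_irrefl _ h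
          subst h2
          rw [if_neg h1, haα]
          exact hy.2
      · exfalso
        beta_reduce at h
        split_ifs at h with h1 h2
        · exact hne (h1.symm.trans h2)
        all_goals omega

end Pool.Agent.AASL
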