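import Pool.Agent.AASL.SysDefs
import Pool.Agent.AASL.RankP
import Pool.Agent.AAS.Basic

/-!
# The system of linear forms of the cell: volumes of the subspaces
-/

set_option autoImplicit false

open NumberField Module Polynomial Pool.Agent.SST Pool.Agent.AAS

namespace Pool.Agent.AASL

variable {k : Type} [Field k] [NumberField k] {r : ℕ} {p : Fin r → ℕ} [∀ t, Fact (p t).Prime]

private lemma sysM_row_zero (n : ℕ) (a a' : AlgebraicClosure k)
    (z : Fin (n + 1) → AlgebraicClosure k) :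
    (sysM n a a').mulVec z 0 = ∑ j : Fin (n + 1), z j * a ^ (j : ℕ) := by
  unfold Matrix.mulVec dotProduct
  refine Finset.sum_congr rfl fun j _ => ?_
  simp only [sysM]
  rw [if_pos (by simp)]
  ring

private lemma sysM_row_one (n : ℕ) (a a' : AlgebraicClosure k)
    (z : Fin (n + 1) → AlgebraicClosure k) :
    (sysM n a a').mulVec z ⟨1, by omega⟩ = ∑ j : Fin (n + 1), z j * a' ^ (j : ℕ) := by
  unfold Matrix.mulVec dotProduct
  refine Finset.sum_congr rfl fun j _ => ?_
  have h : sysM n a a' (⟨1, by omega⟩ : Fin (n + 3)) j = a' ^ (j : ℕ) := by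
    unfold sysM
    rw [if_neg (by norm_num), if_pos (by norm_num)]
  change sysM n a a' (⟨1, by omega⟩ : Fin (n + 3)) j * z j = _
  rw [h]
  ring

private lemma sysM_row_coord (n : ℕ) (a a' : AlgebraicClosure k)
    (z : Fin (n + 1) → AlgebraicClosure k) (j : Fin (n + 1)) :
    (sysM n a a').mulVec z ⟨(j : ℕ) + 2, by omega⟩ = z j := by
  unfold Matrix.mulVec dotProduct
  rw [Finset.sum_eq_single j]
  · have h : sysM n a a' (⟨(j : ℕ) + 2, by omega⟩ : Fin (n + 3)) j = 1 := by
      unfold sysM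
      rw [if_neg (by simp), if_neg (by simp), if_pos (by simp)]
    change sysM n a a' (⟨(j : ℕ) + 2, by omega⟩ : Fin (n + 3)) j * z j = _
    rw [h, one_mul]
  · intro i _ hij
    simp only [sysM]
    rw [if_neg (by omega), if_neg (by omega), if_neg, zero_mul]
    intro h
    apply hij
    apply Fin.ext
    omega
  · intro h
    exact absurd (Finset.mem_univ j) h

private lemma sysM_inj (n : ℕ) (a a' : AlgebraicClosure k) :
    Function.Injective (sysM n a a').mulVec := by
  intro z z' h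
  funext j
  rw [← sysM_row_coord n a a' z j, ← sysM_row_coord n a a' z' j, h]

theorem sysL_inj (n : ℕ) (P P' : (k →+* ℂ) → AlgebraicClosure k) (l : PlK k p) :
    Function.Injective (sysL n P P' l).mulVec := by
  rcases l with ρ | l
  · exact sysM_inj n _ _
  · exact sysM_inj n _ _

theorem sysC_mono (n : ℕ) (sp : (k →+* ℂ) → ℕ) (u v : ℝ) (huv : v ≤ u) (l : PlK k p) :
    Monotone (sysC n sp u v l) := by
  rcases l with ρ | l
  · intro i i' hii
    have h1 : (i : ℕ) ≤ i' := hii
    simp only [sysC]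
    split_ifs with h2 h3 h3
    · exact le_refl _
    · exact huv
    · omega
    · exact le_refl _
  · intro i i' _
    simp only [sysC]
    exact le_refl _

private lemma tele (n : ℕ) (K : ℕ → ℝ) (s : ℕ) (hs : s ≤ 2) (u v : ℝ) :
    ∑ i : Fin (n + 3), (if (i : ℕ) < s then v else u) * (K i - K (i + 1)) =
      u * (K 0 - K (n + 3)) - (u - v) * (K 0 - K s) := by
  have h1 : ∀ m, ∑ i ∈ Finset.range m, (K i - K (i + 1)) = K 0 - K m := by
    intro m
    exact Finset.sum_range_sub' K m
  rw [Fin.sum_univ_eq_sum_range (fun i => (if i < s then v else u) * (K i - K (i + 1))) (n + 3)]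
  have h2 : ∀ i, (if i < s then v else u) * (K i - K (i + 1)) =
      u * (K i - K (i + 1)) - (u - v) * (if i < s then K i - K (i + 1) else 0) := by
    intro i
    split_ifs
    · ring
    · ring
  rw [Finset.sum_congr rfl fun i _ => h2 i, Finset.sum_sub_distrib, ← Finset.mul_sum,
    ← Finset.mul_sum, h1, ← Finset.sum_filter]
  congr 2
  rw [← h1 s]
  refine Finset.sum_congr ?_ fun _ _ => rfl
  ext i
  simp only [Finset.mem_filter, Finset.mem_range]
  omega

private lemma val_ne_zero (n : ℕ) (g : k[X]) (hg : Irreducible g) (hn : n < g.natDegree)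
    (a : AlgebraicClosure k) (ha : aeval a g = 0) (x : Fin (n + 1) → k) (hx : x ≠ 0) :
    ∑ j : Fin (n + 1), up x j * a ^ (j : ℕ) ≠ 0 := by
  classical
  intro h0
  set F : k[X] := ∑ j : Fin (n + 1), C (x j) * X ^ (j : ℕ) with hF
  have h1 : aeval a F = 0 := by
    rw [hF, map_sum, ← h0]
    refine Finset.sum_congr rfl fun j _ => ?_
    rw [map_mul, aeval_C, map_pow, aeval_X]
    rfl
  have hdeg : F.natDegree ≤ n := by
    rw [hF]
    refine Polynomial.natDegree_sum_le_of_forall_le _ _ fun j _ => ?_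
    refine (Polynomial.natDegree_C_mul_X_pow_le _ _).trans ?_
    omega
  have hF0 : F ≠ 0 := by
    intro hF0
    apply hx
    funext i
    have h2 : F.coeff i = x i := by
      rw [hF, Polynomial.finsetSum_coeff, Finset.sum_eq_single i]
      · rw [Polynomial.coeff_C_mul_X_pow, if_pos rfl]
      · intro j _ hji
        rw [Polynomial.coeff_C_mul_X_pow, if_neg]
        intro h
        exact hji (Fin.ext h.symm)
      · intro h
        exact absurd (Finset.mem_univ i) h
    rw [← h2, hF0, Polynomial.coeff_zero]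
    rfl
  have h3 : g ∣ F := by
    have h4 : minpoly k a ∣ F := minpoly.dvd k a h1
    have h5 : minpoly k a ∣ g := minpoly.dvd k a ha
    have h6 : Associated (minpoly k a) g := by
      refine (Irreducible.associated_of_dvd ?_ hg h5)
      exact minpoly.irreducible (Algebra.IsIntegral.isIntegral a)
    exact (h6.symm.dvd).trans h4
  have h7 := Polynomial.natDegree_le_of_dvd h3 hF0
  omega

private lemma rank_alt (n : ℕ) (g : k[X]) (hg : Irreducible g) (hn : n < g.natDegree)
    (a b : AlgebraicClosure k) (ha : aeval a g = 0) (hb : aeval b g = 0) (s : ℕ) (hs : s ≤ 2)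
    (hab : s = 2 → a ≠ b) (U : Submodule k (Fin (n + 1) → k)) (hU : U ≠ ⊥) :
    s + kap (sysM n a b) U s ≤ kap (sysM n a b) U 0 ∨
      (s = 2 ∧ 2 * finrank k U ≤ n + 2 ∧
        1 + kap (sysM n a b) U s ≤ kap (sysM n a b) U 0) := by
  classical
  obtain ⟨x₀, hx₀U, hx₀⟩ := Submodule.exists_mem_ne_zero_of_ne_bot hU
  have hv₀ := val_ne_zero n g hg hn a ha x₀ hx₀
  have hup : ∀ x ∈ U, up x ∈ Submodule.span (AlgebraicClosure k) (up '' (U : Set _)) :=
    fun x hx => Submodule.subset_span ⟨x, hx, rfl⟩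
  have h01 : kap (sysM n a b) U 1 < kap (sysM n a b) U 0 := by
    refine Submodule.finrank_lt_finrank_of_lt ?_
    refine lt_of_le_of_ne (fun z hz => ⟨hz.1, fun i hi => absurd hi (Nat.not_lt_zero _)⟩) ?_
    intro heq
    have h1 : up x₀ ∈ kerS (sysM n a b) U 0 :=
      ⟨hup x₀ hx₀U, fun i hi => absurd hi (Nat.not_lt_zero _)⟩
    rw [← heq] at h1
    have h2 := h1.2 0 (by simp)
    rw [sysM_row_zero] at h2
    exact hv₀ h2
  have h12 := kap_anti (sysM n a b) U (show 1 ≤ 2 by norm_num)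
  have h01' := kap_succ (sysM n a b) U 0
  have h12' := kap_succ (sysM n a b) U 1
  interval_cases s
  · left
    simp
  · left
    omega
  · by_cases h : 2 + kap (sysM n a b) U 2 ≤ kap (sysM n a b) U 0
    · exact Or.inl h
    · right
      refine ⟨rfl, ?_, by omega⟩
      have heq : kap (sysM n a b) U 2 = kap (sysM n a b) U 1 := by omega
      have hle : kerS (sysM n a b) U 2 ≤ kerS (sysM n a b) U 1 :=
        fun z hz => ⟨hz.1, fun i hi => hz.2 i (by omega)⟩
      have hker : kerS (sysM n a b) U 2 = kerS (sysM n a b) U 1 :=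
        Submodule.eq_of_le_of_finrank_eq hle heq
      refine rank_pencil g hg hn a b ha hb (hab rfl) U
        ((∑ j : Fin (n + 1), up x₀ j * b ^ (j : ℕ)) /
          ∑ j : Fin (n + 1), up x₀ j * a ^ (j : ℕ)) ?_
      intro x hx
      set A : AlgebraicClosure k := ∑ j : Fin (n + 1), up x j * a ^ (j : ℕ) with hA
      set B : AlgebraicClosure k := ∑ j : Fin (n + 1), up x j * b ^ (j : ℕ) with hB
      set A₀ : AlgebraicClosure k := ∑ j : Fin (n + 1), up x₀ j * a ^ (j : ℕ) with hA₀
      set B₀ : AlgebraicClosure k := ∑ j : Fin (n + 1), up x₀ j * b ^ (j : ℕ) with hB₀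
      have hAx : ∑ i : Fin (n + 1), algebraMap k (AlgebraicClosure k) (x i) * a ^ (i : ℕ) = A :=
        rfl
      have hBx : ∑ i : Fin (n + 1), algebraMap k (AlgebraicClosure k) (x i) * b ^ (i : ℕ) = B :=
        rfl
      rw [hAx, hBx]
      have hz : up x - (A / A₀) • up x₀ ∈ kerS (sysM n a b) U 1 := by
        refine ⟨sub_mem (hup x hx) (Submodule.smul_mem _ _ (hup x₀ hx₀U)), ?_⟩
        intro i hi
        have hi0 : i = 0 := by
          apply Fin.ext
          simp only [Fin.val_zero]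
          omega
        rw [hi0, Matrix.mulVec_sub, Matrix.mulVec_smul, Pi.sub_apply, Pi.smul_apply,
          sysM_row_zero, sysM_row_zero, smul_eq_mul, ← hA, ← hA₀]
        field_simp
        ring
      rw [← hker] at hz
      have h2 := hz.2 ⟨1, by omega⟩ (by norm_num)
      rw [Matrix.mulVec_sub, Matrix.mulVec_smul, Pi.sub_apply, Pi.smul_apply, sysM_row_one,
        sysM_row_one, smul_eq_mul, ← hB, ← hB₀, sub_eq_zero] at h2
      rw [h2]
      ring

/-- `mu = ∑ ρ, (u * dim U - (u - v) * r ρ)`, where `r ρ = kap 0 - kap (sp ρ)` is the rank of the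
first `sp ρ` rows on `U` (`kap_zero`, `kap_last`; telescoping sum). A nonzero `F ∈ U` does not
vanish at a zero of `g` since its degree is less than the degree of `g`. So `r ρ ≥ 1` if
`sp ρ ≥ 1`, `r ρ = sp ρ` if `sp ρ = 1`, and if `sp ρ = 2` and `r ρ ≠ 2` then the two rows are
proportional on `U` and `rank_pencil` gives `2 * dim U ≤ n + 2`. If this does not happen for any `ρ`
then the first alternative holds; otherwise `∑ r ρ ≥ 1`. -/
theorem mu_sys_le (n : ℕ) (g : k[X]) (hg : Irreducible g) (hn : n < g.natDegree)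
    (P P' : (k →+* ℂ) → AlgebraicClosure k) (hP : ∀ ρ, aeval (P ρ) g = 0)
    (hP' : ∀ ρ, aeval (P' ρ) g = 0) (sp : (k →+* ℂ) → ℕ) (hsp : ∀ ρ, sp ρ ≤ 2)
    (hne : ∀ ρ, sp ρ = 2 → P ρ ≠ P' ρ) (u v : ℝ) (huv : v ≤ u)
    (U : Submodule k (Fin (n + 1) → k)) (hU : U ≠ ⊥) :
    mu (p := p) (sysL n P P') (sysC n sp u v) U ≤
        finrank ℚ k * u * finrank k U - (u - v) * ∑ ρ, (sp ρ : ℝ) ∨
      ((∃ ρ, sp ρ = 2) ∧ 2 * finrank k U ≤ n + 2 ∧
        mu (p := p) (sysL n P P') (sysC n sp u v) U ≤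
          finrank ℚ k * u * finrank k U - (u - v)) := by
  classical
  set d : ℝ := (finrank k U : ℝ) with hd
  set R : (k →+* ℂ) → ℝ := fun ρ => (kap (sysM n (P ρ) (P' ρ)) U 0 : ℝ) -
    kap (sysM n (P ρ) (P' ρ)) U (sp ρ) with hR
  have hmul : ∀ ρ, muL (sysL (p := p) n P P' (Sum.inl ρ)) (sysC (p := p) n sp u v (Sum.inl ρ)) U =
      u * d - (u - v) * R ρ := by
    intro ρ
    have h1 := tele n (fun i => (kap (sysM n (P ρ) (P' ρ)) U i : ℝ)) (sp ρ) (hsp ρ) u v
    unfold muL
    refine h1.trans ?_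
    have h2 : kap (sysM n (P ρ) (P' ρ)) U (n + 3) = 0 := kap_last _ (sysM_inj n _ _) U
    have h3 : kap (sysM n (P ρ) (P' ρ)) U 0 = finrank k U := kap_zero _ U
    simp only [hR, hd, h2, h3]
    push_cast
    ring
  have hmur : ∀ l, muL (sysL (p := p) n P P' (Sum.inr l)) (sysC (p := p) n sp u v (Sum.inr l)) U =
      0 := by
    intro l
    unfold muL
    refine Finset.sum_eq_zero fun i _ => ?_
    simp only [sysC]
    ring
  have hmu : mu (p := p) (sysL n P P') (sysC n sp u v) U =
      finrank ℚ k * u * d - (u - v) * ∑ ρ, R ρ := by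
    unfold mu
    rw [Fintype.sum_sum_type, Finset.sum_congr rfl fun ρ _ => hmul ρ,
      Finset.sum_congr rfl fun l _ => hmur l, Finset.sum_const_zero, add_zero,
      Finset.sum_sub_distrib, Finset.sum_const, Finset.card_univ, NumberField.Embeddings.card,
      ← Finset.mul_sum, nsmul_eq_mul]
    ring
  have hR0 : ∀ ρ, 0 ≤ R ρ := by
    intro ρ
    have h1 := kap_anti (sysM n (P ρ) (P' ρ)) U (Nat.zero_le (sp ρ))
    have h2 : (kap (sysM n (P ρ) (P' ρ)) U (sp ρ) : ℝ) ≤ kap (sysM n (P ρ) (P' ρ)) U 0 := by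
      exact_mod_cast h1
    simp only [hR]
    linarith
  have halt := fun ρ => rank_alt n g hg hn (P ρ) (P' ρ) (hP ρ) (hP' ρ) (sp ρ) (hsp ρ) (hne ρ) U hU
  rw [hmu]
  by_cases hall : ∀ ρ, (sp ρ : ℝ) ≤ R ρ
  · left
    have h1 : ∑ ρ, (sp ρ : ℝ) ≤ ∑ ρ, R ρ := Finset.sum_le_sum fun ρ _ => hall ρ
    have h2 := mul_le_mul_of_nonneg_left h1 (sub_nonneg.2 huv)
    linarith
  · right
    push Not at hall
    obtain ⟨ρ, hρ⟩ := hall
    rcases halt ρ with h | ⟨h2, hdim, h1⟩
    · exfalso
      have h3 : (sp ρ : ℝ) + kap (sysM n (P ρ) (P' ρ)) U (sp ρ) ≤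
          kap (sysM n (P ρ) (P' ρ)) U 0 := by exact_mod_cast h
      simp only [hR] at hρ
      linarith
    · refine ⟨⟨ρ, h2⟩, hdim, ?_⟩
      have h3 : (1 : ℝ) + kap (sysM n (P ρ) (P' ρ)) U (sp ρ) ≤
          kap (sysM n (P ρ) (P' ρ)) U 0 := by exact_mod_cast h1
      have h4 : (1 : ℝ) ≤ R ρ := by
        simp only [hR]
        linarith
      have h5 : R ρ ≤ ∑ ρ', R ρ' :=
        Finset.single_le_sum (fun ρ' _ => hR0 ρ') (Finset.mem_univ ρ)
      have h6 := mul_le_mul_of_nonneg_left (h4.trans h5) (sub_nonneg.2 huv)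
      linarith

end Pool.Agent.AASL
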