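import Pool.Agent.AASL.SysMu
import Pool.Agent.AASL.SysEx
import Pool.Agent.AASL.Fibre
import Pool.Agent.AAS.FirstMin
import Pool.Agent.AAS.CountBox
import Pool.Agent.SST.ProdK

/-!
# Upper bounds for the cell, from the subspace theorem
-/

set_option autoImplicit false

open NumberField Module Polynomial Pool.Agent.SST Pool.Agent.AAS

namespace Pool.Agent.AASL

variable {k : Type} [Field k] [NumberField k] {r : ℕ} {p : Fin r → ℕ} [∀ t, Fact (p t).Prime]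

private theorem upper_mu (n : ℕ) (g : k[X]) (hg : Irreducible g) (hn : n < g.natDegree)
    (P P' : (k →+* ℂ) → AlgebraicClosure k) (hP : ∀ ρ, aeval (P ρ) g = 0)
    (hP' : ∀ ρ, aeval (P' ρ) g = 0) (sp : (k →+* ℂ) → ℕ) (hsp : ∀ ρ, sp ρ ≤ 2)
    (hne : ∀ ρ, sp ρ = 2 → P ρ ≠ P' ρ) (u v : ℝ) (huv : v ≤ u) (R : ℕ) (hR : ∑ ρ, sp ρ = R)
    (U : Submodule k (Fin (n + 1) → k)) (hU : U ≠ ⊥) :
    finrank k U ≤ n + 1 ∧ (mu (p := p) (sysL n P P') (sysC n sp u v) U ≤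
        finrank ℚ k * u * finrank k U - (u - v) * R ∨
      ((∃ ρ, sp ρ = 2) ∧ 2 * finrank k U ≤ n + 2 ∧
        mu (p := p) (sysL n P P') (sysC n sp u v) U ≤
          finrank ℚ k * u * finrank k U - (u - v))) := by
  refine ⟨?_, ?_⟩
  · have h1 := Submodule.finrank_le U
    rwa [Module.finrank_fintype_fun_eq_card, Fintype.card_fin] at h1
  · have h1 := mu_sys_le (p := p) n g hg hn P P' hP hP' sp hsp hne u v huv U hU
    have h2 : ∑ ρ, (sp ρ : ℝ) = R := by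
      rw [← Nat.cast_sum, hR]
    rwa [h2] at h1

/-- From `count_box` for the system of `exists_system` (`e` from `Pool.Agent.SST.exists_extK`) and
the weights `sysC n sp u v`. For `U = ⊥` one has `mu = 0 ≤ M`; for `U ≠ ⊥` use `mu_sys_le`,
`∑ sp = rk`, `finrank U ≤ n + 1`. Since `Q ^ v ≤ Q ^ u` the cell is contained in the box. -/
theorem upper_cell (hp : Function.Injective p) (n : ℕ) (g : k[X]) (hg : Irreducible g)
    (hn : n < g.natDegree) (τ : k →+* ℂ) (α : ℂ) (hα : (g.map τ).eval α = 0) (u v M : ℝ)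
    (hu : 0 ≤ u) (huv : v ≤ u) (hM : 0 ≤ M)
    (h1 : finrank ℚ k * u * (n + 1) - (u - v) * rk τ α ≤ M)
    (h2 : IsRl τ → starRingEnd ℂ α ≠ α → finrank ℚ k * u * (n + 2) / 2 - (u - v) ≤ M)
    (ε C : ℝ) (hε : 0 < ε) (hC : 0 < C) : ∃ C' : ℝ, 0 < C' ∧ ∀ Q : ℝ, 1 ≤ Q →
      ((cell τ α n (C * Q ^ u) (C * Q ^ v)).ncard : ℝ) ≤ C' * Q ^ (M + ε) := by
  obtain ⟨e⟩ := exists_extK (k := k) (p := p)
  obtain ⟨P, P', sp, C₁, hC₁, hP, hP', hsp, hne, hrk, htwo, hin⟩ :=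
    exists_system e n g hg τ α hα
  have hd : (0 : ℝ) ≤ finrank ℚ k := Nat.cast_nonneg _
  have hmu : ∀ U : Submodule k (Fin (n + 1) → k),
      mu (p := p) (sysL n P P') (sysC n sp u v) U ≤ M := by
    intro U
    by_cases hU : U = ⊥
    · rw [hU, mu_bot]
      exact hM
    · obtain ⟨h3, h4 | ⟨h4, h5, h6⟩⟩ :=
        upper_mu (p := p) n g hg hn P P' hP hP' sp hsp hne u v huv _ hrk U hU
      · have h5 : (finrank k U : ℝ) ≤ n + 1 := by exact_mod_cast h3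
        have h6 : (finrank ℚ k : ℝ) * u * finrank k U ≤ finrank ℚ k * u * (n + 1) :=
          mul_le_mul_of_nonneg_left h5 (mul_nonneg hd hu)
        linarith
      · obtain ⟨h7, h8⟩ := htwo h4
        have h9 := h2 h7 h8
        have h10 : (2 : ℝ) * finrank k U ≤ n + 2 := by exact_mod_cast h5
        have h11 : (finrank ℚ k : ℝ) * u * (2 * finrank k U) ≤ finrank ℚ k * u * (n + 2) :=
          mul_le_mul_of_nonneg_left h10 (mul_nonneg hd hu)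
        linarith
  obtain ⟨C', hC', hbox⟩ := count_box e hp (sysL n P P') (sysL_inj n P P') (sysC n sp u v)
    (sysC_mono n sp u v huv) M hmu ε (max (C₁ * C) 1) hε (lt_max_of_lt_right one_pos)
  refine ⟨C', hC', fun Q hQ => ?_⟩
  have hQ0 : 0 < Q := lt_of_lt_of_le one_pos hQ
  obtain ⟨hfin, hle⟩ := hbox Q hQ
  refine le_trans ?_ hle
  have hsub : cell τ α n (C * Q ^ u) (C * Q ^ v) ⊆
      Box e (sysL n P P') (sysC n sp u v) Q (max (C₁ * C) 1) := by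
    intro y hy
    have hS : 0 ≤ C * Q ^ v := mul_nonneg hC.le (Real.rpow_nonneg hQ0.le _)
    have hSR : C * Q ^ v ≤ C * Q ^ u :=
      mul_le_mul_of_nonneg_left (Real.rpow_le_rpow_of_exponent_le hQ huv) hC.le
    obtain ⟨h3, h4⟩ := hin _ _ y hS hSR hy
    rintro (ρ | ρ) i
    · refine (h3 ρ i).trans ?_
      show C₁ * (if (i : ℕ) < sp ρ then C * Q ^ v else C * Q ^ u) ≤
        max (C₁ * C) 1 * Q ^ (if (i : ℕ) < sp ρ then v else u)
      by_cases h5 : (i : ℕ) < sp ρ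
      · rw [if_pos h5, if_pos h5, ← mul_assoc]
        exact mul_le_mul_of_nonneg_right (le_max_left _ _) (Real.rpow_nonneg hQ0.le _)
      · rw [if_neg h5, if_neg h5, ← mul_assoc]
        exact mul_le_mul_of_nonneg_right (le_max_left _ _) (Real.rpow_nonneg hQ0.le _)
    · refine (h4 ρ i).trans ?_
      show (1 : ℝ) ≤ max (C₁ * C) 1 * Q ^ (0 : ℝ)
      rw [Real.rpow_zero, mul_one]
      exact le_max_right _ _
  exact_mod_cast Set.ncard_le_ncard hsub hfin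

/-- From `first_min` for the same system with `u = 1`, `v = 1 - b`, and `1 / t` for `t`:
`mu U ≤ s * dim U` for all `U` by `mu_sys_le` (for `U ≠ ⊥`: `(d - s) * dim U ≤ b * rk`, since
`dim U ≤ n + 1` and `s ≤ d`, or `(d - s) * dim U ≤ b`, since `2 * dim U ≤ n + 2`). -/
theorem slope_cell (hp : Function.Injective p) (n : ℕ) (g : k[X]) (hg : Irreducible g)
    (hn : n < g.natDegree) (τ : k →+* ℂ) (α : ℂ) (hα : (g.map τ).eval α = 0) (b s : ℝ)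
    (hb : 0 ≤ b) (hs : s ≤ finrank ℚ k) (h1 : (finrank ℚ k - s) * (n + 1) ≤ b * rk τ α)
    (h2 : IsRl τ → starRingEnd ℂ α ≠ α → (finrank ℚ k - s) * (n + 2) / 2 ≤ b)
    (ε : ℝ) (hε : 0 < ε) : ∃ Q₀ : ℝ, 1 ≤ Q₀ ∧ ∀ Q t : ℝ, Q₀ ≤ Q → 1 ≤ t →
      ∀ y ∈ cell τ α n (Q / t) (Q ^ (1 - b) / t), y ≠ 0 → t ^ finrank ℚ k ≤ Q ^ (s + ε) := by
  obtain ⟨e⟩ := exists_extK (k := k) (p := p)
  obtain ⟨P, P', sp, C₁, hC₁, hP, hP', hsp, hne, hrk, htwo, hin⟩ :=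
    exists_system e n g hg τ α hα
  have hds : (0 : ℝ) ≤ finrank ℚ k - s := by linarith
  have huv : 1 - b ≤ 1 := by linarith
  have hmu : ∀ U : Submodule k (Fin (n + 1) → k),
      mu (p := p) (sysL n P P') (sysC n sp 1 (1 - b)) U ≤ s * finrank k U := by
    intro U
    by_cases hU : U = ⊥
    · rw [hU, mu_bot, finrank_bot, Nat.cast_zero, mul_zero]
    · obtain ⟨h3, h4 | ⟨h4, h5, h6⟩⟩ :=
        upper_mu (p := p) n g hg hn P P' hP hP' sp hsp hne 1 (1 - b) huv _ hrk U hU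
      · have h5 : (finrank k U : ℝ) ≤ n + 1 := by exact_mod_cast h3
        have h6 : ((finrank ℚ k : ℝ) - s) * finrank k U ≤ (finrank ℚ k - s) * (n + 1) :=
          mul_le_mul_of_nonneg_left h5 hds
        linarith
      · obtain ⟨h7, h8⟩ := htwo h4
        have h9 := h2 h7 h8
        have h10 : (2 : ℝ) * finrank k U ≤ n + 2 := by exact_mod_cast h5
        have h11 : ((finrank ℚ k : ℝ) - s) * (2 * finrank k U) ≤ (finrank ℚ k - s) * (n + 2) :=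
          mul_le_mul_of_nonneg_left h10 hds
        linarith
  obtain ⟨Q₀, hQ₀, hmin⟩ := first_min e hp (sysL n P P') (sysL_inj n P P') (sysC n sp 1 (1 - b))
    (sysC_mono n sp 1 (1 - b) huv) s hmu ε C₁ hε (by linarith)
  refine ⟨Q₀, hQ₀, fun Q t hQ ht y hy hy0 => ?_⟩
  have hQ1 : 1 ≤ Q := hQ₀.trans hQ
  have hQ0 : 0 < Q := lt_of_lt_of_le one_pos hQ1
  have ht0 : 0 < t := lt_of_lt_of_le one_pos ht
  have hS : 0 ≤ Q ^ (1 - b) / t := div_nonneg (Real.rpow_nonneg hQ0.le _) ht0.le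
  have hSR : Q ^ (1 - b) / t ≤ Q / t := by
    have h3 : Q ^ (1 - b) ≤ Q ^ (1 : ℝ) := Real.rpow_le_rpow_of_exponent_le hQ1 huv
    rw [Real.rpow_one] at h3
    exact div_le_div_of_nonneg_right h3 ht0.le
  obtain ⟨h3, h4⟩ := hin _ _ y hS hSR hy
  have h5 := hmin Q (1 / t) hQ (by positivity) y hy0 (fun ρ i => by
    refine (h3 ρ i).trans ?_
    show C₁ * (if (i : ℕ) < sp ρ then Q ^ (1 - b) / t else Q / t) ≤
      C₁ * (1 / t) * Q ^ (if (i : ℕ) < sp ρ then 1 - b else 1)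
    by_cases h5 : (i : ℕ) < sp ρ
    · rw [if_pos h5, if_pos h5]
      apply le_of_eq
      ring
    · rw [if_neg h5, if_neg h5, Real.rpow_one]
      apply le_of_eq
      ring) (fun ρ i => by
    refine (h4 ρ i).trans ?_
    show (1 : ℝ) ≤ C₁ * Q ^ (0 : ℝ)
    rw [Real.rpow_zero, mul_one]
    exact hC₁)
  have h6 : 0 < Q ^ (s + ε) := Real.rpow_pos_of_pos hQ0 _
  have h7 : 0 < t ^ finrank ℚ k := pow_pos ht0 _
  have h8 : -s - ε = -(s + ε) := by ring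
  rw [h8, Real.rpow_neg hQ0.le, one_div, inv_pow] at h5
  exact (inv_le_inv₀ h6 h7).1 h5

/-- From `slope_cell` and `fibre_small`: if `F = fib y > 2 * 8 ^ d` then `t = (F / 2) ^ (1 / d) / 8`
satisfies `1 ≤ t` and `(8 t) ^ d = F / 2 < F`, so `t ^ d ≤ Q ^ (s + ε)`. -/
theorem fib_le (hp : Function.Injective p) (n : ℕ) (g : k[X]) (hg : Irreducible g)
    (hn : n < g.natDegree) (τ : k →+* ℂ) (α : ℂ) (hα : (g.map τ).eval α = 0) (b s : ℝ)
    (hb : 0 ≤ b) (hs0 : 0 ≤ s) (hs : s ≤ finrank ℚ k)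
    (h1 : (finrank ℚ k - s) * (n + 1) ≤ b * rk τ α)
    (h2 : IsRl τ → starRingEnd ℂ α ≠ α → (finrank ℚ k - s) * (n + 2) / 2 ≤ b)
    (ε : ℝ) (hε : 0 < ε) : ∃ Q₀ : ℝ, 1 ≤ Q₀ ∧ ∀ Q : ℝ, Q₀ ≤ Q → ∀ y : Fin (n + 1) → 𝓞 k, y ≠ 0 →
      (fib τ α Q (Q ^ (1 - b)) y : ℝ) ≤ 2 * 8 ^ finrank ℚ k * Q ^ (s + ε) := by
  obtain ⟨Q₀, hQ₀, h⟩ := slope_cell hp n g hg hn τ α hα b s hb hs h1 h2 ε hε
  refine ⟨Q₀, hQ₀, fun Q hQ y hy => ?_⟩
  have hQ1 : 1 ≤ Q := hQ₀.trans hQ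
  have hQ0 : 0 < Q := lt_of_lt_of_le one_pos hQ1
  have hd : 0 < finrank ℚ k := Module.finrank_pos
  have hd' : (0 : ℝ) < finrank ℚ k := by exact_mod_cast hd
  have h8 : (0 : ℝ) < 8 ^ finrank ℚ k := by positivity
  by_cases hF : (fib τ α Q (Q ^ (1 - b)) y : ℝ) ≤ 2 * 8 ^ finrank ℚ k
  · have h3 : 1 ≤ Q ^ (s + ε) := Real.one_le_rpow hQ1 (by linarith)
    refine hF.trans ?_
    exact le_mul_of_one_le_right (by positivity) h3
  · rw [not_le] at hF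
    have hF0 : 0 < (fib τ α Q (Q ^ (1 - b)) y : ℝ) / 2 := by linarith
    have h3 : (((fib τ α Q (Q ^ (1 - b)) y : ℝ) / 2) ^ (1 / (finrank ℚ k : ℝ))) ^ finrank ℚ k =
        (fib τ α Q (Q ^ (1 - b)) y : ℝ) / 2 := by
      rw [← Real.rpow_natCast, ← Real.rpow_mul hF0.le, one_div, inv_mul_cancel₀ hd'.ne',
        Real.rpow_one]
    have h4 : 0 ≤ ((fib τ α Q (Q ^ (1 - b)) y : ℝ) / 2) ^ (1 / (finrank ℚ k : ℝ)) :=
      Real.rpow_nonneg hF0.le _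
    have h5 : 8 ≤ ((fib τ α Q (Q ^ (1 - b)) y : ℝ) / 2) ^ (1 / (finrank ℚ k : ℝ)) := by
      refine le_of_pow_le_pow_left₀ hd.ne' h4 ?_
      rw [h3]
      linarith
    generalize ((fib τ α Q (Q ^ (1 - b)) y : ℝ) / 2) ^ (1 / (finrank ℚ k : ℝ)) = w at h3 h4 h5
    have h6 : (8 * (w / 8)) ^ finrank ℚ k < (fib τ α Q (Q ^ (1 - b)) y : ℝ) := by
      rw [mul_div_cancel₀ w (by norm_num : (8 : ℝ) ≠ 0), h3]
      linarith
    have h7 : 1 ≤ w / 8 := by linarith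
    obtain ⟨y', hy', hy'0, -⟩ := fibre_small τ α n Q (Q ^ (1 - b)) (w / 8) hQ0
      (Real.rpow_pos_of_pos hQ0 _) h7 y hy h6
    have h9 := h Q (w / 8) hQ h7 y' hy' hy'0
    rw [div_pow, h3] at h9
    rw [div_le_iff₀ h8] at h9
    linarith

end Pool.Agent.AASL
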